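import Pool.Agent.NH57.BK.Stm

/-!
# BK-9: the elements that satisfy the local conditions
-/

set_option autoImplicit false
set_option linter.unusedSectionVars false

namespace Pool.Agent.NH57.BK

open Pool.Agent.R384
open QuadraticAlgebra
open scoped Classical

namespace AlgP

variable {q : OO}

/-! ### The residue symbol of a prime of odd norm -/

lemma char_ne (hq : Prime q) (h2 : ¬ q ∣ 2) : letI := fld hq; ringChar (FF q) ≠ 2 := by
  let _ := fld hq
  intro h3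
  apply h2
  have h1 : ((2 : ℕ) : FF q) = 0 := by
    rw [← h3]
    exact CharP.cast_eq_zero _ _
  rw [← mk_eq_zero]
  rw [map_ofNat]
  exact_mod_cast h1

lemma qs_mul (hq : Prime q) (h2 : ¬ q ∣ 2) {x y : OO} (hx : ¬ q ∣ x) (hy : ¬ q ∣ y) :
    qs q (x * y) = qs q x + qs q y := by
  let _ := fld hq
  let _ := ftp hq
  have h0x : (Ideal.Quotient.mk (Ideal.span {q}) x) ≠ 0 := fun h => hx ((mk_eq_zero q x).1 h)
  have h0y : (Ideal.Quotient.mk (Ideal.span {q}) y) ≠ 0 := fun h => hy ((mk_eq_zero q y).1 h)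
  have hc := char_ne hq h2
  have hxy : (Ideal.Quotient.mk (Ideal.span {q}) (x * y)) ≠ 0 := by
    rw [map_mul]
    exact mul_ne_zero h0x h0y
  have key : ∀ z : OO, (Ideal.Quotient.mk (Ideal.span {q}) z) ≠ 0 →
      (qs q z = 0 ↔ quadraticChar (FF q) (Ideal.Quotient.mk (Ideal.span {q}) z) = 1) := by
    intro z hz
    rw [qs_zero, sqm_iff, quadraticChar_one_iff_isSquare hz]
  have kx := key x h0x
  have ky := key y h0y
  have kxy := key _ hxy
  rw [map_mul, map_mul] at kxy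
  have dx := quadraticChar_dichotomy h0x
  have dy := quadraticChar_dichotomy h0y
  have h01 : ∀ a : ZMod 2, a = 0 ∨ a = 1 := by decide
  rcases dx with dx | dx <;> rcases dy with dy | dy <;> rw [dx] at kx kxy <;> rw [dy] at ky kxy <;>
    rcases h01 (qs q x) with e1 | e1 <;> rcases h01 (qs q y) with e2 | e2 <;>
    rcases h01 (qs q (x * y)) with e3 | e3 <;> rw [e1] at kx ⊢ <;> rw [e2] at ky ⊢ <;>
    rw [e3] at kxy ⊢ <;> revert kx ky kxy <;> decide

lemma qs_mul_sq (hq : Prime q) (h2 : ¬ q ∣ 2) {x y : OO} (hx : ¬ q ∣ x) (hy : ¬ q ∣ y) :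
    qs q (x * y ^ 2) = qs q x := by
  have hy2 : ¬ q ∣ y ^ 2 := fun h' => hy (hq.dvd_of_dvd_pow h')
  rw [qs_mul hq h2 hx hy2, qs_sq, add_zero]

lemma qs_prod (hq : Prime q) (h2 : ¬ q ∣ 2) (T : Finset OO) (hf : ∀ ρ ∈ T, ¬ q ∣ ρ) :
    qs q (∏ ρ ∈ T, ρ) = ∑ ρ ∈ T, qs q ρ := by
  induction T using Finset.induction_on with
  | empty =>
    rw [Finset.prod_empty, Finset.sum_empty]
    exact qs_one
  | insert i S hi ih =>
    rw [Finset.prod_insert hi, Finset.sum_insert hi, qs_mul hq h2, ih]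
    · exact fun j hj => hf j (Finset.mem_insert_of_mem hj)
    · exact hf i (Finset.mem_insert_self _ _)
    · intro h1
      obtain ⟨j, hj, h3⟩ := (hq.dvd_finsetProd_iff _).1 h1
      exact hf j (Finset.mem_insert_of_mem hj) h3

/-! ### Primary primes -/

lemma unit_em {u : OO} (hu : IsUnit u) {w4 : ZMod 4} (hw4 : w4 ^ 2 = w4 - 2) :
    em hw4 u = 1 ∨ em hw4 u = -1 := by
  rcases unit_cases hu with rfl | rfl
  · exact Or.inl (map_one _)
  · right; rw [map_neg, map_one]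

lemma em2_om : em h2 om = 2 := by
  show ((om.re : ℤ) : ZMod 4) + ((om.im : ℤ) : ZMod 4) * 2 = 2
  simp only [om]
  decide

lemma not_two (h : Pp q) : ¬ q ∣ 2 := by
  intro hd
  have e : (2 : OO) = om * (1 - om) := om_mul.symm
  rw [e] at hd
  rcases h.prime.dvd_or_dvd hd with h1 | h1
  · obtain ⟨u, hu⟩ := (h.prime.dvd_prime_iff_associated prime_om).1 h1
    have h3 := congrArg (em h2) hu
    rw [map_mul, h.one, one_mul, em2_om] at h3
    rcases unit_em u.isUnit h2 with h4 | h4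
    · rw [h4] at h3; exact absurd h3 (by decide)
    · rw [h4] at h3; exact absurd h3 (by decide)
  · exact h.odd ((h.prime.dvd_prime_iff_associated prime_om').1 h1).symm.dvd

lemma nd {ρ : OO} (h : Pp q) (h' : Pp ρ) (hne : q ≠ ρ) : ¬ q ∣ ρ := by
  intro hd
  obtain ⟨u, hu⟩ := (h.prime.dvd_prime_iff_associated h'.prime).1 hd
  rcases unit_cases u.isUnit with h3 | h3
  · rw [h3, mul_one] at hu
    exact hne hu
  · have h4 := congrArg (em h2) hu
    rw [map_mul, h.one, h'.one, h3, map_neg, map_one] at h4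
    exact absurd h4 (by decide)

lemma not_s7 (h : Pp q) : ¬ q ∣ s7 := fun hd =>
  h.sev ((h.prime.dvd_prime_iff_associated prime_s7).1 hd).symm.dvd

lemma not_unit (h : Pp q) {u : OO} (hu : u = 1 ∨ u = -1) : ¬ q ∣ u := by
  rcases hu with rfl | rfl
  · exact fun hd => h.prime.not_isUnit (isUnit_of_dvd_one hd)
  · exact fun hd => h.prime.not_isUnit (isUnit_of_dvd_one ((dvd_neg).1 hd))

lemma nd_prod {T : Finset OO} (hT : ∀ ρ ∈ T, Pp ρ) (h : Pp q) (hq : q ∉ T) : ¬ q ∣ ∏ ρ ∈ T, ρ := by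
  intro h1
  obtain ⟨j, hj, h3⟩ := (h.prime.dvd_finsetProd_iff _).1 h1
  exact nd h (hT j hj) (fun h4 => hq (h4 ▸ hj)) h3

/-- the sign with values in `ℤ/4` -/
def sg (a : ZMod 2) : ZMod 4 := if a = 0 then 1 else -1

lemma sg_add : ∀ a b : ZMod 2, sg (a + b) = sg a * sg b := by decide

lemma sg_one : ∀ a : ZMod 2, sg a = 1 → a = 0 := by decide

lemma h3 : (3 : ZMod 4) ^ 2 = 3 - 2 := by decide

lemma odd_dvd {z : OO} : (1 - om) ∣ z ↔ (2 : ℤ) ∣ z.re + z.im := by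
  constructor
  · rintro ⟨t, rfl⟩
    simp [om]
  · rintro ⟨k, hk⟩
    refine ⟨⟨-z.im, k⟩, ?_⟩
    ext
    · simp [om]; linarith
    · simp [om]

lemma em3 (h : Pp q) : em h3 q = sg (tO q) := by
  have h1 : ((q.re : ℤ) : ZMod 4) + ((q.im : ℤ) : ZMod 4) * 2 = 1 := h.one
  have h4 : ¬ (2 : ℤ) ∣ q.re + q.im := fun hd => h.odd (odd_dvd.2 hd)
  have h5 : ((q.re + q.im * 2 - 1 : ℤ) : ZMod 4) = 0 := by
    push_cast
    rw [h1, sub_self]
  obtain ⟨k, hk⟩ := (ZMod.intCast_zmod_eq_zero_iff_dvd _ 4).1 h5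
  push_cast at hk
  have h6 : em h3 q = (((q.re + q.im * 3 : ℤ)) : ZMod 4) := by
    show ((q.re : ℤ) : ZMod 4) + ((q.im : ℤ) : ZMod 4) * 3 = _
    push_cast
    rfl
  have hre : q.re = 4 * k + 1 - 2 * q.im := by linarith
  have hn : nn q = 4 * (4 * k ^ 2 + 2 * k - 3 * k * q.im - q.im + q.im ^ 2) + (1 + q.im) := by
    rw [nn, hre]; ring
  rw [h6]
  unfold tO
  have hodd : q.im % 2 = 0 := by omega
  have he : q.re + q.im * 3 = 4 * k + (1 + q.im) := by rw [hre]; ring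
  rw [he]
  rcases (by omega : q.im % 4 = 0 ∨ q.im % 4 = 2) with h7 | h7
  · rw [if_neg (by omega)]
    obtain ⟨l, hl⟩ : ∃ l, q.im = 4 * l := ⟨q.im / 4, by omega⟩
    rw [hl]
    push_cast
    have h40 : (4 : ZMod 4) = 0 := by decide
    rw [h40]
    simp [sg]
  · rw [if_pos (by omega)]
    obtain ⟨l, hl⟩ : ∃ l, q.im = 4 * l + 2 := ⟨q.im / 4, by omega⟩
    rw [hl]
    push_cast
    have h40 : (4 : ZMod 4) = 0 := by decide
    rw [h40]
    simp only [zero_mul, zero_add]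
    decide

lemma em3_prod {T : Finset OO} (hT : ∀ ρ ∈ T, Pp ρ) :
    em h3 (∏ ρ ∈ T, ρ) = sg (∑ ρ ∈ T, tO ρ) := by
  induction T using Finset.induction_on with
  | empty => rw [Finset.prod_empty, Finset.sum_empty, map_one]; rfl
  | insert i S hi ih =>
    rw [Finset.prod_insert hi, Finset.sum_insert hi, map_mul, sg_add,
      ih fun ρ hρ => hT ρ (Finset.mem_insert_of_mem hρ), em3 (hT i (Finset.mem_insert_self _ _))]

lemma em2_prod {T : Finset OO} (hT : ∀ ρ ∈ T, Pp ρ) : em h2 (∏ ρ ∈ T, ρ) = 1 := by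
  rw [map_prod]
  exact Finset.prod_eq_one fun ρ hρ => (hT ρ hρ).one

lemma sum_t {S : Finset OO} (hS : GoodS S) : ∑ ρ ∈ S, tO ρ = 0 := by
  apply sg_one
  rw [← em3_prod hS.pp]
  obtain ⟨t, ht⟩ := hS.one
  have h1 := congrArg (em h3) ht
  rw [map_sub, map_mul, map_one, map_ofNat] at h1
  have h40 : (4 : ZMod 4) = 0 := by decide
  rw [h40, zero_mul] at h1
  exact sub_eq_zero.1 h1

/-! ### Linear algebra -/

/-- the transposed system -/
lemma transp {S : Finset OO} (hS : GoodS S) (x : OO → ZMod 2)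
    (h : ∀ π ∈ S, (qs s7 π + ∑ ρ ∈ S, qs ρ π) * x π + ∑ ρ ∈ S, qs π ρ * x ρ = 0) :
    ∀ π ∈ S, x π = 0 := by
  let A : Matrix S S (ZMod 2) := fun π ρ =>
    (if π = ρ then qs s7 π + ∑ τ ∈ S, qs (τ : OO) π else 0) + qs (ρ : OO) (π : OO)
  have hA : ∀ (y : S → ZMod 2) (π : S), (A.mulVec y) π =
      (qs s7 π + ∑ τ ∈ S, qs (τ : OO) π) * y π + ∑ ρ : S, qs (ρ : OO) (π : OO) * y ρ := by
    intro y π
    rw [Matrix.mulVec, dotProduct]
    simp only [A, add_mul, Finset.sum_add_distrib]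
    congr 1
    rw [Finset.sum_eq_single π]
    · rw [if_pos rfl]; ring
    · intro b _ hb
      rw [if_neg (fun h => hb h.symm), zero_mul]
    · intro h; exact absurd (Finset.mem_univ _) h
  have hAt : ∀ (y : S → ZMod 2) (π : S), (A.transpose.mulVec y) π =
      (qs s7 π + ∑ τ ∈ S, qs (τ : OO) π) * y π + ∑ ρ : S, qs (π : OO) (ρ : OO) * y ρ := by
    intro y π
    rw [Matrix.mulVec, dotProduct]
    simp only [A, Matrix.transpose_apply, add_mul, Finset.sum_add_distrib]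
    congr 1
    rw [Finset.sum_eq_single π]
    · rw [if_pos rfl]; ring
    · intro b _ hb
      rw [if_neg hb, zero_mul]
    · intro h; exact absurd (Finset.mem_univ _) h
  have hdet : A.det ≠ 0 := by
    intro h0
    obtain ⟨v, hv, hv0⟩ := Matrix.exists_mulVec_eq_zero_iff.2 h0
    apply hv
    let V : OO → ZMod 2 := fun ρ => if hρ : ρ ∈ S then v ⟨ρ, hρ⟩ else 0
    have hV : ∀ ρ : S, V ρ = v ρ := fun ρ => by simp [V]
    have h1 := hS.reg V (by
      intro π hπ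
      have h2 := congrFun hv0 ⟨π, hπ⟩
      rw [hA, Pi.zero_apply] at h2
      rw [← h2]
      simp only [mul_add, Finset.sum_add_distrib, ← Finset.sum_mul]
      rw [← Finset.sum_coe_sort S (fun ρ => qs ρ π * V ρ)]
      simp only [hV]
      rw [← hV ⟨π, hπ⟩]
      ring)
    ext ρ
    rw [← hV ρ, h1 ρ ρ.2]
    rfl
  intro π hπ
  by_contra hne
  apply hdet
  rw [← Matrix.det_transpose]
  refine Matrix.exists_mulVec_eq_zero_iff.1 ⟨fun ρ => x ρ, fun h0 => hne (congrFun h0 ⟨π, hπ⟩), ?_⟩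
  ext ρ
  rw [hAt, Finset.sum_coe_sort S (fun ρ' => qs (ρ : OO) ρ' * x ρ')]
  exact h ρ ρ.2

lemma comb {S T : Finset OO} (hTS : T ⊆ S) (c : OO → ZMod 2) (vv : ZMod 2) (e : ZMod 2) (q : OO)
    (x : OO → ZMod 2) (hx : ∀ ρ, x ρ = if ρ ∈ T then 1 else 0)
    (ha : q ∉ T → e + ∑ ρ ∈ T, c ρ = 0)
    (hb : q ∈ T → e + vv + ∑ ρ ∈ S \ T, c ρ = 0) :
    ∑ ρ ∈ S, c ρ * (x ρ + x q) + vv * x q + e = 0 := by
  have h1 : ∑ ρ ∈ S, c ρ * x ρ = ∑ ρ ∈ T, c ρ := by
    rw [← Finset.sum_subset hTS]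
    · refine Finset.sum_congr rfl fun ρ hρ => ?_
      rw [hx, if_pos hρ, mul_one]
    · intro ρ _ hρ
      rw [hx, if_neg hρ, mul_zero]
  have h2 : ∑ ρ ∈ S \ T, c ρ + ∑ ρ ∈ T, c ρ = ∑ ρ ∈ S, c ρ := Finset.sum_sdiff hTS
  simp only [mul_add, Finset.sum_add_distrib, ← Finset.sum_mul]
  rw [h1]
  have h5 : ∀ y : ZMod 2, y + y = 0 := by decide
  by_cases hq : q ∈ T
  · rw [hx q, if_pos hq, mul_one, mul_one, ← h2]
    have := hb hq
    linear_combination this + h5 (∑ ρ ∈ T, c ρ)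
  · rw [hx q, if_neg hq, mul_zero, mul_zero]
    have := ha hq
    linear_combination this

lemma empty_of {T : Finset OO} {x : OO → ZMod 2} (hx : ∀ ρ, x ρ = if ρ ∈ T then 1 else 0)
    {S : Finset OO} (hTS : T ⊆ S) (h : ∀ ρ ∈ S, x ρ = 0) : T = ∅ := by
  rw [Finset.eq_empty_iff_forall_notMem]
  intro ρ hρ
  have h1 := h ρ (hTS hρ)
  rw [hx, if_pos hρ] at h1
  exact absurd h1 (by decide)

lemma eps_of {u : OO} (hrec : S_REC) (hu : u = 1 ∨ u = -1) : ∃ e : ZMod 2,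
    (∀ q, Pp q → qs q u = e * tO q) ∧
    (∀ (w4 : ZMod 4) (hw4 : w4 ^ 2 = w4 - 2), em hw4 u = sg e) ∧ (e = 0 → u = 1) := by
  rcases hu with rfl | rfl
  · refine ⟨0, fun q _ => by rw [qs_one, zero_mul], fun w4 hw4 => ?_, fun _ => rfl⟩
    rw [map_one]; rfl
  · refine ⟨1, fun q hq => by rw [(hrec.2 q hq).2, one_mul], fun w4 hw4 => ?_,
      fun h => absurd h (by decide)⟩
    rw [map_neg, map_one]; rfl

lemma rec_all (hrec : S_REC) {S : Finset OO} (hS : GoodS S) {π ρ : OO} (hπ : π ∈ S) (hρ : ρ ∈ S) :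
    qs ρ π = qs π ρ + tO π * tO ρ + (if ρ = π then tO π else 0) := by
  have h5 : ∀ y : ZMod 2, y + y = 0 := by decide
  by_cases h : ρ = π
  · rw [if_pos h, h]
    have h6 : ∀ y : ZMod 2, y * y + y = 0 := by decide
    linear_combination -h6 (tO π)
  · rw [if_neg h]
    have h1 := hrec.1 π ρ (hS.pp π hπ) (hS.pp ρ hρ) (fun h' => h h'.symm)
    linear_combination h1 - h5 (qs π ρ)

/-- the linear algebra -/
lemma lin (hrec : S_REC) {S : Finset OO} (hS : GoodS S) {T : Finset OO} (hTS : T ⊆ S) {u v : OO}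
    {w4 : ZMod 4} (hw4 : w4 ^ 2 = w4 - 2) (hu : u = 1 ∨ u = -1)
    (hv : (v = -1 ∧ w4 = 2) ∨ (v = 1 ∧ w4 = 3))
    (ha : ∀ q ∈ S, q ∉ T → qs q u + ∑ ρ ∈ T, qs q ρ = 0)
    (hb : ∀ q ∈ T, qs q (u * v) + qs q s7 + ∑ ρ ∈ S \ T, qs q ρ = 0)
    (hc : em hw4 (u * ∏ ρ ∈ T, ρ) = 1) : T = ∅ ∧ u = 1 := by
  obtain ⟨e, he1, he2, he3⟩ := eps_of hrec hu
  have hTp : ∀ ρ ∈ T, Pp ρ := fun ρ hρ => hS.pp ρ (hTS hρ)
  have h5 : ∀ y : ZMod 2, y + y = 0 := by decide
  set x : OO → ZMod 2 := fun ρ => if ρ ∈ T then 1 else 0 with hxdef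
  have hx : ∀ ρ, x ρ = if ρ ∈ T then 1 else 0 := fun ρ => rfl
  rw [map_mul, he2] at hc
  rcases hv with ⟨rfl, rfl⟩ | ⟨rfl, rfl⟩
  · rw [em2_prod hTp, mul_one] at hc
    have he0 := sg_one _ hc
    have hu1 := he3 he0
    refine ⟨?_, hu1⟩
    subst hu1
    apply empty_of hx hTS
    apply transp hS
    intro q hq
    have hpq := hS.pp q hq
    have h1 := comb hTS (fun ρ => qs q ρ) (tO q + qs q s7) 0 q x hx
      (fun h => by
        have := ha q hq h
        rw [qs_one] at this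
        exact this)
      (fun h => by
        have := hb q h
        rw [one_mul, (hrec.2 q hpq).2] at this
        rw [zero_add]
        exact this)
    have h2 : ∑ ρ ∈ S, qs ρ q = ∑ ρ ∈ S, qs q ρ + tO q := by
      rw [Finset.sum_congr rfl fun ρ hρ => rec_all hrec hS hq hρ, Finset.sum_add_distrib,
        Finset.sum_add_distrib, ← Finset.mul_sum, sum_t hS, mul_zero, add_zero,
        Finset.sum_ite_eq', if_pos hq]
    rw [h2, ← (hrec.2 q hpq).1]
    simp only [mul_add, Finset.sum_add_distrib, ← Finset.sum_mul] at h1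
    linear_combination h1
  · rw [em3_prod hTp, ← sg_add] at hc
    have he0 := sg_one _ hc
    have hT : T = ∅ := by
      apply empty_of hx hTS
      apply hS.reg
      intro q hq
      have hpq := hS.pp q hq
      have h1 := comb hTS (fun ρ => qs q ρ) (qs q s7) (qs q u) q x hx
        (fun h => ha q hq h)
        (fun h => by
          have := hb q h
          rw [mul_one] at this
          exact this)
      have h3 : ∑ ρ ∈ S, tO ρ * x ρ = e := by
        have h4 : ∑ ρ ∈ S, tO ρ * x ρ = ∑ ρ ∈ T, tO ρ := by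
          rw [← Finset.sum_subset hTS]
          · refine Finset.sum_congr rfl fun ρ hρ => ?_
            rw [hx, if_pos hρ, mul_one]
          · intro ρ _ hρ
            rw [hx, if_neg hρ, mul_zero]
        rw [h4]
        linear_combination he0 - h5 e
      have h2 : ∑ ρ ∈ S, qs ρ q * (x q + x ρ) =
          ∑ ρ ∈ S, qs q ρ * (x ρ + x q) + tO q * e := by
        have h6 : ∑ ρ ∈ S, qs ρ q * (x q + x ρ) = ∑ ρ ∈ S, (qs q ρ * (x ρ + x q) +
            (tO q * x q * tO ρ + tO q * (tO ρ * x ρ)) + (if ρ = q then tO q * (x q + x q) else 0)) := by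
          refine Finset.sum_congr rfl fun ρ hρ => ?_
          rw [rec_all hrec hS hq hρ]
          by_cases h : ρ = q
          · rw [if_pos h, if_pos h, h]; ring
          · rw [if_neg h, if_neg h]; ring
        rw [h6, Finset.sum_add_distrib, Finset.sum_add_distrib, Finset.sum_add_distrib,
          ← Finset.mul_sum, ← Finset.mul_sum, h3, sum_t hS, mul_zero, zero_add,
          Finset.sum_ite_eq', if_pos hq, h5, mul_zero, add_zero]
      rw [h2, ← (hrec.2 q hpq).1]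
      rw [he1 q hpq] at h1
      linear_combination h1
    refine ⟨hT, he3 ?_⟩
    rw [hT, Finset.sum_empty, add_zero] at he0
    exact he0

end AlgP

theorem t_ALG : S_ALG := by
  intro hrec S hS m ϖ ϖ' δ w4 hw4 hcase hδ hϖ hϖ' hem hsup hloc
  obtain ⟨v, hvc, hmv⟩ : ∃ v : OO, ((v = -1 ∧ w4 = 2) ∨ (v = 1 ∧ w4 = 3)) ∧
      m = v * (s7 * ∏ q ∈ S, q) := by
    rcases hcase with ⟨h, -, -, h4⟩ | ⟨h, -, -, h4⟩
    · exact ⟨-1, Or.inl ⟨rfl, h4⟩, by rw [h]; ring⟩
    · exact ⟨1, Or.inr ⟨rfl, h4⟩, by rw [h]; ring⟩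
  have hvu : v = 1 ∨ v = -1 := by
    rcases hvc with ⟨h, -⟩ | ⟨h, -⟩
    · exact Or.inr h
    · exact Or.inl h
  have hom : ¬ om ∣ δ ∧ ¬ (1 - om) ∣ δ := by
    rcases hcase with ⟨-, h1, h2, -⟩ | ⟨-, h1, h2, -⟩
    · rw [h1] at hϖ; rw [h2] at hϖ'; exact ⟨hϖ, hϖ'⟩
    · rw [h1] at hϖ; rw [h2] at hϖ'; exact ⟨hϖ', hϖ⟩
  have h2δ : ∀ π : OO, Prime π → π ∣ δ → ¬ π ∣ 2 := by
    intro π hπ hd h2
    have e : (2 : OO) = om * (1 - om) := om_mul.symm
    rw [e] at h2
    rcases hπ.dvd_or_dvd h2 with h1 | h1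
    · exact hom.1 (((hπ.dvd_prime_iff_associated prime_om).1 h1).symm.dvd.trans hd)
    · exact hom.2 (((hπ.dvd_prime_iff_associated prime_om').1 h1).symm.dvd.trans hd)
  have hs70 : s7 ≠ 0 := prime_s7.ne_zero
  -- the part prime to `√-7`
  obtain ⟨f, δ', hf, hδf, hδ7⟩ :
      ∃ (f : ℕ) (δ' : OO), (f = 0 ∨ f = 1) ∧ δ = s7 ^ f * δ' ∧ ¬ s7 ∣ δ' := by
    by_cases h : s7 ∣ δ
    · obtain ⟨δ', h'⟩ := h
      refine ⟨1, δ', Or.inr rfl, by rw [h', pow_one], ?_⟩
      rintro ⟨t, ht⟩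
      apply prime_s7.not_isUnit
      apply hδ s7
      rw [h', ht]
      exact ⟨t, by ring⟩
    · exact ⟨0, δ, Or.inl rfl, by rw [pow_zero, one_mul], h⟩
  have hδd : δ' ∣ δ := by rw [hδf]; exact Dvd.intro_left _ rfl
  have hδ' : Squarefree δ' := hδ.squarefree_of_dvd hδd
  set T : Finset OO := S.filter fun q => q ∣ δ' with hT
  have hTS : T ⊆ S := Finset.filter_subset _ _
  have hmem : ∀ q, q ∈ T ↔ q ∈ S ∧ q ∣ δ' := fun q => by simp [hT]
  have hTp : ∀ ρ ∈ T, Pp ρ := fun ρ hρ => hS.pp ρ (hTS hρ)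
  obtain ⟨u, hu, hδe⟩ : ∃ u : OO, (u = 1 ∨ u = -1) ∧ δ' = u * ∏ q ∈ T, q := by
    have hP : ∏ q ∈ T, q ∣ δ' := by
      apply Finset.prod_dvd_of_coprime
      · intro i hi k hk hik
        exact ((hTp i hi).prime.irreducible.coprime_iff_not_dvd).2 (AlgP.nd (hTp i hi) (hTp k hk) hik)
      · intro i hi
        exact ((hmem i).1 hi).2
    obtain ⟨δ2, h2⟩ := hP
    have hδ20 : δ2 ≠ 0 := by
      rintro rfl
      rw [mul_zero] at h2
      exact hδ'.ne_zero h2
    have hno : ∀ q ∈ S, ¬ q ∣ δ2 := by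
      rintro i hi ⟨t, ht⟩
      have hiT : i ∈ T := (hmem i).2 ⟨hi, by rw [h2, ht]; exact ⟨(∏ q ∈ T, q) * t, by ring⟩⟩
      obtain ⟨v, hv⟩ := Finset.dvd_prod_of_mem (fun q : OO => q) hiT
      apply (hS.pp i hi).prime.not_isUnit
      apply hδ' i
      rw [h2, ht, hv]
      exact ⟨v * t, by ring⟩
    have hunit : IsUnit δ2 := by
      by_contra hcon
      obtain ⟨π, hπ, hπy⟩ := WfDvdMonoid.exists_irreducible_factor hcon hδ20
      have hπp := hπ.prime
      have hπδ' : π ∣ δ' := hπy.trans (by rw [h2]; exact Dvd.intro_left _ rfl)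
      have hπδ : π ∣ δ := hπδ'.trans hδd
      have hπm := hsup π hπp hπδ (h2δ π hπp hπδ)
      rw [hmv] at hπm
      rcases hπp.dvd_or_dvd hπm with h3 | h3
      · apply hπp.not_isUnit
        rcases hvu with rfl | rfl
        · exact isUnit_of_dvd_one h3
        · exact isUnit_of_dvd_one ((dvd_neg).1 h3)
      · rcases hπp.dvd_or_dvd h3 with h4 | h4
        · exact hδ7 (((hπp.dvd_prime_iff_associated prime_s7).1 h4).symm.dvd.trans hπδ')
        · obtain ⟨q, hq, h5⟩ := (hπp.dvd_finsetProd_iff _).1 h4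
          exact hno q hq
            ((((hπp.dvd_prime_iff_associated (hS.pp q hq).prime).1 h5).symm.dvd.trans hπy))
    exact ⟨δ2, unit_cases hunit, by rw [h2]; ring⟩
  have hTdvd : ∀ q ∈ S, (q ∈ T ↔ q ∣ δ) := by
    intro q hq
    rw [hmem, hδf]
    constructor
    · exact fun h => Dvd.dvd.mul_left h.2 _
    · intro h
      refine ⟨hq, ?_⟩
      rcases (hS.pp q hq).prime.dvd_or_dvd h with h1 | h1
      · exact absurd ((hS.pp q hq).prime.dvd_of_dvd_pow h1) (AlgP.not_s7 (hS.pp q hq))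
      · exact h1
  have hsf : ∀ q, Pp q → ¬ q ∣ s7 ^ f ∧ qs q (s7 ^ f) = f * qs q s7 := by
    intro q hq
    rcases hf with rfl | rfl
    · refine ⟨fun h => hq.prime.not_isUnit (isUnit_of_dvd_one (by simpa using h)), ?_⟩
      rw [pow_zero, qs_one]; simp
    · rw [pow_one]
      exact ⟨AlgP.not_s7 hq, by simp⟩
  have huv : u * v = 1 ∨ u * v = -1 := by
    rcases hu with rfl | rfl <;> rcases hvu with rfl | rfl <;> simp
  have hqm : ∀ q ∈ S, q ∣ m := by
    intro q hq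
    rw [hmv]
    exact Dvd.dvd.mul_left (Dvd.dvd.mul_left (Finset.dvd_prod_of_mem (fun q : OO => q) hq) _) _
  -- the conditions
  have c1 : ∀ q ∈ S, q ∉ T → qs q u + f * qs q s7 + ∑ ρ ∈ T, qs q ρ = 0 := by
    intro q hq hqT
    have hp := hS.pp q hq
    have h2 := AlgP.not_two hp
    rcases hloc q hp.prime (hqm q hq) with ⟨-, h1⟩ | ⟨δ1, m1, h1, -⟩
    · have n1 := AlgP.nd_prod hTp hp hqT
      have n0 := AlgP.not_unit hp hu
      have n3 : ¬ q ∣ u * ∏ ρ ∈ T, ρ := fun h => (hp.prime.dvd_or_dvd h).elim n0 n1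
      rw [← qs_zero, hδf, hδe, AlgP.qs_mul hp.prime h2 (hsf q hp).1 n3,
        AlgP.qs_mul hp.prime h2 n0 n1, (hsf q hp).2, AlgP.qs_prod hp.prime h2 T
          (fun ρ hρ => AlgP.nd hp (hTp ρ hρ) (fun h => hqT (h ▸ hρ)))] at h1
      rw [← h1]
      ring
    · exact absurd ((hTdvd q hq).2 ⟨δ1, h1⟩) hqT
  have c2 : ∀ q ∈ T, qs q (u * v) + (f * qs q s7 + qs q s7) + ∑ ρ ∈ S \ T, qs q ρ = 0 := by
    intro q hqT
    have hq := hTS hqT
    have hp := hS.pp q hq
    have h2' := AlgP.not_two hp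
    rcases hloc q hp.prime (hqm q hq) with ⟨h1, -⟩ | ⟨δ1, m1, h1, h2, h3⟩
    · exact absurd ((hTdvd q hq).1 hqT) h1
    · have hq0 := hp.prime.ne_zero
      have e1 : δ1 = s7 ^ f * (u * ∏ ρ ∈ T.erase q, ρ) := by
        apply mul_left_cancel₀ hq0
        rw [← h1, hδf, hδe, ← Finset.mul_prod_erase T (fun q => q) hqT]
        ring
      have e2 : m1 = v * (s7 * ((∏ ρ ∈ T.erase q, ρ) * ∏ ρ ∈ S \ T, ρ)) := by
        apply mul_left_cancel₀ hq0
        rw [← h2, hmv, ← Finset.prod_sdiff hTS, ← Finset.mul_prod_erase T (fun q => q) hqT]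
        ring
      have e3 : δ1 * m1 = (s7 ^ f * (s7 * (u * v * ∏ ρ ∈ S \ T, ρ))) *
          (∏ ρ ∈ T.erase q, ρ) ^ 2 := by
        rw [e1, e2]
        ring
      have hqT' : q ∉ S \ T := fun h => (Finset.mem_sdiff.1 h).2 hqT
      have hSTp : ∀ ρ ∈ S \ T, Pp ρ := fun ρ hρ => hS.pp ρ (Finset.mem_sdiff.1 hρ).1
      have n1 := AlgP.nd_prod hSTp hp hqT'
      have n2 := AlgP.not_unit hp huv
      have n3 : ¬ q ∣ u * v * ∏ ρ ∈ S \ T, ρ := fun h => (hp.prime.dvd_or_dvd h).elim n2 n1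
      have n4 : ¬ q ∣ s7 * (u * v * ∏ ρ ∈ S \ T, ρ) := fun h =>
        (hp.prime.dvd_or_dvd h).elim (AlgP.not_s7 hp) n3
      have n5 : ¬ q ∣ s7 ^ f * (s7 * (u * v * ∏ ρ ∈ S \ T, ρ)) := fun h =>
        (hp.prime.dvd_or_dvd h).elim (hsf q hp).1 n4
      have n6 : ¬ q ∣ ∏ ρ ∈ T.erase q, ρ :=
        AlgP.nd_prod (fun ρ hρ => hTp ρ (Finset.mem_of_mem_erase hρ)) hp (Finset.notMem_erase q T)
      rw [← qs_zero, e3, AlgP.qs_mul_sq hp.prime h2' n5 n6,
        AlgP.qs_mul hp.prime h2' (hsf q hp).1 n4, AlgP.qs_mul hp.prime h2' (AlgP.not_s7 hp) n3,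
        AlgP.qs_mul hp.prime h2' n2 n1, (hsf q hp).2, AlgP.qs_prod hp.prime h2' (S \ T)
          (fun ρ hρ => AlgP.nd hp (hSTp ρ hρ) (fun h => hqT' (h ▸ hρ)))] at h3
      rw [← h3]
      ring
  rcases hf with rfl | rfl
  · -- `√-7` does not divide `δ`
    rw [pow_zero, one_mul] at hδf
    left
    obtain ⟨g1, g2⟩ := AlgP.lin hrec hS hTS hw4 hu hvc
      (fun q hq hqT => by
        have := c1 q hq hqT
        rw [Nat.cast_zero, zero_mul, add_zero] at this
        exact this)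
      (fun q hqT => by
        have := c2 q hqT
        rw [Nat.cast_zero, zero_mul, zero_add] at this
        exact this) (by rw [← hδe, ← hδf]; exact hem)
    rw [hδf, hδe, g1, g2, Finset.prod_empty, mul_one]
  · -- `√-7` divides `δ`
    rw [pow_one] at hδf
    right
    have h2x : ∀ x : ZMod 2, x + x = 0 := by decide
    have hm1 : em hw4 m = 1 := by
      rw [hmv, map_mul, map_mul]
      rcases hvc with ⟨rfl, rfl⟩ | ⟨rfl, rfl⟩
      · have h1 : em hw4 s7 = -1 := by rw [em_apply]; simp only [s7]; decide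
        have h2 : em hw4 (∏ q ∈ S, q) = 1 := AlgP.em2_prod hS.pp
        rw [h1, h2, map_neg, map_one]
        decide
      · have h1 : em hw4 s7 = 1 := by rw [em_apply]; simp only [s7]; decide
        have h2 : em hw4 (∏ q ∈ S, q) = 1 := by
          have := AlgP.em3_prod hS.pp
          rw [AlgP.sum_t hS] at this
          exact this
        rw [h1, h2, map_one]
        decide
    have huu : em hw4 u * em hw4 u = 1 := by
      rcases hu with rfl | rfl
      · rw [map_one, one_mul]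
      · rw [map_neg, map_one]; decide
    have hc : em hw4 (u * v * ∏ ρ ∈ S \ T, ρ) = 1 := by
      rw [hδf, hδe, map_mul, map_mul] at hem
      rw [hmv, ← Finset.prod_sdiff hTS, map_mul, map_mul, map_mul] at hm1
      rw [map_mul, map_mul]
      calc em hw4 u * em hw4 v * em hw4 (∏ ρ ∈ S \ T, ρ)
          = em hw4 u * em hw4 v * em hw4 (∏ ρ ∈ S \ T, ρ) *
            (em hw4 s7 * (em hw4 u * em hw4 (∏ ρ ∈ T, ρ))) := by rw [hem, mul_one]
        _ = (em hw4 u * em hw4 u) * (em hw4 v * (em hw4 s7 * (em hw4 (∏ ρ ∈ S \ T, ρ) *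
            em hw4 (∏ ρ ∈ T, ρ)))) := by ring
        _ = 1 := by rw [huu, hm1, mul_one]
    have hvv : v * v = 1 := by rcases hvu with rfl | rfl <;> ring
    obtain ⟨g1, g2⟩ := AlgP.lin hrec hS (T := S \ T) Finset.sdiff_subset hw4 huv hvc
      (fun q hq hqT => by
        have hqT' : q ∈ T := by
          by_contra h
          exact hqT (Finset.mem_sdiff.2 ⟨hq, h⟩)
        have := c2 q hqT'
        rw [Nat.cast_one, one_mul, h2x, add_zero] at this
        exact this)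
      (fun q hqT => by
        have h1 := Finset.mem_sdiff.1 hqT
        have := c1 q h1.1 h1.2
        rw [Nat.cast_one, one_mul] at this
        rw [Finset.sdiff_sdiff_eq_self hTS, mul_assoc, hvv, mul_one]
        exact this) hc
    have hTS' : T = S := by
      apply Finset.Subset.antisymm hTS
      rw [← Finset.sdiff_eq_empty_iff_subset]
      exact g1
    have huv' : u = v := by
      calc u = u * v * v := by rw [mul_assoc, hvv, mul_one]
        _ = v := by rw [g2, one_mul]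
    rw [hδf, hδe, hmv, hTS', huv']
    ring

end Pool.Agent.NH57.BK
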