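import Pool.Agent.NH57.BK.Stm

/-!
# Project BK: the characters `κ^j κ'^(1-j)` modulo eight (BK-02)
-/

set_option autoImplicit false
set_option linter.unusedVariables false

namespace Pool.Agent.NH57.BK

open Pool.Agent.R384
open Pool.Agent.Y676.IS (Cu)
open Pool.Agent.Y715.Red Pool.Agent.Y715.Nr Pool.Agent.W237.RK
open Pool.Agent.Y715.Gi (QB KK GK)
open Pool.Agent.Y715.Df (Cmp)

open scoped Classical

namespace C8P

variable {i₀ : QB} (hi : i₀ ^ 2 = i₀ - 2) {κ κ' : GK i₀ →* ℤ_[2]ˣ} {D : OO} {r I : QB}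

/-- the square of a unit of `ℤ_2` is one modulo eight -/
lemma sq_unit (u : ℤ_[2]ˣ) : (8 : ℤ_[2]) ∣ (u : ℤ_[2]) ^ 2 - 1 := by
  have h1 : PadicInt.toZModPow 3 ((u : ℤ_[2]) ^ 2 - 1) = 0 := by
    have hu : IsUnit (PadicInt.toZModPow 3 (u : ℤ_[2])) := u.isUnit.map _
    have h3 : ∀ a : ZMod (2 ^ 3), IsUnit a → a ^ 2 - 1 = 0 := by decide
    rw [map_sub, map_pow, map_one]
    exact h3 _ hu
  have h2 : ((u : ℤ_[2]) ^ 2 - 1) ∈ RingHom.ker (PadicInt.toZModPow (p := 2) 3) := h1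
  rw [PadicInt.ker_toZModPow, Ideal.mem_span_singleton] at h2
  have e : ((2 : ℕ) : ℤ_[2]) ^ 3 = 8 := by norm_num
  rwa [e] at h2

lemma pm8_congr {e : ℤ} {z z' : ℤ_[2]} (h : (8 : ℤ_[2]) ∣ z' - z) (hz : Pm8 e z) : Pm8 e z' := by
  rcases hz with hz | hz
  · left
    have := dvd_add h hz
    have e1 : z' - z + (z - (e : ℤ_[2])) = z' - e := by ring
    rwa [e1] at this
  · right
    have := dvd_add h hz
    have e1 : z' - z + (z + (e : ℤ_[2])) = z' + e := by ring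
    rwa [e1] at this

lemma chi_even (j : ℤ) (hj : Even j) (σ : GK i₀) :
    (8 : ℤ_[2]) ∣ (((κ ^ j * κ' ^ (1 - j) : GK i₀ →* ℤ_[2]ˣ) σ : ℤ_[2]ˣ) : ℤ_[2]) - κ' σ := by
  obtain ⟨k, hk⟩ := hj
  have hap : (κ ^ j * κ' ^ (1 - j) : GK i₀ →* ℤ_[2]ˣ) σ = (κ σ) ^ j * (κ' σ) ^ (1 - j) := rfl
  have e : (κ ^ j * κ' ^ (1 - j) : GK i₀ →* ℤ_[2]ˣ) σ =
      ((κ σ) ^ k * (κ' σ) ^ (-k)) ^ 2 * κ' σ := by
    rw [hap, hk, mul_pow, ← zpow_natCast, ← zpow_natCast, ← zpow_mul, ← zpow_mul]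
    have e1 : k + k = k * ((2 : ℕ) : ℤ) := by push_cast; ring
    have e2 : 1 - (k + k) = -k * ((2 : ℕ) : ℤ) + 1 := by push_cast; ring
    rw [e2, e1, zpow_add (κ' σ), zpow_one, ← mul_assoc]
  rw [e]
  have h8 := sq_unit ((κ σ) ^ k * (κ' σ) ^ (-k))
  have := dvd_mul_of_dvd_left h8 ((κ' σ : ℤ_[2]ˣ) : ℤ_[2])
  have e3 : (((((κ σ) ^ k * (κ' σ) ^ (-k) : ℤ_[2]ˣ) ^ 2 * κ' σ : ℤ_[2]ˣ)) : ℤ_[2]) - κ' σ =
      ((((κ σ) ^ k * (κ' σ) ^ (-k) : ℤ_[2]ˣ) : ℤ_[2]) ^ 2 - 1) * ((κ' σ : ℤ_[2]ˣ) : ℤ_[2]) := by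
    rw [Units.val_mul (_ ^ 2), Units.val_pow_eq_pow_val]
    ring
  rw [e3]
  exact this

lemma chi_odd (j : ℤ) (hj : Odd j) (σ : GK i₀) :
    (8 : ℤ_[2]) ∣ (((κ ^ j * κ' ^ (1 - j) : GK i₀ →* ℤ_[2]ˣ) σ : ℤ_[2]ˣ) : ℤ_[2]) - κ σ := by
  obtain ⟨k, hk⟩ := hj
  have hap : (κ ^ j * κ' ^ (1 - j) : GK i₀ →* ℤ_[2]ˣ) σ = (κ σ) ^ j * (κ' σ) ^ (1 - j) := rfl
  have e : (κ ^ j * κ' ^ (1 - j) : GK i₀ →* ℤ_[2]ˣ) σ =
      ((κ σ) ^ k * (κ' σ) ^ (-k)) ^ 2 * κ σ := by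
    rw [hap, hk, mul_pow, ← zpow_natCast, ← zpow_natCast, ← zpow_mul, ← zpow_mul]
    have e1 : 2 * k + 1 = k * ((2 : ℕ) : ℤ) + 1 := by push_cast; ring
    have e2 : 1 - (2 * k + 1) = -k * ((2 : ℕ) : ℤ) := by push_cast; ring
    rw [e2, e1, zpow_add (κ σ), zpow_one]
    exact mul_right_comm _ _ _
  rw [e]
  have h8 := sq_unit ((κ σ) ^ k * (κ' σ) ^ (-k))
  have := dvd_mul_of_dvd_left h8 ((κ σ : ℤ_[2]ˣ) : ℤ_[2])
  have e3 : (((((κ σ) ^ k * (κ' σ) ^ (-k) : ℤ_[2]ˣ) ^ 2 * κ σ : ℤ_[2]ˣ)) : ℤ_[2]) - κ σ =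
      ((((κ σ) ^ k * (κ' σ) ^ (-k) : ℤ_[2]ˣ) : ℤ_[2]) ^ 2 - 1) * ((κ σ : ℤ_[2]ˣ) : ℤ_[2]) := by
    rw [Units.val_mul (_ ^ 2), Units.val_pow_eq_pow_val]
    ring
  rw [e3]
  exact this

include hi in
/-- the parity of the character, with the square root (copy of `R384.chiD7`) -/
theorem chiD7s (kd : KD hi κ κ' D r I) (j : ℤ) :
    (Even j → ChiD hi (κ ^ j * κ' ^ (1 - j)) D r) ∧
    (Odd j → ChiD hi (κ ^ j * κ' ^ (1 - j)) (-D) (I * r)) := by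
  have hap : ∀ σ, (κ ^ j * κ' ^ (1 - j) : GK i₀ →* ℤ_[2]ˣ) σ = (κ σ) ^ j * (κ' σ) ^ (1 - j) :=
    fun σ => rfl
  have hcont : Continuous (κ ^ j * κ' ^ (1 - j) : GK i₀ →* ℤ_[2]ˣ) := by
    have h1 : Continuous fun σ => (κ σ) ^ j * (κ' σ) ^ (1 - j) :=
      (kd.cont.zpow j).mul (kd.cont'.zpow (1 - j))
    exact h1
  have hinert : ∀ (p : ℕ) [Fact p.Prime] (ι : QB →ₐ[ℚ] PadicAlgCl p) (τ : Au p) (σ : GK i₀),
      p ≠ 2 → Cmp ι τ σ → Inert τ → (σ r = r → (κ ^ j * κ' ^ (1 - j) : GK i₀ →* ℤ_[2]ˣ) σ = 1) ∧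
        (σ r = -r → (κ ^ j * κ' ^ (1 - j) : GK i₀ →* ℤ_[2]ˣ) σ = -1) := by
    intro p _ ι τ σ hp hc hin
    obtain ⟨n1, n2⟩ := norm_w_odd hi hp ι
    have hσI := kd.fixI hi hp hc hin
    have a1 := kd.inert p ι τ σ hc hin n1
    have a2 := kd.inert' p ι τ σ hc hin n2
    rw [hap]
    constructor
    · intro h
      rw [a1.1 (by rw [map_mul, hσI, h]), a2.1 h, one_zpow, one_zpow, one_mul]
    · intro h
      rw [a1.2 (by rw [map_mul, hσI, h, mul_neg]), a2.2 h, ← zpow_add, add_sub_cancel, zpow_one]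
  constructor
  · intro hj
    have hph : ∀ σ, ph ((κ ^ j * κ' ^ (1 - j) : GK i₀ →* ℤ_[2]ˣ) σ) = ph (κ' σ) := by
      obtain ⟨k, hk⟩ := hj
      have hk' : j = 2 * k := by omega
      intro σ
      rw [hap, map_mul, map_zpow, map_zpow, hk', zpow_even (sq_four _), one_mul, zpow_sub,
        zpow_even (sq_four _), zpow_one]
      simp
    refine ⟨hcont, kd.hr, ?_, ?_, hinert⟩
    · intro σ h
      rw [← ph_one, hph]
      exact kd.one' σ h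
    · intro σ h
      rw [← ph_neg, hph]
      exact kd.neg' σ h
  · intro hj
    have hph : ∀ σ, ph ((κ ^ j * κ' ^ (1 - j) : GK i₀ →* ℤ_[2]ˣ) σ) = ph (κ σ) := by
      obtain ⟨k, hk⟩ := hj
      intro σ
      have e : 1 - j = 2 * (-k) := by omega
      rw [hap, map_mul, map_zpow, map_zpow, e, zpow_even (sq_four _), mul_one, hk, zpow_add,
        zpow_even (sq_four _), zpow_one, one_mul]
    refine ⟨hcont, ?_, ?_, ?_, ?_⟩
    · rw [mul_pow, kd.hI, kd.hr, map_neg]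
      ring
    · intro σ h
      rw [← ph_one, hph]
      exact kd.one σ h
    · intro σ h
      rw [← ph_neg, hph]
      exact kd.neg σ h
    · intro p _ ι τ σ hp hc hin
      have hσI := kd.fixI hi hp hc hin
      have hI0 : I ≠ 0 := by
        rintro h0
        have := kd.hI
        rw [h0] at this
        norm_num at this
      obtain ⟨a1, a2⟩ := hinert p ι τ σ hp hc hin
      constructor
      · intro h
        apply a1
        rw [map_mul, hσI] at h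
        exact mul_left_cancel₀ hI0 h
      · intro h
        apply a2
        rw [map_mul, hσI, ← mul_neg] at h
        exact mul_left_cancel₀ hI0 h

lemma em_om : em hi om = i₀ := by
  rw [em_apply]
  simp [om]

end C8P

theorem t_C8 : S_C8 := by
  intro i₀ hi κ κ' D r I kd k8 j
  obtain ⟨h1, h2⟩ := C8P.chiD7s hi kd j
  constructor
  · intro hj
    refine ⟨r, h1 hj, ?_, ?_⟩
    · intro s hs σ hσ
      rw [map_sub, map_one, C8P.em_om] at hs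
      exact C8P.pm8_congr (C8P.chi_even j hj σ) (k8.fix' s hs σ hσ)
    · intro s hs σ hσ
      rw [map_sub, map_one, C8P.em_om] at hs
      exact C8P.pm8_congr (C8P.chi_even j hj σ) (k8.mov' s hs σ hσ)
  · intro hj
    refine ⟨I * r, h2 hj, ?_, ?_⟩
    · intro s hs σ hσ
      rw [C8P.em_om] at hs
      exact C8P.pm8_congr (C8P.chi_odd j hj σ) (k8.fix s hs σ hσ)
    · intro s hs σ hσ
      rw [C8P.em_om] at hs
      exact C8P.pm8_congr (C8P.chi_odd j hj σ) (k8.mov s hs σ hσ)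

end Pool.Agent.NH57.BK
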