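import Pool.Agent.NH57.BK.Stm

/-!
# The obstruction at the free place
-/

set_option autoImplicit false
set_option linter.unusedVariables false

namespace Pool.Agent.NH57.BK

open Pool.Agent.R384
open Pool.Agent.Y715.Red Pool.Agent.Y715.Nr Pool.Agent.W237.RK
open Pool.Agent.Y715.Gi (QB KK GK)
open Pool.Agent.Y715.Df (Cmp exists_cmp)

variable {i₀ : QB} (hi : i₀ ^ 2 = i₀ - 2)

/-- there is an element of the decomposition group that moves `√e` if `e = 5` modulo eight -/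
lemma exists_mov (ι : QB →ₐ[ℚ] PadicAlgCl 2) {e : OO} {u : QB} (hu : u ^ 2 = em hi e)
    (h5 : ‖em (iw hi ι) e - 5‖ ≤ 1 / 8) : ∃ σ ∈ (DD ι : Set (GK i₀)), σ u = -u := by
  by_contra hcon
  push Not at hcon
  have hfix : ∀ τ : Au 2, τ (ι u) = ι u := by
    intro τ
    refine fix_D (fun σ hσ => ?_) τ (two_fix (iw hi ι) τ)
    rcases rt_or hi hu σ with h | h
    · exact h
    · exact absurd h (hcon σ hσ)
  have h1 : (ι u) ^ 2 = em (iw hi ι) e := by rw [← map_pow, hu, ι_em]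
  have h2 : ‖ι u‖ = 1 := by
    have h3 := norm_one_of5 h5
    rw [← h1, norm_pow] at h3
    exact (pow_eq_one_iff_of_nonneg (norm_nonneg _) two_ne_zero).1 h3
  have h3 := sq_mod_eight h2 hfix
  rw [h1] at h3
  have h6 : ‖((5 - 1 : ℤ) : PadicAlgCl 2)‖ ≤ 1 / 8 := by
    have e : ((5 - 1 : ℤ) : PadicAlgCl 2) = (em (iw hi ι) e - 1) - (em (iw hi ι) e - 5) := by
      push_cast
      ring
    rw [e]
    exact sub_le h3 h5
  rw [even_norm (z := 5 - 1) (k := 1) (n := 2) (by norm_num) (by norm_num)] at h6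
  norm_num at h6

include hi in
/-- elements fixed by the stabilizer of `a` and `u` -/
lemma norm_pow_two (hval : S_VAL) (ι : QB →ₐ[ℚ] PadicAlgCl 2) {a u : QB} {e : OO}
    (ha : ∀ σ ∈ (DD ι : Set (GK i₀)), σ a = a) (hu : u ^ 2 = em hi e)
    (h5 : ‖em (iw hi ι) e - 5‖ ≤ 1 / 8) {y : QB} (hy : y ≠ 0)
    (hfix : ∀ σ : GK i₀, σ a = a → σ u = u → σ y = y) : ∃ k : ℤ, ‖ι y‖ = (2 : ℝ) ^ k := by
  have h1 : (ι u) ^ 2 = em (iw hi ι) e := by rw [← map_pow, hu, ι_em]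
  refine hval (ι u) (ι y) (fun τ => ?_) (by rw [h1]; exact h5) ((map_ne_zero ι).2 hy) ?_
  · rw [h1]
    exact em_fix (iw hi ι) (two_fix (iw hi ι) τ) e
  · intro τ hτ
    obtain ⟨σ, hσ⟩ := exists_cmp ι τ (two_fix (iw hi ι) τ)
    have h2 : σ u = u := by
      apply ι.injective
      show ι (σ u) = ι u
      rw [← hσ, hτ]
    rw [hσ, hfix σ (ha σ ⟨τ, hσ⟩) h2]

/-- **BK-7** -/
theorem t_FREA : S_FREA := by
  intro h90 hval i₀ hi ι a u s e N f hN ha hu he hs0 hlc hf hs hrel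
  obtain ⟨φ, hφD, hφu⟩ := exists_mov hi ι hu he
  have hφa : φ a = a := ha φ hφD
  have hne : ∀ σ, f σ ≠ 0 := by
    intro σ h0
    have h1 := hf σ
    rw [h0, zero_pow (by omega)] at h1
    exact zero_ne_one h1
  have hsq : ∀ σ, (f σ ^ N) ^ 2 = 1 := fun σ => by rw [← pow_mul, mul_comm N 2, hf]
  have hu0 : u ≠ 0 := by
    rintro rfl
    rw [zero_pow two_ne_zero] at hu
    rw [← ι_em hi, ← hu, map_zero, zero_sub, norm_neg] at he
    have h2 : ‖((5 : ℤ) : PadicAlgCl 2)‖ = 1 := odd_norm (by norm_num)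
    push_cast at h2
    rw [h2] at he
    norm_num at he
  obtain ⟨β, hβ0, hβ⟩ := h90 a u f hlc hne (fun σ hσa hσu τ hτa hτu => by
    rw [hrel σ hσa τ hτa, if_pos hσu])
  -- signs are fixed
  have hsign : ∀ (σ : GK i₀) (x : QB), x ^ 2 = 1 → σ x = x := by
    intro σ x hx
    rcases sq_eq_one_iff.1 hx with h | h
    · rw [h, map_one]
    · rw [h, map_neg, map_one]
  have hφβ : φ β ≠ 0 := (map_ne_zero φ).2 hβ0
  have hy1 : ∀ t' : GK i₀, t' a = a → t' u = u →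
      t' (β ^ (N + 1) * f φ / φ β) = β ^ (N + 1) * f φ / φ β := by
    intro t' hta htu
    obtain ⟨t, ht⟩ : ∃ t : GK i₀, t = φ⁻¹ * t' * φ := ⟨_, rfl⟩
    have hcm : φ * t = t' * φ := by rw [ht]; group
    have hinv : ∀ x, φ⁻¹ (φ x) = x := by
      intro x
      rw [← AlgEquiv.mul_apply, inv_mul_cancel, AlgEquiv.one_apply]
    have hta' : t a = a := by
      rw [ht, AlgEquiv.mul_apply, AlgEquiv.mul_apply, hφa, hta]
      conv_lhs => rw [← hφa]
      exact hinv a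
    have htu' : t u = u := by
      rw [ht, AlgEquiv.mul_apply, AlgEquiv.mul_apply, hφu, map_neg, htu, ← hφu]
      exact hinv u
    have e1 : f (φ * t) = f φ * φ (f t) * f t ^ N := by
      rw [hrel φ hφa t hta', if_neg]
      rw [hφu]
      intro h
      have h2 : (2 : QB) * u = 0 := by linear_combination -h
      rcases mul_eq_zero.1 h2 with h3 | h3
      · exact two_ne_zero h3
      · exact hu0 h3
    have e2 : f (t' * φ) = f t' * t' (f φ) := by
      rw [hrel t' hta φ hφa, if_pos htu]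
    have e3 : f t' * t' (f φ) = f φ * φ (f t) * f t ^ N := by rw [← e2, ← hcm, e1]
    have e4 : f t ^ N = f t' ^ N := by
      have h1 : (φ * t) s = (t' * φ) s := by rw [hcm]
      rw [AlgEquiv.mul_apply, AlgEquiv.mul_apply, hs t hta', hs φ hφa, map_mul, map_mul,
        hsign φ _ (hsq t), hsign t' _ (hsq φ), hs φ hφa, hs t' hta] at h1
      have h2 : f φ ^ N * s ≠ 0 := mul_ne_zero (pow_ne_zero _ (hne φ)) hs0
      apply mul_right_cancel₀ h2
      rw [h1]
      ring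
    have e5 : t' (φ β) = φ (f t) * φ β := by
      rw [← AlgEquiv.mul_apply, ← hcm, AlgEquiv.mul_apply, hβ t hta' htu', map_mul]
    have hφt : φ (f t) ≠ 0 := (map_ne_zero φ).2 (hne t)
    rw [map_div₀, map_mul, map_pow, hβ t' hta htu, e5, div_eq_div_iff (mul_ne_zero hφt hφβ) hφβ]
    have e6 := hsq t'
    rw [mul_pow, pow_succ (f t')]
    calc f t' ^ N * f t' * β ^ (N + 1) * t' (f φ) * φ β
        = f t' ^ N * β ^ (N + 1) * φ β * (f t' * t' (f φ)) := by ring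
      _ = f t' ^ N * β ^ (N + 1) * φ β * (f φ * φ (f t) * f t' ^ N) := by rw [e3, e4]
      _ = (f t' ^ N) ^ 2 * (β ^ (N + 1) * f φ * (φ (f t) * φ β)) := by ring
      _ = β ^ (N + 1) * f φ * (φ (f t) * φ β) := by rw [e6, one_mul]
  have hy2 : ∀ t' : GK i₀, t' a = a → t' u = u → t' (s / β ^ N) = s / β ^ N := by
    intro t' hta htu
    rw [map_div₀, map_pow, hs t' hta, hβ t' hta htu, mul_pow,
      mul_div_mul_left _ _ (pow_ne_zero _ (hne t'))]
  obtain ⟨k1, hk1⟩ := norm_pow_two hi hval ι ha hu he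
    (div_ne_zero (mul_ne_zero (pow_ne_zero _ hβ0) (hne φ)) hφβ) hy1
  obtain ⟨k2, hk2⟩ := norm_pow_two hi hval ι ha hu he (div_ne_zero hs0 (pow_ne_zero _ hβ0)) hy2
  have hn1 : ‖ι (φ β)‖ = ‖ι β‖ := by
    obtain ⟨τ, hτ⟩ := hφD
    rw [← hτ, nrm]
  have hn2 : ‖ι (f φ)‖ = 1 := by
    have h1 : ‖ι (f φ)‖ ^ (2 * N) = 1 := by
      rw [← norm_pow, ← map_pow, hf, map_one, norm_one]
    exact (pow_eq_one_iff_of_nonneg (norm_nonneg _) (by omega)).1 h1
  have hb0 : ‖ι β‖ ≠ 0 := norm_ne_zero_iff.2 ((map_ne_zero ι).2 hβ0)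
  rw [map_div₀, map_mul, map_pow, norm_div, norm_mul, norm_pow, hn1, hn2, mul_one, pow_succ,
    mul_div_cancel_right₀ _ hb0] at hk1
  rw [map_div₀, map_pow, norm_div, norm_pow, hk1, div_eq_iff (by positivity),
    ← zpow_add₀ (by norm_num)] at hk2
  exact ⟨_, hk2⟩

end Pool.Agent.NH57.BK
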