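import Pool.Agent.NH57.BK.Stm

/-!
# BK-08: the local condition at the free place from the obstruction
-/

set_option autoImplicit false
set_option linter.unusedVariables false
set_option linter.unusedSectionVars false

namespace Pool.Agent.NH57.BK

open Pool.Agent.R384
open Pool.Agent.Y715.Red Pool.Agent.Y715.Nr Pool.Agent.W237.RK
open Pool.Agent.Y715.Gi (QB KK GK)
open Pool.Agent.Y715.Df (Cmp)

open scoped Classical

/-! ### Reduction modulo eight -/

/-- the integers modulo eight -/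
abbrev Z8 : Type := ZMod (2 ^ 3)

/-- reduction modulo eight -/
noncomputable def q8 : ℤ_[2] →+* Z8 := PadicInt.toZModPow 3

lemma q8_zero (z : ℤ_[2]) : (8 : ℤ_[2]) ∣ z ↔ q8 z = 0 := by
  have h1 : q8 z = 0 ↔ z ∈ RingHom.ker (PadicInt.toZModPow (p := 2) 3) := Iff.rfl
  rw [h1, PadicInt.ker_toZModPow, Ideal.mem_span_singleton]
  have e : ((2 : ℕ) : ℤ_[2]) ^ 3 = 8 := by norm_num
  rw [e]

lemma q8_two (z : ℤ_[2]) : (2 : ℤ_[2]) ∣ z ↔ (q8 z).val % 2 = 0 := by
  constructor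
  · rintro ⟨t, rfl⟩
    rw [map_mul, map_ofNat]
    generalize q8 t = a
    revert a
    decide
  · intro h
    obtain ⟨a, ha⟩ : ∃ a : Z8, q8 z = 2 * a := by
      generalize q8 z = b at h
      revert b
      decide
    have h1 : q8 (z - 2 * ((a.val : ℕ) : ℤ_[2])) = 0 := by
      rw [map_sub, map_mul, map_ofNat, map_natCast, ZMod.natCast_val, ZMod.cast_id, ha, sub_self]
    rw [← q8_zero] at h1
    obtain ⟨t, ht⟩ := h1
    exact ⟨4 * t + ((a.val : ℕ) : ℤ_[2]), by linear_combination ht⟩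

/-- the integer -/
noncomputable def zi (x : ℚ_[2]) (h : ‖x‖ ≤ 1) : ℤ_[2] := ⟨x, h⟩

lemma zi_coe (x : ℚ_[2]) (h : ‖x‖ ≤ 1) : ((zi x h : ℤ_[2]) : ℚ_[2]) = x := rfl

lemma zi_norm (x : ℚ_[2]) (h : ‖x‖ ≤ 1) : ‖zi x h‖ = ‖x‖ := rfl

/-- powers with exponents modulo eight -/
def pw {M : Type} [Monoid M] (ζ : M) (a : Z8) : M := ζ ^ a.val

lemma pw_add {M : Type} [Monoid M] {ζ : M} (h : ζ ^ 8 = 1) (a b : Z8) :
    pw ζ (a + b) = pw ζ a * pw ζ b := by
  unfold pw
  rw [ZMod.val_add, ← pow_add]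
  exact (pow_eq_pow_mod _ h).symm

lemma pw_mul {M : Type} [Monoid M] {ζ : M} (h : ζ ^ 8 = 1) (a b : Z8) :
    pw ζ (a * b) = pw (pw ζ a) b := by
  unfold pw
  rw [ZMod.val_mul, ← pow_mul]
  exact (pow_eq_pow_mod _ h).symm

section

variable {i₀ : QB} (hi : i₀ ^ 2 = i₀ - 2) {χ : GK i₀ →* ℤ_[2]ˣ} {c : GK i₀ → ℚ_[2]} {m : OO} {r : QB}

lemma loc_const (hc : Coc χ c) (hc1 : ∀ σ, ‖c σ‖ ≤ 1) :
    IsLocallyConstant fun σ => q8 (zi (c σ) (hc1 σ)) := by
  rw [IsLocallyConstant.iff_exists_open]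
  intro σ
  refine ⟨{τ | ‖c τ - c σ‖ < 1 / 8}, ?_, by simp, fun τ hτ => ?_⟩
  · exact isOpen_lt (by have := hc.cont; fun_prop) continuous_const
  · have hτ' : ‖c τ - c σ‖ < 1 / 8 := hτ
    have h1 : q8 (zi (c τ) (hc1 τ) - zi (c σ) (hc1 σ)) = 0 := by
      rw [← q8_zero]
      have h2 := PadicInt.norm_le_pow_iff_mem_span_pow (zi (c τ) (hc1 τ) - zi (c σ) (hc1 σ)) 3
      rw [Ideal.mem_span_singleton] at h2
      have e : ((2 : ℕ) : ℤ_[2]) ^ 3 = 8 := by norm_num
      rw [e] at h2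
      refine h2.1 ?_
      have h3 : ‖zi (c τ) (hc1 τ) - zi (c σ) (hc1 σ)‖ = ‖c τ - c σ‖ := rfl
      rw [h3]
      refine hτ'.le.trans (le_of_eq ?_)
      norm_num
    rw [map_sub, sub_eq_zero] at h1
    exact h1

lemma md_q8 (hc1 : ∀ σ, ‖c σ‖ ≤ 1) (σ : GK i₀) : md c σ = 0 ↔ (q8 (zi (c σ) (hc1 σ))).val % 2 = 0 := by
  rw [← q8_two, md_zero]
  have h1 := PadicInt.norm_lt_one_iff_dvd (p := 2) (zi (c σ) (hc1 σ))
  have h2 : ((2 : ℕ) : ℤ_[2]) = 2 := by norm_num
  rw [h2] at h1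
  exact h1

/-- application of the obstruction -/
lemma gen (hfre : Fre) (hc : Coc χ c) (hc1 : ∀ σ, ‖c σ‖ ≤ 1) (ι : QB →ₐ[ℚ] PadicAlgCl 2) {a u : QB}
    {e δ : OO} {N : ℕ} (hN : 1 ≤ N) {ζ : QB} (h8 : ζ ^ 8 = 1) (hζ : ζ ^ N = -1)
    (ha : ∀ σ ∈ (DD ι : Set (GK i₀)), σ a = a) (hu : u ^ 2 = em hi e)
    (he : ‖em (iw hi ι) e - 5‖ ≤ 1 / 8) {s : QB} (hs0 : s ≠ 0) (hs : s ^ 2 = em hi δ)
    (hk : ∀ σ : GK i₀, σ s = s ↔ md c σ = 0)
    (hrel : ∀ σ : GK i₀, σ a = a → pw ζ (q8 (χ σ)) = if σ u = u then σ ζ else σ ζ * ζ ^ N) :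
    ∃ k : ℤ, ‖ι s‖ = (2 : ℝ) ^ k := by
  refine hfre hi ι a u s e N (fun σ => pw ζ (q8 (zi (c σ) (hc1 σ)))) hN ha hu he hs0 ?_ ?_ ?_ ?_
  · exact (loc_const hc hc1).comp (pw ζ)
  · intro σ
    show (ζ ^ _) ^ (2 * N) = 1
    rw [← pow_mul, mul_comm, mul_comm 2 N, pow_mul, pow_mul, hζ]
    norm_num
  · intro σ _
    show σ s = (ζ ^ _) ^ N * s
    rw [← pow_mul, mul_comm _ N, pow_mul, hζ]
    have h1 := md_q8 hc1 σ
    rw [← hk σ] at h1
    rcases Nat.mod_two_eq_zero_or_one (q8 (zi (c σ) (hc1 σ))).val with h2 | h2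
    · rw [h1.2 h2, (Nat.even_iff.2 h2).neg_one_pow, one_mul]
    · rw [(Nat.odd_iff.2 h2).neg_one_pow, neg_one_mul]
      rcases rt_or hi hs σ with h3 | h3
      · exact absurd (h1.1 h3) (by omega)
      · exact h3
  · intro σ hσ τ _
    have h1 : zi (c (σ * τ)) (hc1 (σ * τ)) = zi (c σ) (hc1 σ) +
        (χ σ : ℤ_[2]) * zi (c τ) (hc1 τ) := by
      apply Subtype.ext
      show c (σ * τ) = c σ + ((χ σ : ℤ_[2]) : ℚ_[2]) * c τ
      exact hc.mul σ τ
    have h2 := hrel σ hσ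
    show pw ζ (q8 (zi (c (σ * τ)) (hc1 (σ * τ)))) = if σ u = u then
      pw ζ (q8 (zi (c σ) (hc1 σ))) * σ (pw ζ (q8 (zi (c τ) (hc1 τ)))) else
      pw ζ (q8 (zi (c σ) (hc1 σ))) * σ (pw ζ (q8 (zi (c τ) (hc1 τ)))) * (pw ζ (q8 (zi (c τ) (hc1 τ)))) ^ N
    rw [h1, map_add, map_mul, pw_add h8, pw_mul h8, h2]
    split_ifs with h3
    · congr 1
      exact (map_pow σ ζ _).symm
    · rw [mul_assoc]
      congr 1
      show (σ ζ * ζ ^ N) ^ _ = σ (ζ ^ _) * (ζ ^ _) ^ N
      rw [mul_pow, map_pow, ← pow_mul, ← pow_mul, mul_comm N]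

/-- the values modulo eight from those modulo four -/
lemma q8_four {z : ℤ_[2]} {e : ℤ} (h : (4 : ℤ_[2]) ∣ z - e) :
    q8 z = (e : Z8) ∨ q8 z = (e : Z8) + 4 := by
  obtain ⟨t, ht⟩ := h
  have h1 : q8 z = (e : Z8) + 4 * q8 t := by
    have e1 : z = e + 4 * t := by linear_combination ht
    rw [e1, map_add, map_mul, map_intCast, map_ofNat]
  rw [h1]
  generalize q8 t = a
  generalize (e : Z8) = b
  revert a b
  decide

lemma q8_pm {z : ℤ_[2]} {e : ℤ} (h : Pm8 e z) : q8 z = (e : Z8) ∨ q8 z = -(e : Z8) := by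
  rcases h with h | h
  · left
    rw [q8_zero, map_sub, map_intCast, sub_eq_zero] at h
    exact h
  · right
    rw [q8_zero, map_add, map_intCast] at h
    exact eq_neg_of_add_eq_zero_left h

lemma neg_ne {x : QB} (h : x ≠ 0) : -x ≠ x := by
  intro h1
  have h2 : 2 * x = 0 := by linear_combination -h1
  exact h ((mul_eq_zero.1 h2).resolve_left two_ne_zero)

/-- the values of the character at `ζ_4` -/
lemma rel_four (hχ : ChiD hi χ m r) {I : QB} (hI : I ^ 2 = -1) (hr0 : r ≠ 0) (σ : GK i₀) :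
    pw I (q8 (χ σ)) = if σ (I * r) = I * r then σ I else σ I * I ^ 2 := by
  have hI0 : I ≠ 0 := by
    rintro rfl
    norm_num at hI
  have hI4 : I ^ 4 = 1 := by
    have : I ^ 4 = (I ^ 2) ^ 2 := by ring
    rw [this, hI]; ring
  have hσI : σ I = I ∨ σ I = -I := by
    have h : (σ I) ^ 2 = I ^ 2 := by rw [← map_pow, hI, map_neg, map_one]
    exact sq_eq_sq_iff_eq_or_eq_neg.1 h
  have hu0 : I * r ≠ 0 := mul_ne_zero hI0 hr0
  have p1 : pw I (1 : Z8) = I := by
    have : (1 : Z8).val = 1 := by decide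
    rw [pw, this, pow_one]
  have p5 : pw I (1 + 4 : Z8) = I := by
    have : (1 + 4 : Z8).val = 4 + 1 := by decide
    rw [pw, this, pow_add, hI4, one_mul, pow_one]
  have p3 : pw I (-1 : Z8) = -I := by
    have : (-1 : Z8).val = 4 + 2 + 1 := by decide
    rw [pw, this, pow_add, pow_add, hI4, hI]
    ring
  have p7 : pw I (-1 + 4 : Z8) = -I := by
    have : (-1 + 4 : Z8).val = 2 + 1 := by decide
    rw [pw, this, pow_add, hI]
    ring
  rcases rt_or hi hχ.hr σ with h1 | h1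
  · have h2 : pw I (q8 (χ σ)) = I := by
      have h3 := hχ.one σ h1
      have h4 := q8_four (e := 1) (by push_cast; exact h3)
      push_cast at h4
      rcases h4 with h4 | h4
      · rw [h4, p1]
      · rw [h4, p5]
    rw [h2, map_mul, h1]
    rcases hσI with h3 | h3
    · rw [h3, if_pos rfl]
    · rw [h3, neg_mul, if_neg (neg_ne hu0), hI]
      ring
  · have h2 : pw I (q8 (χ σ)) = -I := by
      have h3 := hχ.neg σ h1
      have h4 := q8_four (e := -1) (z := χ σ) (by push_cast; rwa [sub_neg_eq_add])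
      push_cast at h4
      rcases h4 with h4 | h4
      · rw [h4, p3]
      · rw [h4, p7]
    rw [h2, map_mul, h1]
    rcases hσI with h3 | h3
    · rw [h3, mul_neg, if_neg (neg_ne hu0), hI]
      ring
    · rw [h3, neg_mul_neg, if_pos rfl]

/-- the values of the character at `ζ_8` -/
lemma rel_eight {m ϖ' : OO} {r : QB} (hχ : C8 hi χ m r ϖ') {I t u : QB} (hI : I ^ 2 = -1)
    (hr0 : r ≠ 0) (ht : t ^ 2 = -em hi ϖ') {ϖ : OO} (hu : u ^ 2 = -em hi ϖ) (hϖ : ϖ * ϖ' = 2)
    (σ : GK i₀) (hσ : σ (I * r) = I * r) :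
    pw ((1 + I) / (u * t)) (q8 (χ σ)) = if σ u = u then σ ((1 + I) / (u * t)) else
      σ ((1 + I) / (u * t)) * ((1 + I) / (u * t)) ^ 4 := by
  have hut2 : (u * t) ^ 2 = 2 := by
    rw [mul_pow, ht, hu, neg_mul_neg, ← map_mul, hϖ, map_ofNat]
  have hut : u * t ≠ 0 := by
    intro h0
    rw [h0] at hut2
    norm_num at hut2
  have hu0 : u ≠ 0 := fun h => hut (by rw [h, zero_mul])
  have ht0 : t ≠ 0 := fun h => hut (by rw [h, mul_zero])
  have hI0 : I ≠ 0 := by
    rintro rfl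
    norm_num at hI
  set ζ := (1 + I) / (u * t) with hζ
  have z2 : ζ ^ 2 = I := by
    rw [hζ, div_pow, hut2]
    have : (1 + I) ^ 2 = I * 2 := by linear_combination hI
    rw [this, mul_div_cancel_right₀ _ two_ne_zero]
  have z4 : ζ ^ 4 = -1 := by
    have : ζ ^ 4 = (ζ ^ 2) ^ 2 := by ring
    rw [this, z2, hI]
  have p1 : pw ζ (1 : Z8) = ζ := by
    have : (1 : Z8).val = 1 := by decide
    rw [pw, this, pow_one]
  have p5 : pw ζ (5 : Z8) = -ζ := by
    have : (5 : Z8).val = 4 + 1 := by decide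
    rw [pw, this, pow_add, z4, pow_one, neg_one_mul]
  have p3 : pw ζ (3 : Z8) = I * ζ := by
    have : (3 : Z8).val = 2 + 1 := by decide
    rw [pw, this, pow_add, z2, pow_one]
  have p7 : pw ζ (7 : Z8) = -(I * ζ) := by
    have : (7 : Z8).val = 4 + (2 + 1) := by decide
    rw [pw, this, pow_add, pow_add, z4, z2, pow_one, neg_one_mul]
  have hσu : σ u = u ∨ σ u = -u := by
    have h : (σ u) ^ 2 = u ^ 2 := by rw [← map_pow, hu, map_neg, gk_em]
    exact sq_eq_sq_iff_eq_or_eq_neg.1 h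
  have hσt : σ t = t ∨ σ t = -t := by
    have h : (σ t) ^ 2 = t ^ 2 := by rw [← map_pow, ht, map_neg, gk_em]
    exact sq_eq_sq_iff_eq_or_eq_neg.1 h
  have hinv : (1 - I) = -I * (1 + I) := by linear_combination hI
  rcases rt_or hi hχ.cd.hr σ with h1 | h1
  · -- `σ I = I`
    have hσI : σ I = I := by
      rw [map_mul, h1] at hσ
      exact mul_right_cancel₀ hr0 hσ
    have h4 := q8_four (e := 1) (z := χ σ) (by push_cast; exact hχ.cd.one σ h1)
    rcases hσt with h2 | h2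
    · have h5 : q8 (χ σ) = 1 := by
        have h6 := q8_pm (hχ.fix t ht σ h2)
        revert h4 h6
        generalize q8 (χ σ) = x
        push_cast
        revert x
        decide
      rw [h5, p1]
      rcases hσu with h3 | h3
      · rw [if_pos h3, hζ, map_div₀, map_add, map_one, map_mul, h3, h2, hσI]
      · rw [h3, if_neg (neg_ne hu0), z4, hζ, map_div₀, map_add, map_one, map_mul, h3, h2, hσI,
          neg_mul, div_neg]
        ring
    · have h5 : q8 (χ σ) = 5 := by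
        have h6 := q8_pm (hχ.mov t ht σ h2)
        revert h4 h6
        generalize q8 (χ σ) = x
        push_cast
        revert x
        decide
      rw [h5, p5]
      rcases hσu with h3 | h3
      · rw [if_pos h3, hζ, map_div₀, map_add, map_one, map_mul, h3, h2, hσI, mul_neg, div_neg]
      · rw [h3, if_neg (neg_ne hu0), z4, hζ, map_div₀, map_add, map_one, map_mul, h3, h2, hσI,
          neg_mul_neg]
        ring
  · have hσI : σ I = -I := by
      rw [map_mul, h1] at hσ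
      apply mul_right_cancel₀ hr0
      linear_combination -hσ
    have h4 := q8_four (e := -1) (z := χ σ) (by push_cast; rw [sub_neg_eq_add]; exact hχ.cd.neg σ h1)
    have e1 : ∀ x : QB, (1 + -I) / x = -I * ((1 + I) / x) := by
      intro x
      rw [← mul_div_assoc, ← hinv]
      ring
    rcases hσt with h2 | h2
    · have h5 : q8 (χ σ) = 7 := by
        have h6 := q8_pm (hχ.fix t ht σ h2)
        revert h4 h6
        generalize q8 (χ σ) = x
        push_cast
        revert x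
        decide
      rw [h5, p7]
      rcases hσu with h3 | h3
      · rw [if_pos h3, hζ, map_div₀, map_add, map_one, map_mul, h3, h2, hσI, e1]
        ring
      · rw [h3, if_neg (neg_ne hu0), z4, hζ, map_div₀, map_add, map_one, map_mul, h3, h2, hσI,
          neg_mul, div_neg, e1]
        ring
    · have h5 : q8 (χ σ) = 3 := by
        have h6 := q8_pm (hχ.mov t ht σ h2)
        revert h4 h6
        generalize q8 (χ σ) = x
        push_cast
        revert x
        decide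
      rw [h5, p3]
      rcases hσu with h3 | h3
      · rw [if_pos h3, hζ, map_div₀, map_add, map_one, map_mul, h3, h2, hσI, mul_neg, div_neg, e1]
        ring
      · rw [h3, if_neg (neg_ne hu0), z4, hζ, map_div₀, map_add, map_one, map_mul, h3, h2, hσI,
          neg_mul_neg, e1]
        ring

end

/-- the square roots of the elements that are `1` modulo eight -/
lemma fix_eight {t x : PadicAlgCl 2} (ht : t ^ 2 = x) (hx : ‖x - 1‖ ≤ 1 / 8) {τ : Au 2}
    (hτ : τ x = x) : τ t = t := by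
  have h3 : (τ t) ^ 2 = t ^ 2 := by rw [← map_pow, ht, hτ]
  rcases sq_eq_sq_iff_eq_or_eq_neg.1 h3 with h4 | h4
  · exact h4
  · exfalso
    have h5 : ‖t - 1‖ = ‖t + 1‖ := by
      rw [← nrm τ (t - 1), map_sub, map_one, h4]
      have : -t - 1 = -(t + 1) := by ring
      rw [this, norm_neg]
    have h6 : ‖t - 1‖ * ‖t + 1‖ ≤ 1 / 8 := by
      rw [← norm_mul]
      have : (t - 1) * (t + 1) = x - 1 := by rw [← ht]; ring
      rwa [this]
    have h7 : ‖(2 : PadicAlgCl 2)‖ ≤ ‖t + 1‖ := by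
      have : (2 : PadicAlgCl 2) = (t + 1) - (t - 1) := by ring
      rw [this]
      exact sub_le le_rfl h5.le
    rw [Pool.Agent.Y715.Gi.norm_two'] at h7
    rw [h5] at h6
    nlinarith

theorem t_FREB : S_FREB := by
  intro hfre i₀ hi χ m r ϖ ϖ' hpl h8 ι hι hM c hc hc1 δ s hδ hs hk
  obtain ⟨I, hI⟩ : ∃ I : QB, I ^ 2 = -1 := IsAlgClosed.exists_pow_nat_eq _ (by norm_num)
  have hδ0 : δ ≠ 0 := hδ.ne_zero
  have hs0 : s ≠ 0 := by
    intro h0
    rw [h0] at hs
    apply hδ0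
    apply Pool.Agent.R384.em_inj (iw hi ι)
    rw [← ι_em hi, ← hs]
    simp
  have hϖp : Prime ϖ' := by
    rcases hpl with ⟨rfl, rfl⟩ | ⟨rfl, rfl⟩
    · exact prime_om'
    · exact prime_om
  have hϖ2 : ϖ * ϖ' = 2 := by
    rcases hpl with ⟨rfl, rfl⟩ | ⟨rfl, rfl⟩
    · exact om_mul
    · rw [mul_comm]; exact om_mul
  have hr0 : r ≠ 0 := by
    intro h0
    have h1 := h8.cd.hr
    rw [h0] at h1
    have h2 : em (iw hi ι) (-m) = 0 := by
      rw [← ι_em hi, map_neg, ← h1]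
      simp
    rcases hM with h3 | h3
    · rw [h2, zero_sub, norm_neg, norm_one] at h3
      norm_num at h3
    · rw [h2, zero_sub, norm_neg] at h3
      have h4 : ‖((5 : ℤ) : PadicAlgCl 2)‖ = 1 := odd_norm (by norm_num)
      push_cast at h4
      rw [h4] at h3
      norm_num at h3
  have hIr : (I * r) ^ 2 = em hi (-m) := by
    rw [mul_pow, hI, h8.cd.hr, map_neg]
    ring
  have key : ∃ k : ℤ, ‖ι s‖ = (2 : ℝ) ^ k := by
    rcases hM with hM | hM
    · -- `-m` is `1` modulo `8`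
      obtain ⟨u, hu⟩ : ∃ u : QB, u ^ 2 = -em hi ϖ := IsAlgClosed.exists_pow_nat_eq _ (by norm_num)
      obtain ⟨t, ht⟩ : ∃ t : QB, t ^ 2 = -em hi ϖ' := IsAlgClosed.exists_pow_nat_eq _ (by norm_num)
      have hut2 : (u * t) ^ 2 = 2 := by
        rw [mul_pow, ht, hu, neg_mul_neg, ← map_mul, hϖ2, map_ofNat]
      have z2 : ((1 + I) / (u * t)) ^ 2 = I := by
        rw [div_pow, hut2]
        have : (1 + I) ^ 2 = I * 2 := by linear_combination hI
        rw [this, mul_div_cancel_right₀ _ two_ne_zero]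
      have z4 : ((1 + I) / (u * t)) ^ 4 = -1 := by
        have : ((1 + I) / (u * t)) ^ 4 = (((1 + I) / (u * t)) ^ 2) ^ 2 := by ring
        rw [this, z2, hI]
      refine gen hi hfre hc hc1 ι (a := I * r) (u := u) (e := -ϖ) (N := 4) (by norm_num)
        (ζ := (1 + I) / (u * t)) ?_ z4 ?_ (by rw [hu, map_neg]) ?_ hs0 hs hk
        (fun σ hσ => rel_eight hi h8 hI hr0 ht hu hϖ2 σ hσ)
      · have : ((1 + I) / (u * t)) ^ 8 = (((1 + I) / (u * t)) ^ 4) ^ 2 := by ring
        rw [this, z4]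
        norm_num
      · rintro σ ⟨τ, hτ⟩
        apply ι.injective
        show ι (σ (I * r)) = ι (I * r)
        rw [← hτ]
        refine fix_eight (x := em (iw hi ι) (-m)) ?_ hM (em_fix (iw hi ι) hτ.fix _)
        rw [← map_pow, hIr, ι_em]
      · have hw := iw hi ι
        have hom : em (iw hi ι) om = ι i₀ := by
          rw [em_apply]
          simp [om]
        have h32 : ‖(32 : PadicAlgCl 2)‖ = 1 / 32 := by
          have e : (32 : PadicAlgCl 2) = 2 ^ 5 := by norm_num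
          rw [e, norm_pow, Pool.Agent.Y715.Gi.norm_two']
          norm_num
        have h5n : ‖(5 : PadicAlgCl 2)‖ = 1 := by
          have h4 : ‖((5 : ℤ) : PadicAlgCl 2)‖ = 1 := odd_norm (by norm_num)
          push_cast at h4
          exact h4
        have h6 : ‖ι i₀ - 6‖ * ‖ι i₀ + 5‖ = 1 / 32 := by
          rw [← norm_mul]
          have : (ι i₀ - 6) * (ι i₀ + 5) = -32 := by linear_combination hw
          rw [this, norm_neg, h32]
        have h5' : ∀ x : PadicAlgCl 2, ‖x‖ < 1 → ‖x + 5‖ = 1 := by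
          intro x hx
          rw [add_comm, ← h5n]
          exact eq_of_lt (by rw [h5n]; exact hx)
        rcases hpl with ⟨rfl, rfl⟩ | ⟨rfl, rfl⟩
        · -- `ϖ = om`
          rw [map_sub, map_one, hom] at hι
          have h7 : ‖ι i₀ - 6‖ = 1 := by
            have := h5' _ hι
            rw [← norm_neg, ← this]
            congr 1
            ring
          rw [h7, one_mul] at h6
          rw [map_neg, hom]
          have e : -ι i₀ - 5 = -(ι i₀ + 5) := by ring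
          rw [e, norm_neg, h6]
          norm_num
        · rw [hom] at hι
          rw [h5' _ hι, mul_one] at h6
          rw [map_neg, map_sub, map_one, hom]
          have e : -(1 - ι i₀) - 5 = ι i₀ - 6 := by ring
          rw [e, h6]
          norm_num
    · refine gen hi hfre hc hc1 ι (a := 0) (u := I * r) (e := -m) (N := 2) (by norm_num)
        (ζ := I) ?_ hI (fun σ _ => map_zero σ) hIr hM hs0 hs hk
        (fun σ _ => rel_four hi h8.cd hI hr0 σ)
      have : I ^ 8 = (I ^ 2) ^ 4 := by ring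
      rw [this, hI]
      norm_num
  obtain ⟨k, hk2⟩ := key
  rintro ⟨t, rfl⟩
  have h4 : ¬ ϖ' ∣ t := by
    rintro ⟨v, rfl⟩
    exact hϖp.not_isUnit (hδ ϖ' ⟨v, by ring⟩)
  have h5 := eq_one_of_not_lt (iw hi ι) ((dvd_iff (iw hi ι) hϖp hι t).not.1 h4)
  have hhalf : ‖em (iw hi ι) ϖ'‖ = 1 / 2 := by
    apply half_norm _ hι
    rw [← map_one (em (iw hi ι)), ← map_sub, ← map_mul]
    have e : ϖ' * (1 - ϖ') = 2 := by
      rcases hpl with ⟨rfl, rfl⟩ | ⟨rfl, rfl⟩
      · rw [← om_mul]; ring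
      · rw [← om_mul]
    rw [e, map_ofNat]
  have h6 : ‖ι s‖ ^ 2 = 1 / 2 := by
    rw [← norm_pow, ← map_pow, hs, ι_em, map_mul, norm_mul, h5, hhalf, mul_one]
  rw [hk2, ← zpow_natCast, ← zpow_mul] at h6
  have h7 : (2 : ℝ) ^ (k * ((2 : ℕ) : ℤ)) = 2 ^ (-1 : ℤ) := by rw [h6]; norm_num
  have h9 := zpow_right_injective₀ (a := (2 : ℝ)) (by norm_num) (by norm_num) h7
  push_cast at h9
  omega

end Pool.Agent.NH57.BK
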