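import Pool.Agent.NH57.BK.Stm

/-!
# BK-5: Hilbert's theorem 90 for a locally constant cocycle on the stabilizer of two elements
-/

set_option autoImplicit false

namespace Pool.Agent.NH57.BK

open scoped Topology

theorem h90_gen {K L : Type*} [Field K] [Field L] [Algebra K L] (H : Subgroup (L ≃ₐ[K] L))
    (f : (L ≃ₐ[K] L) → L) (hf : ∀ᶠ σ in 𝓝 (1 : L ≃ₐ[K] L), f σ = 1) (h0 : ∀ σ, f σ ≠ 0)
    (hc : ∀ σ ∈ H, ∀ τ ∈ H, f (σ * τ) = f σ * σ (f τ)) :
    ∃ β : L, β ≠ 0 ∧ ∀ σ ∈ H, σ β = f σ * β := by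
  classical
  obtain ⟨N, hN, hs⟩ := (krullTopology_mem_nhds_one_iff K L _).1 hf
  have : Finite (N →ₐ[K] L) := inferInstance
  let _ : Fintype (N →ₐ[K] L) := Fintype.ofFinite _
  let res : (L ≃ₐ[K] L) → (N →ₐ[K] L) := fun σ => (σ : L →ₐ[K] L).comp N.val
  have hres : ∀ (σ : L ≃ₐ[K] L) (x : N), res σ x = σ x := fun σ x => rfl
  -- `f` depends only on the restriction
  have hw : ∀ σ ∈ H, ∀ τ ∈ H, res σ = res τ → f σ = f τ := by
    intro σ hσ τ hτ h
    have h1 : σ⁻¹ * τ ∈ N.fixingSubgroup := by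
      rw [IntermediateField.mem_fixingSubgroup_iff]
      intro x hx
      have h2 : res σ ⟨x, hx⟩ = res τ ⟨x, hx⟩ := by rw [h]
      rw [hres, hres] at h2
      change σ⁻¹ (τ x) = x
      have h3 : τ x = σ x := h2.symm
      rw [h3]
      exact σ.symm_apply_apply x
    have h4 : f (σ⁻¹ * τ) = 1 := hs h1
    have h5 := hc σ hσ (σ⁻¹ * τ) (H.mul_mem (H.inv_mem hσ) hτ)
    rw [h4, map_one, mul_one, mul_inv_cancel_left] at h5
    exact h5.symm
  let c : (N →ₐ[K] L) → L := fun φ =>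
    if h : ∃ σ ∈ H, res σ = φ then f h.choose else 0
  have hcr : ∀ σ ∈ H, c (res σ) = f σ := by
    intro σ hσ
    have h : ∃ τ ∈ H, res τ = res σ := ⟨σ, hσ, rfl⟩
    have h1 : c (res σ) = f h.choose := dif_pos h
    rw [h1]
    exact hw _ h.choose_spec.1 _ hσ h.choose_spec.2
  have hc0 : ∀ φ, (¬ ∃ σ ∈ H, res σ = φ) → c φ = 0 := fun φ h => dif_neg h
  have hli := Fintype.linearIndependent_iff.1 (linearIndependent_toLinearMap K N L) c
  have hex : ∃ θ : N, ∑ φ, c φ * φ θ ≠ 0 := by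
    by_contra hcon
    push Not at hcon
    have h1 := hli (by
      ext θ
      rw [LinearMap.sum_apply, LinearMap.zero_apply, ← hcon θ]
      rfl) (res 1)
    rw [hcr 1 H.one_mem] at h1
    exact h0 1 h1
  obtain ⟨θ, hθ⟩ := hex
  refine ⟨(∑ φ, c φ * φ θ)⁻¹, inv_ne_zero hθ, ?_⟩
  intro σ hσ
  have key : f σ * σ (∑ φ, c φ * φ θ) = ∑ φ, c φ * φ θ := by
    let e : (N →ₐ[K] L) ≃ (N →ₐ[K] L) :=
      { toFun := fun φ => (σ : L →ₐ[K] L).comp φ
        invFun := fun φ => ((σ⁻¹ : L ≃ₐ[K] L) : L →ₐ[K] L).comp φ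
        left_inv := fun φ => by
          ext x
          exact σ.symm_apply_apply _
        right_inv := fun φ => by
          ext x
          exact σ.apply_symm_apply _ }
    have he : ∀ φ x, e φ x = σ (φ x) := fun φ x => rfl
    have hce : ∀ φ, c (e φ) = f σ * σ (c φ) := by
      intro φ
      by_cases h : ∃ τ ∈ H, res τ = φ
      · obtain ⟨τ, hτ, rfl⟩ := h
        have h1 : e (res τ) = res (σ * τ) := by
          ext x
          rfl
        rw [h1, hcr _ (H.mul_mem hσ hτ), hcr _ hτ, hc σ hσ τ hτ]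
      · rw [hc0 φ h, map_zero, mul_zero]
        apply hc0
        rintro ⟨τ, hτ, h1⟩
        refine h ⟨σ⁻¹ * τ, H.mul_mem (H.inv_mem hσ) hτ, ?_⟩
        have h2 : ∀ x, res τ x = σ (φ x) := fun x => by rw [h1]; rfl
        ext x
        change σ⁻¹ (τ x) = φ x
        have h3 : τ x = σ (φ x) := h2 x
        rw [h3]
        exact σ.symm_apply_apply _
    rw [map_sum, Finset.mul_sum]
    calc ∑ φ, f σ * σ (c φ * φ θ) = ∑ φ, c (e φ) * (e φ) θ := by
          refine Finset.sum_congr rfl fun φ _ => ?_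
          rw [hce, he, map_mul, mul_assoc]
      _ = ∑ φ, c φ * φ θ := Equiv.sum_comp e (fun φ => c φ * φ θ)
  rw [map_inv₀]
  have hσb : σ (∑ φ, c φ * φ θ) ≠ 0 := by
    intro h
    rw [h, mul_zero] at key
    exact hθ key.symm
  have hfσ := h0 σ
  rw [inv_eq_iff_eq_inv, mul_inv, inv_inv]
  exact ((inv_mul_eq_iff_eq_mul₀ hfσ).2 key.symm).symm

open Pool.Agent.Y715.Gi (QB KK GK)

theorem t_H90 : S_H90 := by
  intro i₀ a u f hf h0 hc
  let H : Subgroup (GK i₀) :=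
    { carrier := {σ | σ a = a ∧ σ u = u}
      one_mem' := ⟨rfl, rfl⟩
      mul_mem' := by
        rintro σ τ ⟨h1, h2⟩ ⟨h3, h4⟩
        refine ⟨?_, ?_⟩
        · change σ (τ a) = a
          rw [h3, h1]
        · change σ (τ u) = u
          rw [h4, h2]
      inv_mem' := by
        rintro σ ⟨h1, h2⟩
        refine ⟨?_, ?_⟩
        · change σ.symm a = a
          rw [AlgEquiv.symm_apply_eq, h1]
        · change σ.symm u = u
          rw [AlgEquiv.symm_apply_eq, h2] }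
  have h1 : f 1 = 1 := by
    have h := hc 1 rfl rfl 1 rfl rfl
    rw [mul_one] at h
    have h2 : f 1 * 1 = f 1 * f 1 := by
      rw [mul_one]
      exact h
    exact (mul_left_cancel₀ (h0 1) h2).symm
  have hev : ∀ᶠ σ in 𝓝 (1 : GK i₀), f σ = 1 := by
    have h := hf.eventually_eq 1
    rw [h1] at h
    exact h
  obtain ⟨β, hβ, hβ'⟩ := h90_gen H f hev h0
    (fun σ hσ τ hτ => hc σ hσ.1 hσ.2 τ hτ.1 hτ.2)
  exact ⟨β, hβ, fun σ ha hu => hβ' σ ⟨ha, hu⟩⟩

end Pool.Agent.NH57.BK
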