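import Pool.Agent.NH57.BK.Stm

/-!
# BK-01: the characters of the curve modulo eight
-/

set_option autoImplicit false
set_option linter.unusedVariables false
set_option linter.unusedSectionVars false

namespace Pool.Agent.NH57.BK

open WeierstrassCurve Pool.Agent.Y676.IS
open Pool.Agent.R384
open Pool.Agent.Y715.Red Pool.Agent.Y715.Nr Pool.Agent.W237.RK
open Pool.Agent.Y715.Gi (QB KK GK)
open Pool.Agent.Y715.Df (Cmp)

open scoped Classical

lemma smul_con {A : Type} [AddCommGroup A] {P : A} (h8 : (8 : ℤ) • P = 0) {k e : ℤ}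
    (h : (8 : ℤ) ∣ k - e) : k • P = e • P := by
  obtain ⟨l, hl⟩ := h
  have : k = e + l * 8 := by linarith
  rw [this, add_smul, mul_smul, h8, smul_zero, add_zero]

lemma smul_four {A : Type} [AddCommGroup A] {P Q T : A} (h8 : (8 : ℤ) • P = 0) {k : ℤ}
    (h : (2 : ℤ) ∣ k) (h1 : Q = k • P) (h2 : ((2 : ℤ) ^ 2) • Q = T) : T = 0 := by
  obtain ⟨l, hl⟩ := h
  rw [h1, ← mul_smul, hl] at h2
  have e : (2 ^ 2 * (2 * l) : ℤ) = l * 8 := by ring
  rw [e, mul_smul, h8, smul_zero] at h2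
  exact h2.symm

section

variable {F : Type} [Field F] [CharZero F] [DecidableEq F] [IsAlgClosed F] {w m : F}
  {x : ℕ → (Cu (ca w m) (cb w m)).Point}

/-- the first coordinate of the point of order eight in the tower -/
lemma eight (h : WD w m) (hx : Tow (eF h) (tA h) x) {s : F} (hs : s ^ 2 = -(1 - w)) :
    ∃ (X Y : F) (hxy : (Cu (ca w m) (cb w m)).Nonsingular X Y), x 3 = .some X Y hxy ∧
      ((X = w * m + 2 * m * s ∨ X = w * m + (-(2 * m)) * s) ∨
        X = -(4 - w) * m + 2 * (1 - w) * m * s ∨ X = -(4 - w) * m + (-(2 * (1 - w) * m)) * s) := by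
  have h2 : eF h (x 2) = tA h := by
    have h1 : eF h (eF h (x 2)) = 0 := hx.ker 2
    rcases ((td h).kf _).1 h1 with h2 | h2
    · exfalso
      have h3 : x 2 + x 2 = 0 := by
        rcases ((td h).kf _).1 h2 with h3 | h3
        · rw [h3, add_zero]
        · rw [h3, (td h).T2]
      rw [hx.dbl 1, hx.one] at h3
      exact (td h).hT h3
    · exact h2
  have hQ : eF h (x 3) + eF h (x 3) = TT h.dat.hb h.dat.hd := by
    rw [← map_add, hx.dbl 2, h2]
    rfl
  obtain ⟨X', Y', hxy', hQ', hX', hY', hX2⟩ := half_T h.dat.hb h.dat.hd hQ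
  rcases hP : x 3 with _ | ⟨X, Y, hxy⟩
  · exfalso
    rw [hP] at hQ'
    have h3 : eF h (Affine.Point.zero : (Cu (ca w m) (cb w m)).Point) = 0 := map_zero (eF h)
    rw [h3] at hQ'
    exact absurd hQ' (by rintro ⟨⟩)
  · refine ⟨X, Y, hxy, rfl, ?_⟩
    have hX : X ≠ 0 := by
      intro hX
      rw [hP, isT_of_x0 h.dat.hb h.dat.hd hxy hX] at hQ'
      have h3 : eF h (tA h) = 0 := (td h).fT
      rw [show (TT h.dat.hb h.dat.hd) = tA h from rfl, h3] at hQ'
      exact absurd hQ' (by rintro ⟨⟩)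
    obtain ⟨hn, he⟩ := eF_some h hxy hX
    rw [hP, he] at hQ'
    obtain ⟨e1, -⟩ := (Affine.Point.some.injEq _ _ _ _ _ _).mp hQ'
    have hw1 := h.w1
    have hw := h.hw
    have e2 : Y ^ 2 = (X' + m) * (1 - w) ^ 2 * X ^ 2 := by
      rw [← e1]
      field_simp
      ring
    have e3 := ns_eq hxy
    rw [e2] at e3
    have e4 : X ^ 2 + ca w m * X + cb w m = (X' + m) * (1 - w) ^ 2 * X := by
      apply mul_left_cancel₀ hX
      linear_combination -e3
    unfold ca cb at e4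
    have hX1 : X' = w ^ 2 * m ∨ X' = -(w ^ 2 * m) := by
      apply sq_eq_sq_iff_eq_or_eq_neg.1
      rw [hX2]; unfold cb; ring
    rcases hX1 with h5 | h5
    · left
      have h6 : (X - w * m) ^ 2 = (2 * m * s) ^ 2 := by
        rw [h5] at e4
        have h7 : (2 * m * s) ^ 2 = 4 * m ^ 2 * (-(1 - w)) := by rw [← hs]; ring
        rw [h7]
        linear_combination e4 + (X * m * (w ^ 2 - w - 1) - m ^ 2 * (w ^ 2 + w - 2)) * hw
      rcases sq_eq_sq_iff_eq_or_eq_neg.1 h6 with h7 | h7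
      · left; linear_combination h7
      · right; linear_combination h7
    · right
      have h6 : (X + (4 - w) * m) ^ 2 = (2 * (1 - w) * m * s) ^ 2 := by
        rw [h5] at e4
        have h7 : (2 * (1 - w) * m * s) ^ 2 = 4 * (1 - w) ^ 2 * m ^ 2 * (-(1 - w)) := by rw [← hs]; ring
        rw [h7]
        linear_combination e4 - (X * m * (w ^ 2 - w - 3) + m ^ 2 * (w ^ 2 + 5 * w - 10)) * hw
      rcases sq_eq_sq_iff_eq_or_eq_neg.1 h6 with h7 | h7
      · left; linear_combination h7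
      · right; linear_combination h7

/-- the action on the point of order eight -/
lemma act_eight (h : WD w m) (hx : Tow (eF h) (tA h) x) {s : F} (hs : s ^ 2 = -(1 - w))
    {σ : F →+* F} (fx : Fx w m σ) :
    (σ s = s → gal h σ fx (x 3) = x 3 ∨ gal h σ fx (x 3) = -x 3) ∧
    (σ s = -s → ¬ (gal h σ fx (x 3) = x 3 ∨ gal h σ fx (x 3) = -x 3)) := by
  obtain ⟨X, Y, hxy, hP, hX⟩ := eight h hx hs
  have hw1 := h.w1
  have hs0 : s ≠ 0 := by
    rintro h0
    apply hw1
    rw [h0] at hs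
    linear_combination hs
  have hB : ∃ A B : F, σ A = A ∧ σ B = B ∧ B ≠ 0 ∧ X = A + B * s := by
    have c2 : (2 : F) * m ≠ 0 := mul_ne_zero two_ne_zero h.hm
    have c3 : 2 * (1 - w) * m ≠ 0 := mul_ne_zero (mul_ne_zero two_ne_zero hw1) h.hm
    rcases hX with (h1 | h1) | h1 | h1
    · exact ⟨w * m, 2 * m, by rw [map_mul, fx.w, fx.m], by rw [map_mul, fx.m, map_ofNat], c2, h1⟩
    · exact ⟨w * m, -(2 * m), by rw [map_mul, fx.w, fx.m],
        by rw [map_neg, map_mul, fx.m, map_ofNat], neg_ne_zero.2 c2, h1⟩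
    · exact ⟨-(4 - w) * m, 2 * (1 - w) * m, by
          rw [map_mul, map_neg, map_sub, fx.w, fx.m, map_ofNat],
        by rw [map_mul, map_mul, map_sub, map_one, fx.w, fx.m, map_ofNat], c3, h1⟩
    · exact ⟨-(4 - w) * m, -(2 * (1 - w) * m), by
          rw [map_mul, map_neg, map_sub, fx.w, fx.m, map_ofNat],
        by rw [map_neg, map_mul, map_mul, map_sub, map_one, fx.w, fx.m, map_ofNat],
          neg_ne_zero.2 c3, h1⟩
  obtain ⟨A, B, hA, hB, hB0, hAB⟩ := hB
  have hneg := neg_some hxy (ns_neg h.dat.hb h.dat.hd hxy)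
  constructor
  · intro hss
    have hσX : σ X = X := by rw [hAB, map_add, map_mul, hA, hB, hss]
    rw [hP, gal_some, hneg]
    have e1 := congrArg σ (ns_eq hxy)
    rw [map_pow, map_add, map_add, map_mul, map_mul, map_pow, map_pow, fx.ca, fx.cb, hσX,
      ← ns_eq hxy] at e1
    rcases sq_eq_sq_iff_eq_or_eq_neg.1 e1 with h7 | h7
    · exact Or.inl (some_congr _ _ hσX h7)
    · exact Or.inr (some_congr _ _ hσX h7)
  · intro hss
    have hσX : σ X ≠ X := by
      rw [hAB, map_add, map_mul, hA, hB, hss]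
      intro h1
      have h2 : 2 * (B * s) = 0 := by linear_combination -h1
      exact mul_ne_zero two_ne_zero (mul_ne_zero hB0 hs0) h2
    rw [hP, gal_some, hneg]
    rintro (h1 | h1)
    · exact hσX ((Affine.Point.some.injEq _ _ _ _ _ _).mp h1).1
    · exact hσX ((Affine.Point.some.injEq _ _ _ _ _ _).mp h1).1

end

/-- the scalar modulo eight -/
lemma pm_eight {i₀ w m : QB} (h : WD w m) (fx : ∀ σ : GK i₀, Fx w m (rh σ))
    {x : ℕ → (Cu (ca w m) (cb w m)).Point} (hx : Tow (eF h) (tA h) x)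
    {κ : GK i₀ →* ℤ_[2]ˣ} (hκ : ∀ σ, ActsBy x (act h fx σ) (κ σ)) {s : QB}
    (hs : s ^ 2 = -(1 - w)) (σ : GK i₀) :
    (σ s = s → Pm8 1 (κ σ)) ∧ (σ s = -s → Pm8 5 (κ σ)) := by
  obtain ⟨k, hk⟩ := exists_int (κ σ : ℤ_[2]) 3
  have h1 : act h fx σ (x 3) = k • x 3 := hκ σ 3 k hk
  have h2 : gal h (rh σ) (fx σ) (x 3) = k • x 3 := h1
  obtain ⟨a1, a2⟩ := act_eight h hx hs (fx σ)
  rw [h2] at a1 a2
  have e8 : (2 : ℤ_[2]) ^ 3 = 8 := by norm_num
  have key : ∀ e : ℤ, (8 : ℤ) ∣ k - e → (8 : ℤ_[2]) ∣ (κ σ : ℤ_[2]) - e := by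
    intro e he
    have h3 : (8 : ℤ_[2]) ∣ ((k - e : ℤ) : ℤ_[2]) := by
      have := dvd_cast (n := 3) (k := k - e)
      rw [e8] at this
      exact this.2 (by norm_num; exact he)
    rw [e8] at hk
    have e5 : (κ σ : ℤ_[2]) - e = ((κ σ : ℤ_[2]) - k) + ((k - e : ℤ) : ℤ_[2]) := by
      push_cast
      ring
    rw [e5]
    exact dvd_add hk h3
  constructor
  · intro hσ
    rcases a1 hσ with h3 | h3
    · left
      have h4 : (k - 1) • x 3 = 0 := by rw [sub_smul, h3, one_smul, sub_self]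
      have h5 := Tow.dvd (td h) hx h4
      exact key 1 (by norm_num at h5; exact h5)
    · right
      have h4 : (k - (-1)) • x 3 = 0 := by rw [sub_smul, h3, neg_smul, one_smul, sub_self]
      have h5 := Tow.dvd (td h) hx h4
      have := key (-1) (by norm_num at h5 ⊢; exact h5)
      push_cast at this ⊢
      rwa [sub_neg_eq_add] at this
  · intro hσ
    have h3 := a2 hσ
    have h8 : (8 : ℤ) • x 3 = 0 := by
      have := hx.pow' 3
      norm_num at this
      exact this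
    have hcon : ∀ e : ℤ, (8 : ℤ) ∣ k - e → k • x 3 = e • x 3 := fun e he => smul_con h8 he
    have hodd : ¬ (2 : ℤ) ∣ k := by
      intro hk2
      have h4 := hx.pow 1 2
      have h5 : ((2 : ℤ) ^ 2) • act h fx σ (x 3) = tA h := by
        rw [← map_zsmul]
        have : (2 ^ 2 : ℤ) • x 3 = x 1 := h4
        rw [this, hx.one, act_apply, gal_tA]
      exact (td h).hT (smul_four h8 hk2 h1 h5)
    have h6 : k % 8 = 1 ∨ k % 8 = 3 ∨ k % 8 = 5 ∨ k % 8 = 7 := by omega
    rcases h6 with h6 | h6 | h6 | h6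
    · exfalso
      apply h3
      left
      rw [hcon 1 (by omega), one_smul]
    · right
      have := key (-5) (by omega)
      push_cast at this ⊢
      rwa [sub_neg_eq_add] at this
    · left
      exact key 5 (by omega)
    · exfalso
      apply h3
      right
      rw [hcon (-1) (by omega), neg_smul, one_smul]

theorem t_K8 : S_K8 := by
  intro i₀ hi D hD h r I hr hI fx
  obtain ⟨x, hx⟩ := (td h).exists_tow
  obtain ⟨z, hz⟩ := (td h.bar).exists_tow
  obtain ⟨κ', a1, a2, a3, a4, a5⟩ := exists_kap h fx hx hr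
  have hr' : (I * r) ^ 2 = -em hi D := by rw [mul_pow, hI, hr]; ring
  have fxb : ∀ σ : GK i₀, Fx (1 - i₀) (-em hi D) (rh σ) := fun σ => (fx σ).bar
  obtain ⟨κ, b1, b2, b3, b4, b5⟩ := exists_kap h.bar fxb hz hr'
  let S : (Cu (ca (1 - i₀) (-em hi D)) (cb (1 - i₀) (-em hi D))).Point →+
      (Cu (ca i₀ (em hi D)) (cb i₀ (em hi D))).Point :=
    { toFun := shF h.sh, map_zero' := rfl, map_add' := shF_add h.sh }
  have hS : ∀ P, S P = shF h.sh P := fun P => rfl
  refine ⟨κ, κ', x, fun n => S (z n), ⟨hr, hI, b1, a1, fun σ h => ph_one.2 (b3 σ h),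
    fun σ h => ph_neg.2 (b4 σ h), fun σ h => ph_one.2 (a3 σ h), fun σ h => ph_neg.2 (a4 σ h), ?_,
    a5⟩, ⟨fun s hs σ => (pm_eight h.bar fxb hz b2 (by rw [hs]; ring) σ).1,
      fun s hs σ => (pm_eight h.bar fxb hz b2 (by rw [hs]; ring) σ).2,
      fun s hs σ => (pm_eight h fx hx a2 hs σ).1,
      fun s hs σ => (pm_eight h fx hx a2 hs σ).2⟩, hx, ?_, a2, ?_⟩
  · intro p _ ι τ σ hc hin hw
    refine b5 p ι τ σ hc hin ?_
    rwa [sub_sub_cancel]
  · exact tow_S h hz
  · intro σ n k hk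
    have h1 := b2 σ n k hk
    show act h fx σ (S (z n)) = k • S (z n)
    rw [← map_zsmul, ← h1]
    exact gal_shF h (fx σ) (z n)

end Pool.Agent.NH57.BK
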