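import Pool.Agent.NH57.BK.Stm

/-!
# Project BK: the vanishing theorem over `K`
-/

set_option autoImplicit false
set_option linter.unusedSectionVars false
set_option linter.unusedVariables false

namespace Pool.Agent.NH57.BK

open Pool.Agent.R384
open Pool.Agent.Y676.IS (Cu)
open Pool.Agent.Y715.Red Pool.Agent.Y715.Nr Pool.Agent.W237.RK
open Pool.Agent.Y715.Gi (QB KK GK)
open Pool.Agent.Y715.Df (Cmp)

open scoped Classical

namespace Mn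

/-! ### Divisibility in `ℤ[ω]` -/

lemma em2_om : em h2 om = 2 := by
  rw [em_apply]
  simp [om]

lemma om_not {q : OO} (hq : Pp q) : ¬ om ∣ q := by
  rintro ⟨t, rfl⟩
  have h1 := hq.one
  rw [map_mul, em2_om] at h1
  have h3 : ∀ a : ZMod 4, 2 * a ≠ 1 := by decide
  exact h3 _ h1

lemma assoc_of_dvd {q ρ : OO} (hq : Prime q) (hρ : Prime ρ) (h : q ∣ ρ) : ρ = q ∨ ρ = -q := by
  obtain ⟨u, hu⟩ := (hq.dvd_prime_iff_associated hρ).1 h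
  rcases unit_cases u.isUnit with h1 | h1
  · left
    rw [← hu, h1, mul_one]
  · right
    rw [← hu, h1, mul_neg, mul_one]

lemma pp_eq {q ρ : OO} (hq : Pp q) (hρ : Pp ρ) (h : q ∣ ρ) : ρ = q := by
  rcases assoc_of_dvd hq.prime hρ.prime h with h1 | h1
  · exact h1
  · exfalso
    have h3 := hρ.one
    rw [h1, map_neg, hq.one] at h3
    revert h3
    decide

lemma pp_two {q : OO} (hq : Pp q) : ¬ q ∣ 2 := by
  intro h
  rw [← om_mul] at h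
  rcases hq.prime.dvd_or_dvd h with h1 | h1
  · rcases assoc_of_dvd hq.prime prime_om h1 with h3 | h3
    · exact om_not hq (h3 ▸ dvd_rfl)
    · exact om_not hq (h3 ▸ neg_dvd.2 dvd_rfl)
  · rcases assoc_of_dvd hq.prime prime_om' h1 with h3 | h3
    · exact hq.odd (h3 ▸ dvd_rfl)
    · exact hq.odd (h3 ▸ neg_dvd.2 dvd_rfl)

lemma s7_two : ¬ s7 ∣ (2 : OO) := by
  intro h
  rw [s7_dvd, map_ofNat] at h
  revert h
  decide

lemma sqm_neg {q x : OO} (h : Sqm q x) : Sqm (-q) x := by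
  obtain ⟨y, hy⟩ := h
  exact ⟨y, neg_dvd.2 hy⟩

lemma seven_of' {q : OO} (hq : Prime q) (h7 : ¬ q ∣ s7) {p : ℕ} [Fact p.Prime] {w : PadicAlgCl p}
    (hw : w ^ 2 = w - 2) (h : ‖em hw q‖ < 1) : p ≠ 7 := by
  rintro rfl
  have e7 : ((7 : ℕ) : OO) = -(s7 * s7) := by
    rw [s7_sq]
    push_cast
    ring
  have h1 := (dvd_iff hw hq h ((7 : ℕ) : OO)).2 (p_lt hw)
  rw [e7, dvd_neg] at h1
  exact h7 ((hq.dvd_or_dvd h1).elim id id)

variable {i₀ : QB} (hi : i₀ ^ 2 = i₀ - 2) {χ : GK i₀ →* ℤ_[2]ˣ} {m : OO} {r : QB}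

/-- the local condition at a prime divisor of `m` -/
lemma loc_q' (cd : ChiD hi χ m r) {c : GK i₀ → ℚ_[2]} (hc : Coc χ c) (hc1 : ∀ σ, ‖c σ‖ ≤ 1)
    {q m1 : OO} (hq : Prime q) (hqt : ¬ q ∣ 2) (hq7 : ¬ q ∣ s7) (hm : m = q * m1) (hq1 : ¬ q ∣ m1)
    {p : ℕ} [Fact p.Prime] {ι : QB →ₐ[ℚ] PadicAlgCl p} (hι : ‖em (iw hi ι) q‖ < 1)
    (hD : CobOn χ (II ι) c) {δ : OO} (hδ : Squarefree δ) {s : QB}
    (hs : s ^ 2 = em hi δ) (hk : ∀ σ : GK i₀, σ s = s ↔ md c σ = 0) :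
    (¬ q ∣ δ ∧ Sqm q δ) ∨ ∃ δ1 m1, δ = q * δ1 ∧ m = q * m1 ∧ Sqm q (δ1 * m1) := by
  have hp2 : p ≠ 2 := fun h => hqt ((two_of_dvd hq (iw hi ι) hι).1 h)
  have hp7 : p ≠ 7 := seven_of' hq hq7 (iw hi ι) hι
  obtain ⟨σ₀, h0, h2⟩ := exists_ram hi cd hq hm hq1 hι
  have hχ : vl χ σ₀ = -1 := by
    obtain ⟨τ, hτ, hin⟩ := h0
    unfold vl
    rw [(cd.inert p ι τ σ₀ hp2 hτ hin).2 h2]
    simp
  have hD' : CobOn χ (DD ι) c := dec_of_inert hc hD h0 hχ fun τ hτ => conj_mem h0 hτ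
  have hsq : (ι s) ^ 2 = em (iw hi ι) δ := by rw [← map_pow, hs, ι_em]
  rcases loc_dich hi cd hc1 hD' (II_sub h0) h2 hs hk with h | h
  · left
    refine ⟨not_dvd_of_fix (iw hi ι) hq hι hδ hsq fun τ _ hτ => fix_D h τ hτ, ?_⟩
    exact resid (iw hi ι) hp2 hp7 hq hι hsq (fix_D h)
  · right
    have hsr : (s * r) ^ 2 = em hi (δ * m) := by rw [mul_pow, hs, cd.hr, map_mul]
    have hdv : q ∣ δ := by
      by_contra hcon
      refine no_simple (iw hi ι) hq hι (t := δ * m1) (s := ι (s * r))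
        (fun h => (hq.dvd_or_dvd h).elim hcon hq1) ?_ fun τ _ hτ => fix_D h τ hτ
      rw [← map_pow, hsr, ι_em, hm]
      congr 1
      ring
    obtain ⟨δ1, hδ1⟩ := hdv
    refine ⟨δ1, m1, hδ1, hm, ?_⟩
    have hq0 : em (iw hi ι) q ≠ 0 := em_ne _ hq.ne_zero
    refine resid (iw hi ι) hp2 hp7 hq hι (y := ι (s * r) / em (iw hi ι) q) ?_ ?_
    · rw [div_pow, ← map_pow, hsr, ι_em, hδ1, hm, div_eq_iff (pow_ne_zero _ hq0), ← map_pow,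
        ← map_mul]
      congr 1
      ring
    · intro τ hτ
      rw [map_div₀, fix_D h τ hτ, em_fix (iw hi ι) hτ]

/-- the local conditions at all prime divisors of `m` -/
lemma loc_all (cd : ChiD hi χ m r) {S : Finset OO} (hS : GoodS S) {v : OO} (hv : v = 1 ∨ v = -1)
    (hm : m = v * (s7 * ∏ q ∈ S, q)) {c : GK i₀ → ℚ_[2]} (hc : Coc χ c) (hc1 : ∀ σ, ‖c σ‖ ≤ 1)
    (hodd : ∀ (p : ℕ) [Fact p.Prime] (ι : QB →ₐ[ℚ] PadicAlgCl p), p ≠ 2 → CobOn χ (II ι) c)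
    {δ : OO} (hδ : Squarefree δ) {s : QB}
    (hs : s ^ 2 = em hi δ) (hk : ∀ σ : GK i₀, σ s = s ↔ md c σ = 0) (q : OO) (hq : Prime q)
    (hqm : q ∣ m) :
    (¬ q ∣ δ ∧ Sqm q δ) ∨ ∃ δ1 m1, δ = q * δ1 ∧ m = q * m1 ∧ Sqm q (δ1 * m1) := by
  have hv' : ∀ {π : OO}, Prime π → ¬ π ∣ v := by
    intro π hπ h
    rcases hv with h1 | h1
    · rw [h1] at h
      exact hπ.not_isUnit (isUnit_of_dvd_one h)
    · rw [h1, dvd_neg] at h
      exact hπ.not_isUnit (isUnit_of_dvd_one h)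
  have hloc7 : (¬ s7 ∣ δ ∧ Sqm s7 δ) ∨
      ∃ δ1 m1, δ = s7 * δ1 ∧ m = s7 * m1 ∧ Sqm s7 (δ1 * m1) := by
    obtain ⟨l, hl, κ, hκ⟩ := exists_emb hi prime_s7
    rw [ι_em] at hκ
    have hl7 := p_seven (iw hi κ) hκ
    have hl2 : l ≠ 2 := by rw [hl7]; norm_num
    refine loc_7 hi cd hc hc1 (m1 := v * ∏ q ∈ S, q) (by rw [hm]; ring) (fun h => ?_) hκ
      (hodd l κ hl2) hδ hs hk
    rcases prime_s7.dvd_or_dvd h with h1 | h1
    · exact hv' prime_s7 h1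
    · obtain ⟨j, hj, h2⟩ := (prime_s7.dvd_finsetProd_iff _).1 h1
      exact (hS.pp j hj).sev h2
  rw [hm] at hqm
  rcases hq.dvd_or_dvd hqm with h1 | h1
  · exact absurd h1 (hv' hq)
  by_cases h7 : q ∣ s7
  · rcases assoc_of_dvd hq prime_s7 h7 with h3 | h3
    · rw [← h3]
      exact hloc7
    · have hq' : q = -s7 := by rw [h3, neg_neg]
      rw [hq']
      rcases hloc7 with ⟨h4, h5⟩ | ⟨δ1, m1, h4, h5, h6⟩
      · exact Or.inl ⟨fun h => h4 (neg_dvd.1 h), sqm_neg h5⟩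
      · refine Or.inr ⟨-δ1, -m1, by rw [h4]; ring, by rw [h5]; ring, ?_⟩
        rw [neg_mul_neg]
        exact sqm_neg h6
  · rcases hq.dvd_or_dvd h1 with h3 | h3
    · exact absurd h3 h7
    obtain ⟨ρ, hρ, h4⟩ := (hq.dvd_finsetProd_iff _).1 h3
    have hρp := hS.pp ρ hρ
    have hqt : ¬ q ∣ 2 := by
      intro h
      rcases assoc_of_dvd hq hρp.prime h4 with h5 | h5
      · exact pp_two hρp (h5 ▸ h)
      · exact pp_two hρp (h5 ▸ neg_dvd.2 h)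
    obtain ⟨u, hu⟩ := h4
    have huu : IsUnit u := by
      rcases hρp.prime.irreducible.isUnit_or_isUnit hu with h5 | h5
      · exact absurd h5 hq.not_isUnit
      · exact h5
    have hqρ : ρ = q ∨ ρ = -q := assoc_of_dvd hq hρp.prime ⟨u, hu⟩
    have hρq : ρ ∣ q := by
      rcases hqρ with h5 | h5
      · rw [h5]
      · rw [h5]
        exact neg_dvd.2 dvd_rfl
    have e1 := Finset.mul_prod_erase S (fun q => q) hρ
    have hm1 : m = q * (v * (s7 * (u * ∏ x ∈ S.erase ρ, x))) := by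
      rw [hm, ← e1]
      rw [show (v * (s7 * (ρ * ∏ x ∈ S.erase ρ, x)) : OO) =
        ρ * (v * (s7 * ∏ x ∈ S.erase ρ, x)) by ring]
      rw [hu]
      ring
    have hm2 : ¬ q ∣ v * (s7 * (u * ∏ x ∈ S.erase ρ, x)) := by
      intro h
      rcases hq.dvd_or_dvd h with h5 | h5
      · exact hv' hq h5
      rcases hq.dvd_or_dvd h5 with h6 | h6
      · exact h7 h6
      rcases hq.dvd_or_dvd h6 with h8 | h8
      · exact hq.not_isUnit (isUnit_of_dvd_unit h8 huu)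
      obtain ⟨ρ', hρ', h9⟩ := (hq.dvd_finsetProd_iff _).1 h8
      have h10 : ρ' = ρ := pp_eq hρp (hS.pp ρ' (Finset.mem_of_mem_erase hρ')) (hρq.trans h9)
      exact (Finset.ne_of_mem_erase hρ') h10
    obtain ⟨l, hl, κ, hκ⟩ := exists_emb hi hq
    rw [ι_em] at hκ
    have hl2 : l ≠ 2 := fun h => hqt ((two_of_dvd hq (iw hi κ) hκ).1 h)
    exact loc_q' hi cd hc hc1 hq hqt h7 hm1 hm2 hκ (hodd l κ hl2) hδ hs hk

theorem core (hSTR : S_STR) (hFRE : S_FRE) (hALG : S_ALG) (hREC : S_REC) {S : Finset OO}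
    (hS : GoodS S) {ϖ ϖ' : OO} (c8 : C8 hi χ m r ϖ') {w4 : ZMod 4} (hw4 : w4 ^ 2 = w4 - 2)
    (hcase : (m = -(s7 * ∏ q ∈ S, q) ∧ ϖ = om ∧ ϖ' = 1 - om ∧ w4 = 2) ∨
      (m = s7 * ∏ q ∈ S, q ∧ ϖ = 1 - om ∧ ϖ' = om ∧ w4 = 3))
    (hm5 : ∀ ι : QB →ₐ[ℚ] PadicAlgCl 2, ‖em (iw hi ι) ϖ‖ < 1 → M15 (em (iw hi ι) m))
    (hm6 : ∀ ι : QB →ₐ[ℚ] PadicAlgCl 2, ‖em (iw hi ι) ϖ'‖ < 1 → M15 (em (iw hi ι) (-m)))
    {c : GK i₀ → ℚ_[2]} (hc : Coc χ c)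
    (hodd : ∀ (p : ℕ) [Fact p.Prime] (ι : QB →ₐ[ℚ] PadicAlgCl p), p ≠ 2 → CobOn χ (II ι) c)
    (hstr : ∀ ι : QB →ₐ[ℚ] PadicAlgCl 2, ‖ι (em hi ϖ)‖ < 1 → CobOn χ (DD ι) c) :
    ∃ y : ℚ_[2], ∀ σ, c σ = (vl χ σ - 1) * y := by
  by_contra hn
  have cd := c8.cd
  have hPl : Pl ϖ ϖ' := by
    rcases hcase with ⟨-, h1, h2, -⟩ | ⟨-, h1, h2, -⟩
    · exact Or.inl ⟨h1, h2⟩
    · exact Or.inr ⟨h1, h2⟩
  have hϖp : Prime ϖ := by
    rcases hPl with ⟨rfl, -⟩ | ⟨rfl, -⟩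
    · exact prime_om
    · exact prime_om'
  have hϖp' : Prime ϖ' := by
    rcases hPl with ⟨-, rfl⟩ | ⟨-, rfl⟩
    · exact prime_om'
    · exact prime_om
  have hϖ2 : ϖ * ϖ' = 2 := by
    rcases hPl with ⟨rfl, rfl⟩ | ⟨rfl, rfl⟩
    · exact om_mul
    · rw [mul_comm]; exact om_mul
  obtain ⟨v, hv, hm⟩ : ∃ v : OO, (v = 1 ∨ v = -1) ∧ m = v * (s7 * ∏ q ∈ S, q) := by
    rcases hcase with ⟨h1, -, -, -⟩ | ⟨h1, -, -, -⟩
    · exact ⟨-1, Or.inr rfl, by rw [h1]; ring⟩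
    · exact ⟨1, Or.inl rfl, by rw [h1]; ring⟩
  have hv' : ∀ {π : OO}, Prime π → ¬ π ∣ v := by
    intro π hπ h
    rcases hv with h1 | h1
    · rw [h1] at h
      exact hπ.not_isUnit (isUnit_of_dvd_one h)
    · rw [h1, dvd_neg] at h
      exact hπ.not_isUnit (isUnit_of_dvd_one h)
  -- the strict place
  obtain ⟨p, hpf, ι, hι⟩ := exists_emb hi hϖp
  have hp2 : p = 2 := by
    rw [ι_em] at hι
    exact (two_of_dvd hϖp (iw hi ι) hι).2 ⟨_, hϖ2.symm⟩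
  subst hp2
  have hι' : ‖em (iw hi ι) ϖ‖ < 1 := by rwa [ι_em] at hι
  -- the free place
  obtain ⟨p, hpf', ι₁, hι₁⟩ := exists_emb hi hϖp'
  have hp2 : p = 2 := by
    rw [ι_em] at hι₁
    exact (two_of_dvd hϖp' (iw hi ι₁) hι₁).2 ⟨_, by rw [mul_comm]; exact hϖ2.symm⟩
  subst hp2
  have hι₁' : ‖em (iw hi ι₁) ϖ'‖ < 1 := by rwa [ι_em] at hι₁
  -- an element that moves `r`
  obtain ⟨σ₀, hσ₀⟩ : ∃ σ₀ : GK i₀, σ₀ r = -r := by
    obtain ⟨l, hl, κ, hκ⟩ := exists_emb hi prime_s7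
    rw [ι_em] at hκ
    have hns : ¬ s7 ∣ v * ∏ q ∈ S, q := by
      intro h
      rcases prime_s7.dvd_or_dvd h with h1 | h1
      · exact hv' prime_s7 h1
      · obtain ⟨j, hj, h2⟩ := (prime_s7.dvd_finsetProd_iff _).1 h1
        exact (hS.pp j hj).sev h2
    obtain ⟨σ₀, -, h⟩ := exists_ram hi cd prime_s7 (m1 := v * ∏ q ∈ S, q) (by rw [hm]; ring)
      hns hκ
    exact ⟨σ₀, h⟩
  -- normalization
  obtain ⟨a, y, ha, hint, hmin⟩ := normalize hc (cd.big hi hσ₀) hn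
  set c' : GK i₀ → ℚ_[2] := fun σ => a * c σ + (vl χ σ - 1) * y with hc'
  have hcc : Coc χ c' := hc.twist cd.cont a y
  have hodd' : ∀ (p : ℕ) [Fact p.Prime] (ι : QB →ₐ[ℚ] PadicAlgCl p), p ≠ 2 →
      CobOn χ (II ι) c' := fun p _ ι hp => (hodd p ι hp).twist a y
  have hstr' : CobOn χ (DD ι) c' := (hstr ι hι).twist a y
  -- Kummer theory
  obtain ⟨δ, hδ, hkum⟩ := kum hi (md c') (md_cont hcc) (md_mul hcc hint)
  obtain ⟨s, hs⟩ : ∃ s : QB, s ^ 2 = em hi δ := IsAlgClosed.exists_pow_nat_eq _ (by norm_num)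
  have hk : ∀ σ : GK i₀, σ s = s ↔ md c' σ = 0 := hkum s hs
  obtain ⟨hst1, hst2⟩ := hSTR hi hPl c8 ι hι' (hm5 ι hι') c' hint hstr' δ s hδ hs hk
  have hfr : ¬ ϖ' ∣ δ := hFRE hi hPl c8 ι₁ hι₁' (hm6 ι₁ hι₁') c' hcc hint δ s hδ hs hk
  -- the prime divisors of `δ`
  have hsup : ∀ π : OO, Prime π → π ∣ δ → ¬ π ∣ 2 → π ∣ m := by
    intro π hπ hπδ hπ2
    by_contra hπm
    obtain ⟨l, hl, κ, hκ⟩ := exists_emb hi hπ
    rw [ι_em] at hκ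
    have hl2 : l ≠ 2 := fun h => hπ2 ((two_of_dvd hπ (iw hi κ) hκ).1 h)
    have h1 := unram hi cd hl2 (hodd' l κ hl2) ((dvd_iff (iw hi κ) hπ hκ m).not.1 hπm)
    refine not_dvd_of_fix (iw hi κ) hπ hκ hδ (s := κ s) ?_ ?_ hπδ
    · rw [← map_pow, hs, ι_em]
    · intro τ hin hτ
      exact fix_I (fun σ hσ => (hk σ).2 (h1 σ hσ)) τ hin hτ
  -- the prime divisors of `m`
  have hloc := loc_all hi cd hS hv hm hcc hint hodd' hδ hs hk
  -- modulo four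
  have h4a : (ϖ = om ∧ w4 = 2) ∨ (ϖ = 1 - om ∧ w4 = 3) := by
    rcases hcase with ⟨-, h1, -, h2⟩ | ⟨-, h1, -, h2⟩
    · exact Or.inl ⟨h1, h2⟩
    · exact Or.inr ⟨h1, h2⟩
  have hδ4 : em hw4 δ = 1 := em_four_one (iw hi ι) hw4 h4a hι' hst2
  have hδ2 := hALG hREC S hS m ϖ ϖ' δ w4 hw4 hcase hδ hst1 hfr hδ4 hsup hloc
  rcases hδ2 with h | h
  · -- `δ = 1`
    rw [h, map_one] at hs
    obtain ⟨σ, hσ⟩ := hmin 0
    rw [mul_zero, sub_zero] at hσ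
    apply hσ
    have h1 : σ s = s := by
      rcases sq_eq_one_iff.1 hs with h2 | h2
      · rw [h2, map_one]
      · rw [h2, map_neg, map_one]
    have h5 : ‖c' σ‖ < 1 := md_zero.1 ((hk σ).1 h1)
    exact h5
  · -- `δ = m`
    rw [h] at hs
    have hsr : ∀ σ : GK i₀, σ s = s ↔ σ r = r := by
      intro σ
      have h1 : s ^ 2 = r ^ 2 := by rw [hs, cd.hr]
      rcases sq_eq_sq_iff_eq_or_eq_neg.1 h1 with h2 | h2
      · rw [h2]
      · rw [h2, map_neg, neg_inj]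
    obtain ⟨σ, hσ⟩ := hmin (1 / 2)
    apply hσ
    have h2n : ‖(2 : ℚ_[2])‖ = 1 / 2 := norm_two'
    have h3 : ‖(vl χ σ - 1) * (1 / 2)‖ = 2 * ‖vl χ σ - 1‖ := by
      rw [norm_mul, norm_div, norm_one, h2n]
      ring
    by_cases h4 : md c' σ = 0
    · have h5 : ‖c' σ‖ < 1 := md_zero.1 h4
      have h6 := (cd.iff hi σ).2 ((hsr σ).1 ((hk σ).2 h4))
      have e : c' σ - (vl χ σ - 1) * (1 / 2) = c' σ + -((vl χ σ - 1) * (1 / 2)) := by ring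
      have h7 : ‖c' σ - (vl χ σ - 1) * (1 / 2)‖ < 1 := by
        rw [e]
        refine add_lt' h5 ?_
        rw [norm_neg, h3]
        linarith
      exact h7
    · have h5 : ¬ ‖c' σ‖ < 1 := fun h => h4 (md_zero.2 h)
      have h6 := (md_eq (hint σ)).1 h5
      have h7 : σ r = -r := by
        rcases rt_or hi cd.hr σ with h7 | h7
        · exact absurd ((hk σ).1 ((hsr σ).2 h7)) h4
        · exact h7
      have h8 := cd.big hi h7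
      have h9 : ¬ ‖(vl χ σ - 1) * (1 / 2)‖ < 1 := by
        rw [h3, h8]
        norm_num
      have h10 := (md_eq (by rw [h3, h8]; norm_num)).1 h9
      have e : c' σ - (vl χ σ - 1) * (1 / 2) = (c' σ - 1) + -((vl χ σ - 1) * (1 / 2) - 1) := by ring
      rw [e]
      exact add_lt' h6 (by rwa [norm_neg])

end Mn

/-- BK-10: the vanishing theorem over `K` -/
theorem t_MAIN : S_MAIN := by
  intro hC8 hMOD hSTR hFRE hALG hREC i₀ hi κ κ' S r I hS kd k8 j ϖ hϖ c hc hodd hstr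
  obtain ⟨he, ho⟩ := hC8 hi kd k8 j
  rcases hϖ with ⟨hj, rfl⟩ | ⟨hj, rfl⟩
  · obtain ⟨s, c8⟩ := he hj
    refine Mn.core hi hSTR hFRE hALG hREC hS c8 (w4 := 2) (by decide)
      (Or.inl ⟨rfl, rfl, rfl, rfl⟩) (fun ι hι => (hMOD hi ι _ hS.one).1 hι) (fun ι hι => ?_)
      hc hodd hstr
    rw [neg_neg]
    exact (hMOD hi ι _ hS.one).2 hι
  · obtain ⟨s, c8⟩ := ho hj
    rw [neg_neg] at c8
    exact Mn.core hi hSTR hFRE hALG hREC hS c8 (w4 := 3) (by decide)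
      (Or.inr ⟨rfl, rfl, rfl, rfl⟩) (fun ι hι => (hMOD hi ι _ hS.one).2 hι)
      (fun ι hι => (hMOD hi ι _ hS.one).1 hι) hc hodd hstr

end Pool.Agent.NH57.BK
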