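import Pool.Agent.NH57.BK.Stm

/-!
# Project BK: sizes at the two places above two (BK-03)
-/

set_option autoImplicit false
set_option linter.unusedVariables false

namespace Pool.Agent.NH57.BK

open Pool.Agent.R384
open Pool.Agent.Y676.IS (Cu)
open Pool.Agent.Y715.Red Pool.Agent.Y715.Nr Pool.Agent.W237.RK
open Pool.Agent.Y715.Gi (QB KK GK)
open Pool.Agent.Y715.Df (Cmp)

open scoped Classical

namespace ModP

lemma even_le {z : ℤ} (hz : Even z) : ‖(z : PadicAlgCl 2)‖ ≤ 1 / 2 := by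
  obtain ⟨k, hk⟩ := hz
  have e : (z : PadicAlgCl 2) = 2 * (k : PadicAlgCl 2) := by
    rw [hk]; push_cast; ring
  rw [e, norm_mul, Pool.Agent.Y715.Gi.norm_two']
  have : ‖(k : PadicAlgCl 2)‖ ≤ 1 := IsUltrametricDist.norm_intCast_le_one _ k
  linarith

/-- the reduction of an element at a place of degree one above two -/
lemma red {w : PadicAlgCl 2} (hw : w ^ 2 = w - 2) (t : OO) (h : ‖w‖ ≤ 1 / 2 ∨ ‖1 - w‖ ≤ 1 / 2) :
    ‖em hw t‖ ≤ 1 / 2 ∨ ‖em hw t - 1‖ ≤ 1 / 2 := by
  have hi1 : ∀ a : ℤ, ‖(a : PadicAlgCl 2)‖ ≤ 1 := fun a =>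
    IsUltrametricDist.norm_intCast_le_one _ a
  have hm : ∀ (a : ℤ) {x : PadicAlgCl 2}, ‖x‖ ≤ 1 / 2 → ‖(a : PadicAlgCl 2) * x‖ ≤ 1 / 2 := by
    intro a x hx
    rw [norm_mul]
    nlinarith [hi1 a, norm_nonneg (a : PadicAlgCl 2), norm_nonneg x]
  rcases h with h | h
  · rcases Int.even_or_odd t.re with ha | ha
    · left
      rw [em_apply]
      exact add_le (even_le ha) (hm _ h)
    · right
      have e : em hw t - 1 = ((t.re - 1 : ℤ) : PadicAlgCl 2) + t.im * w := by
        rw [em_apply]; push_cast; ring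
      rw [e]
      refine add_le (even_le ?_) (hm _ h)
      exact ha.sub_odd odd_one
  · rcases Int.even_or_odd (t.re + t.im) with ha | ha
    · left
      have e : em hw t = ((t.re + t.im : ℤ) : PadicAlgCl 2) - t.im * (1 - w) := by
        rw [em_apply]; push_cast; ring
      rw [e]
      exact sub_le (even_le ha) (hm _ h)
    · right
      have e : em hw t - 1 = ((t.re + t.im - 1 : ℤ) : PadicAlgCl 2) - t.im * (1 - w) := by
        rw [em_apply]; push_cast; ring
      rw [e]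
      refine sub_le (even_le ?_) (hm _ h)
      exact ha.sub_odd odd_one

lemma four_mul_le {x : PadicAlgCl 2} (h : ‖x‖ ≤ 1 / 2) : ‖4 * x‖ ≤ 1 / 8 := by
  rw [norm_mul, norm_four']
  linarith

lemma eight_mul_le {x : PadicAlgCl 2} (h : ‖x‖ ≤ 1) : ‖8 * x‖ ≤ 1 / 8 := by
  rw [norm_mul, norm_eight']
  linarith

end ModP

theorem t_MOD : S_MOD := by
  intro i₀ hi ι D h4
  have hom : em (iw hi ι) om = ι i₀ := by
    rw [em_apply]
    simp [om]
  have hs : em (iw hi ι) s7 = 2 * ι i₀ - 1 := by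
    rw [em_apply]
    show ((-1 : ℤ) : PadicAlgCl 2) + ((2 : ℤ) : PadicAlgCl 2) * ι i₀ = _
    push_cast
    ring
  obtain ⟨t, ht⟩ := h4
  have hP : D = 1 + 4 * t := by linear_combination ht
  have hPe : em (iw hi ι) D = 1 + 4 * em (iw hi ι) t := by
    rw [hP, map_add, map_mul, map_one, map_ofNat]
  set w := ι i₀ with hwdef
  set T := em (iw hi ι) t with hT
  have hT1 : ‖T‖ ≤ 1 := em_le (iw hi ι) t
  have hs1 : ‖em (iw hi ι) s7‖ ≤ 1 := em_le (iw hi ι) s7
  have hw1 : ‖w‖ ≤ 1 := by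
    have := em_le (iw hi ι) om
    rwa [hom] at this
  have hwT : ‖w * T‖ ≤ 1 := by
    rw [norm_mul]
    nlinarith [norm_nonneg w, norm_nonneg T]
  constructor
  · intro h
    rw [hom] at h
    have h1 := norm_om_sub (iw hi ι) h
    have hhalf : ‖w‖ = 1 / 2 := half_norm (by linear_combination -(iw hi ι)) h
    have hb : ‖-(2 * ((w - 2) + 4))‖ ≤ 1 / 8 := by
      rw [norm_neg, norm_mul, Pool.Agent.Y715.Gi.norm_two']
      have h2 : ‖(w - 2) + 4‖ ≤ 1 / 4 := add_le h1.le norm_four'.le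
      linarith
    rcases ModP.red (iw hi ι) t (Or.inl hhalf.le) with hc | hc
    · right
      have e : em (iw hi ι) (-(s7 * D)) - 5 = -(2 * ((w - 2) + 4)) -
          4 * (em (iw hi ι) s7 * T) := by
        rw [map_neg, map_mul, hPe, hs]
        ring
      rw [e]
      refine sub_le hb (ModP.four_mul_le ?_)
      rw [norm_mul]
      have hc' : ‖T‖ ≤ 1 / 2 := hc
      nlinarith [norm_nonneg T, norm_nonneg (em (iw hi ι) s7)]
    · left
      have e : em (iw hi ι) (-(s7 * D)) - 1 = (-(2 * ((w - 2) + 4)) -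
          4 * (T - 1)) + 8 * (T - w * T) := by
        rw [map_neg, map_mul, hPe, hs]
        ring
      rw [e]
      exact add_le (sub_le hb (ModP.four_mul_le hc)) (ModP.eight_mul_le (sub_le hT1 hwT))
  · intro h
    rw [map_sub, map_one, hom] at h
    have h1 := norm_om_add (iw hi ι) h
    have hhalf : ‖1 - w‖ = 1 / 2 := half_norm (by linear_combination -(iw hi ι)) h
    have hb : ‖2 * ((w + 1) - 4)‖ ≤ 1 / 8 := by
      rw [norm_mul, Pool.Agent.Y715.Gi.norm_two']
      have h2 : ‖(w + 1) - 4‖ ≤ 1 / 4 := sub_le h1.le norm_four'.le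
      linarith
    rcases ModP.red (iw hi ι) t (Or.inr hhalf.le) with hc | hc
    · right
      have e : em (iw hi ι) (s7 * D) - 5 = 2 * ((w + 1) - 4) +
          4 * (em (iw hi ι) s7 * T) := by
        rw [map_mul, hPe, hs]
        ring
      rw [e]
      refine add_le hb (ModP.four_mul_le ?_)
      rw [norm_mul]
      have hc' : ‖T‖ ≤ 1 / 2 := hc
      nlinarith [norm_nonneg T, norm_nonneg (em (iw hi ι) s7)]
    · left
      have e : em (iw hi ι) (s7 * D) - 1 = (2 * ((w + 1) - 4) -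
          4 * (T - 1)) + 8 * (w * T) := by
        rw [map_mul, hPe, hs]
        ring
      rw [e]
      exact add_le (sub_le hb (ModP.four_mul_le hc)) (ModP.eight_mul_le hwT)

end Pool.Agent.NH57.BK
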