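import Pool.Agent.NH57.BK.Stm

/-! BK-11: the vanishing theorem over multiquadratic fields. -/

set_option autoImplicit false
set_option linter.unusedSectionVars false

namespace Pool.Agent.NH57.BK

open Pool.Agent.R384
open Pool.Agent.Y676.IS (Cu)
open Pool.Agent.Y715.Red Pool.Agent.Y715.Nr Pool.Agent.W237.RK
open Pool.Agent.Y715.Gi (QB KK GK)
open Pool.Agent.Y715.Df (Cmp)

open scoped Classical

namespace Mq78

theorem pm8_neg {e : ℤ} {z : ℤ_[2]} (h : Pm8 e z) : Pm8 e (-z) := by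
  rcases h with h | h
  · right
    have h1 := (dvd_neg (a := (8 : ℤ_[2]))).2 h
    have e1 : -(z - (e : ℤ_[2])) = -z + e := by ring
    rwa [e1] at h1
  · left
    have h1 := (dvd_neg (a := (8 : ℤ_[2]))).2 h
    have e1 : -(z + (e : ℤ_[2])) = -z - e := by ring
    rwa [e1] at h1

variable {i₀ : QB}

theorem pm8_mul {e : ℤ} {κ S : GK i₀ →* ℤ_[2]ˣ} {σ : GK i₀} (hS : S σ = 1 ∨ S σ = -1)
    (h : Pm8 e (κ σ)) : Pm8 e ((κ * S) σ) := by
  rw [MonoidHom.mul_apply, Units.val_mul]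
  rcases hS with h1 | h1
  · rw [h1, Units.val_one, mul_one]
    exact h
  · rw [h1, Units.val_neg, Units.val_one, mul_neg, mul_one]
    exact pm8_neg h

theorem k8_tw {κ κ' : GK i₀ →* ℤ_[2]ˣ} (h : K8 κ κ') {S : GK i₀ →* ℤ_[2]ˣ}
    (hS : ∀ σ, S σ = 1 ∨ S σ = -1) : K8 (κ * S) (κ' * S) :=
  ⟨fun s hs σ hσ => pm8_mul (hS σ) (h.fix s hs σ hσ),
    fun s hs σ hσ => pm8_mul (hS σ) (h.mov s hs σ hσ),
    fun s hs σ hσ => pm8_mul (hS σ) (h.fix' s hs σ hσ),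
    fun s hs σ hσ => pm8_mul (hS σ) (h.mov' s hs σ hσ)⟩

theorem sgc_pm {ε : GK i₀ →* ℤˣ} (σ : GK i₀) : sgc ε σ = 1 ∨ sgc ε σ = -1 := by
  rcases Int.units_eq_one_or (ε σ) with h | h
  · exact Or.inl (sgc_one h)
  · exact Or.inr (sgc_neg h)

theorem prod_pm {n : ℕ} (ε : Fin n → GK i₀ →* ℤˣ) (T : Finset (Fin n)) (σ : GK i₀) :
    (∏ i ∈ T, sgc (ε i)) σ = 1 ∨ (∏ i ∈ T, sgc (ε i)) σ = -1 := by
  induction T using Finset.induction_on with
  | empty =>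
    left
    rw [Finset.prod_empty]
    rfl
  | insert i T hiT ih =>
    rw [Finset.prod_insert hiT, MonoidHom.mul_apply]
    rcases sgc_pm (ε := ε i) σ with h1 | h1 <;> rcases ih with h2 | h2 <;> rw [h1, h2]
    · left
      rw [one_mul]
    · right
      rw [one_mul]
    · right
      rw [mul_one]
    · left
      rw [neg_mul_neg, one_mul]

end Mq78

open Mq78 in
theorem t_MQ : S_MQ := by
  intro hV i₀ hi κ κ' D r I n s E hE kd k8 hD hE0 hgood j ϖ hϖ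
  have hs0 : ∀ i, s i ≠ 0 := by
    intro i h
    have h1 := hE i
    rw [h, zero_pow two_ne_zero] at h1
    exact hE0 i (em_inj hi h1.symm)
  have hs : ∀ (i) (σ : GK i₀), σ (s i) = s i ∨ σ (s i) = -s i := fun i σ => rt_or hi (hE i) σ
  refine van_all hi hs0 hs ϖ Finset.univ _ fun T _ => ?_
  obtain ⟨S', z, hgS, hz, hprod⟩ := hgood T
  have kd1 := KD.twists hi hs0 hs hE kd hD hE0 T
  have hz0 : em hi z ≠ 0 := em_ne hi hz
  have kd2 := KD.resc hi kd1 (D' := -(s7 * ∏ q ∈ S', q)) (u := (em hi z)⁻¹) (inv_ne_zero hz0)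
    (fun σ => by rw [map_inv₀, gk_em]) (by
      rw [mul_pow, kd1.hr, hprod, map_mul, map_pow]
      field_simp)
  have k82 : K8 (κ * ∏ i ∈ T, sgc (es (hs0 i) (hs i))) (κ' * ∏ i ∈ T, sgc (es (hs0 i) (hs i))) :=
    k8_tw k8 (prod_pm (fun i => es (hs0 i) (hs i)) T)
  set S := ∏ i ∈ T, sgc (es (hs0 i) (hs i)) with hS
  have e : κ ^ j * κ' ^ (1 - j) * S = (κ * S) ^ j * (κ' * S) ^ (1 - j) := by
    refine MonoidHom.ext fun σ => ?_
    have key : ∀ a b c : ℤ_[2]ˣ, a ^ j * b ^ (1 - j) * c = (a * c) ^ j * (b * c) ^ (1 - j) :=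
      fun a b c => by
        rw [mul_zpow, mul_zpow, mul_mul_mul_comm, ← zpow_add, add_sub_cancel, zpow_one]
    exact key _ _ _
  intro c hc hodd hstr
  rw [e] at hc hodd hstr ⊢
  obtain ⟨y, hy⟩ := hV hi hgS kd2 k82 j hϖ
    (c := c) ⟨by
      have := hc.cont
      rwa [Subgroup.coe_top, continuousOn_univ] at this, fun σ τ => hc.mul σ trivial τ trivial⟩
    (fun p _ ι hp => by
      obtain ⟨y, hy⟩ := hodd p ι hp
      exact ⟨y, fun σ hσ => hy σ hσ trivial⟩)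
    (fun ι hι => by
      obtain ⟨y, hy⟩ := hstr ι hι
      exact ⟨y, fun σ hσ => hy σ hσ trivial⟩)
  exact ⟨y, fun σ _ => hy σ⟩

end Pool.Agent.NH57.BK
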