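import Pool.Agent.R384.X.Mq7

/-!
# Project BK (helper57): Bloch–Kato Selmer groups of all weights `2k`, `k` odd, for a positive proportion
# of all the quadratic twists of `X_0(49)` over `K = ℚ(√-7)`

`E_D` is the twist of `X_0(49)` by any squarefree `D = 1` modulo `4` of `ℤ[ω]` prime to `√-7`, with prime
factors of all types. If the matrix over `𝔽₂` of the quadratic residue symbols of the primary prime
factors of `D` is not singular (`GoodS`; equivalent to `E_D(K)` finite and `Ш(E_D/K)[2] = 0`, see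
`MP_e996df_nt/TwoPartTwistsX49`; this holds for exactly the proportion `0.288…` of the `D`), then the
Bloch–Kato Selmer groups of `ℚ_2(κ^j κ'^(1-j))` and `ℚ_2(κ^(1-j) κ'^j)` are zero for all odd `j > 0`.
Statements of the parts. The templates are the files `Pool/Agent/R384/**` (the case that all prime
factors are `1` modulo `4` and `D = 1` modulo `8`).

Notation of `R384`: `OO = ℤ[ω]`, `om = ω`, `s7 = 2 ω - 1`, `em hw : OO →+* L` for `hw : w ^ 2 = w - 2`,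
`QB` algebraic closure of `ℚ`, `i₀ : QB` a root of `x² - x + 2`, `GK i₀` the Galois group over
`K = ℚ(i₀)`, `DD ι`, `II ι` decomposition and inertia group of the embedding `ι` of `QB` in
`PadicAlgCl p`.
-/

set_option autoImplicit false
set_option linter.unusedVariables false

namespace Pool.Agent.NH57.BK

open Pool.Agent.R384
open Pool.Agent.Y676.IS (Cu)
open Pool.Agent.Y715.Red Pool.Agent.Y715.Nr Pool.Agent.W237.RK
open Pool.Agent.Y715.Gi (QB KK GK)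
open Pool.Agent.Y715.Df (Cmp)

open scoped Classical

/-! ### The characters modulo eight -/

/-- the `2`-adic integer is `± e` modulo eight -/
def Pm8 (e : ℤ) (z : ℤ_[2]) : Prop := (8 : ℤ_[2]) ∣ z - e ∨ (8 : ℤ_[2]) ∣ z + e

/-- The characters modulo eight: `κ` is `± 1` on the elements that fix `√-ω`, and `± 5` on the other ones;
`κ'` is `± 1` on the elements that fix `√-(1 - ω)`, and `± 5` on the other ones. -/
structure K8 {i₀ : QB} (κ κ' : GK i₀ →* ℤ_[2]ˣ) : Prop where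
  fix : ∀ s : QB, s ^ 2 = -i₀ → ∀ σ : GK i₀, σ s = s → Pm8 1 (κ σ)
  mov : ∀ s : QB, s ^ 2 = -i₀ → ∀ σ : GK i₀, σ s = -s → Pm8 5 (κ σ)
  fix' : ∀ s : QB, s ^ 2 = -(1 - i₀) → ∀ σ : GK i₀, σ s = s → Pm8 1 (κ' σ)
  mov' : ∀ s : QB, s ^ 2 = -(1 - i₀) → ∀ σ : GK i₀, σ s = -s → Pm8 5 (κ' σ)

/-- BK-1: the characters of the curve, with the values modulo eight (strengthening of
`R384.exists_kd`, `Pool/Agent/R384/End.lean`) -/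
def S_K8 : Prop := ∀ {i₀ : QB} (hi : i₀ ^ 2 = i₀ - 2) {D : OO} (hD : D ≠ 0)
  (h : WD i₀ (em hi D)) {r I : QB} (hr : r ^ 2 = em hi D) (hI : I ^ 2 = -1)
  (fx : ∀ σ : GK i₀, Fx i₀ (em hi D) (rh σ)),
  ∃ (κ κ' : GK i₀ →* ℤ_[2]ˣ) (x y : ℕ → (Cu (ca i₀ (em hi D)) (cb i₀ (em hi D))).Point),
    KD hi κ κ' D r I ∧ K8 κ κ' ∧ Tow (eF h) (tA h) x ∧ Tow (eG h) (tB h) y ∧
    (∀ σ, ActsBy x (R384.act h fx σ) (κ' σ)) ∧ ∀ σ, ActsBy y (R384.act h fx σ) (κ σ)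

/-- A character `χ` that is quadratic modulo four and on the inertia groups (`ChiD`, `m = r ^ 2`), with its
values modulo eight: `± 1` on the elements that fix `√-ϖ'`, and `± 5` on the other ones. `ϖ'` is the place
above two without local condition, the other place is `2 / ϖ'`. -/
structure C8 {i₀ : QB} (hi : i₀ ^ 2 = i₀ - 2) (χ : GK i₀ →* ℤ_[2]ˣ) (m : OO) (r : QB) (ϖ' : OO) :
    Prop where
  cd : ChiD hi χ m r
  fix : ∀ s : QB, s ^ 2 = -em hi ϖ' → ∀ σ : GK i₀, σ s = s → Pm8 1 (χ σ)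
  mov : ∀ s : QB, s ^ 2 = -em hi ϖ' → ∀ σ : GK i₀, σ s = -s → Pm8 5 (χ σ)

/-- the two places above two: `ϖ` with the strict local condition, `ϖ'` without local condition -/
def Pl (ϖ ϖ' : OO) : Prop := (ϖ = om ∧ ϖ' = 1 - om) ∨ (ϖ = 1 - om ∧ ϖ' = om)

/-- BK-2: the characters `κ^j κ'^(1-j)` (compare `R384.chiD7`, `Pool/Agent/R384/X/Main7.lean`) -/
def S_C8 : Prop := ∀ {i₀ : QB} (hi : i₀ ^ 2 = i₀ - 2) {κ κ' : GK i₀ →* ℤ_[2]ˣ} {D : OO} {r I : QB},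
  KD hi κ κ' D r I → K8 κ κ' → ∀ j : ℤ,
  (Even j → ∃ s : QB, C8 hi (κ ^ j * κ' ^ (1 - j)) D s (1 - om)) ∧
  (Odd j → ∃ s : QB, C8 hi (κ ^ j * κ' ^ (1 - j)) (-D) s om)

/-- `x` is `1` or `5` modulo eight -/
def M15 (x : PadicAlgCl 2) : Prop := ‖x - 1‖ ≤ 1 / 8 ∨ ‖x - 5‖ ≤ 1 / 8

/-- BK-3: the sizes at the two places above two (compare `R384.s7_five`,
`Pool/Agent/R384/X/Main7.lean`) -/
def S_MOD : Prop := ∀ {i₀ : QB} (hi : i₀ ^ 2 = i₀ - 2) (ι : QB →ₐ[ℚ] PadicAlgCl 2) (D : OO),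
  (4 : OO) ∣ D - 1 →
  (‖em (iw hi ι) om‖ < 1 → M15 (em (iw hi ι) (-(s7 * D)))) ∧
  (‖em (iw hi ι) (1 - om)‖ < 1 → M15 (em (iw hi ι) (s7 * D)))

/-- BK-4: the local condition at the strict place: `δ` is prime to it and `1` modulo four (compare
`R384.loc_strict5`, `Pool/Agent/R384/X/Main7.lean`, which is the case that `m` is `5` modulo eight) -/
def S_STR : Prop := ∀ {i₀ : QB} (hi : i₀ ^ 2 = i₀ - 2) {χ : GK i₀ →* ℤ_[2]ˣ} {m : OO} {r : QB}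
  {ϖ ϖ' : OO}, Pl ϖ ϖ' → C8 hi χ m r ϖ' →
  ∀ (ι : QB →ₐ[ℚ] PadicAlgCl 2), ‖em (iw hi ι) ϖ‖ < 1 → M15 (em (iw hi ι) m) →
  ∀ (c : GK i₀ → ℚ_[2]), (∀ σ, ‖c σ‖ ≤ 1) → CobOn χ (DD ι) c →
  ∀ (δ : OO) (s : QB), Squarefree δ → s ^ 2 = em hi δ → (∀ σ : GK i₀, σ s = s ↔ md c σ = 0) →
  ¬ ϖ ∣ δ ∧ ‖em (iw hi ι) δ - 1‖ ≤ 1 / 4

/-- BK-5: Hilbert's theorem 90 for a locally constant cocycle on the stabilizer of two elements -/
def S_H90 : Prop := ∀ {i₀ : QB} (a u : QB) (f : GK i₀ → QB), IsLocallyConstant f →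
  (∀ σ, f σ ≠ 0) →
  (∀ σ : GK i₀, σ a = a → σ u = u → ∀ τ : GK i₀, τ a = a → τ u = u → f (σ * τ) = f σ * σ (f τ)) →
  ∃ β : QB, β ≠ 0 ∧ ∀ σ : GK i₀, σ a = a → σ u = u → σ β = f σ * β

/-- BK-6: the norms of the elements of `ℚ_2(√5)` are powers of two -/
def S_VAL : Prop := ∀ (u y : PadicAlgCl 2), (∀ τ : Au 2, τ (u ^ 2) = u ^ 2) → ‖u ^ 2 - 5‖ ≤ 1 / 8 →
  y ≠ 0 → (∀ τ : Au 2, τ u = u → τ y = y) → ∃ k : ℤ, ‖y‖ = (2 : ℝ) ^ k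

/-- the obstruction at the free place -/
def Fre : Prop := ∀ {i₀ : QB} (hi : i₀ ^ 2 = i₀ - 2) (ι : QB →ₐ[ℚ] PadicAlgCl 2)
  (a u s : QB) (e : OO) (N : ℕ) (f : GK i₀ → QB), 1 ≤ N →
  (∀ σ ∈ (DD ι : Set (GK i₀)), σ a = a) → u ^ 2 = em hi e → ‖em (iw hi ι) e - 5‖ ≤ 1 / 8 → s ≠ 0 →
  IsLocallyConstant f → (∀ σ, f σ ^ (2 * N) = 1) →
  (∀ σ : GK i₀, σ a = a → σ s = f σ ^ N * s) →
  (∀ σ : GK i₀, σ a = a → ∀ τ : GK i₀, τ a = a →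
    f (σ * τ) = if σ u = u then f σ * σ (f τ) else f σ * σ (f τ) * f τ ^ N) →
  ∃ k : ℤ, ‖ι s‖ = (2 : ℝ) ^ k

/-- BK-7: the obstruction at the free place -/
def S_FREA : Prop := S_H90 → S_VAL → Fre

/-- the local condition at the free place: `δ` is prime to it -/
def S_FRE : Prop := ∀ {i₀ : QB} (hi : i₀ ^ 2 = i₀ - 2) {χ : GK i₀ →* ℤ_[2]ˣ} {m : OO} {r : QB}
  {ϖ ϖ' : OO}, Pl ϖ ϖ' → C8 hi χ m r ϖ' →
  ∀ (ι : QB →ₐ[ℚ] PadicAlgCl 2), ‖em (iw hi ι) ϖ'‖ < 1 → M15 (em (iw hi ι) (-m)) →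
  ∀ (c : GK i₀ → ℚ_[2]), Coc χ c → (∀ σ, ‖c σ‖ ≤ 1) →
  ∀ (δ : OO) (s : QB), Squarefree δ → s ^ 2 = em hi δ → (∀ σ : GK i₀, σ s = s ↔ md c σ = 0) →
  ¬ ϖ' ∣ δ

/-- BK-8: from the obstruction to the local condition -/
def S_FREB : Prop := Fre → S_FRE

/-! ### The global part -/

lemma h2 : (2 : ZMod 4) ^ 2 = 2 - 2 := by decide

/-- the primary primes: prime to `2 √-7` and `1` modulo `ω²` -/
structure Pp (q : OO) : Prop where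
  prime : Prime q
  one : em h2 q = 1
  odd : ¬ (1 - om) ∣ q
  sev : ¬ s7 ∣ q

/-- `1` if the norm is `3` modulo `4` (that is, `q = -1` modulo `(1 - ω)²`), otherwise `0` -/
noncomputable def tO (q : OO) : ZMod 2 := if nn q % 4 = 3 then 1 else 0

/-- the quadratic reciprocity law (proved in the library `R426`; a hypothesis of the parts); recall that
`qs q x` is `0` if `x` is a square modulo `q`, otherwise `1` -/
def S_REC : Prop := (∀ π ρ : OO, Pp π → Pp ρ → π ≠ ρ → qs π ρ + qs ρ π = tO π * tO ρ) ∧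
  ∀ π : OO, Pp π → qs π s7 = qs s7 π ∧ qs π (-1) = tO π

/-- The good sets of primary primes: the product is `1` modulo `4` and the matrix of the symbols is not
singular. -/
structure GoodS (S : Finset OO) : Prop where
  pp : ∀ q ∈ S, Pp q
  one : (4 : OO) ∣ ∏ q ∈ S, q - 1
  reg : ∀ v : OO → ZMod 2,
    (∀ π ∈ S, qs s7 π * v π + ∑ ρ ∈ S, qs ρ π * (v π + v ρ) = 0) → ∀ π ∈ S, v π = 0

/-- BK-9: the elements that satisfy the local conditions (compare `R384.alg7`,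
`Pool/Agent/R384/X/Alg7.lean`) -/
def S_ALG : Prop := S_REC → ∀ (S : Finset OO), GoodS S → ∀ (m ϖ ϖ' δ : OO) (w4 : ZMod 4)
  (hw4 : w4 ^ 2 = w4 - 2),
  ((m = -(s7 * ∏ q ∈ S, q) ∧ ϖ = om ∧ ϖ' = 1 - om ∧ w4 = 2) ∨
    (m = s7 * ∏ q ∈ S, q ∧ ϖ = 1 - om ∧ ϖ' = om ∧ w4 = 3)) →
  Squarefree δ → ¬ ϖ ∣ δ → ¬ ϖ' ∣ δ → em hw4 δ = 1 →
  (∀ π : OO, Prime π → π ∣ δ → ¬ π ∣ 2 → π ∣ m) →
  (∀ q : OO, Prime q → q ∣ m → (¬ q ∣ δ ∧ Sqm q δ) ∨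
    ∃ δ1 m1, δ = q * δ1 ∧ m = q * m1 ∧ Sqm q (δ1 * m1)) →
  δ = 1 ∨ δ = m

/-- the vanishing theorem over `K` (compare `R384.main7`, `R384.vanish7`) -/
def Van : Prop :=
  ∀ {i₀ : QB} (hi : i₀ ^ 2 = i₀ - 2) {κ κ' : GK i₀ →* ℤ_[2]ˣ} {S : Finset OO} {r I : QB},
  GoodS S → KD hi κ κ' (-(s7 * ∏ q ∈ S, q)) r I → K8 κ κ' →
  ∀ (j : ℤ) {ϖ : OO}, (Even j ∧ ϖ = om) ∨ (Odd j ∧ ϖ = 1 - om) →
  ∀ {c : GK i₀ → ℚ_[2]}, Coc (κ ^ j * κ' ^ (1 - j)) c →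
  (∀ (p : ℕ) [Fact p.Prime] (ι : QB →ₐ[ℚ] PadicAlgCl p), p ≠ 2 →
      CobOn (κ ^ j * κ' ^ (1 - j)) (II ι) c) →
  (∀ ι : QB →ₐ[ℚ] PadicAlgCl 2, ‖ι (em hi ϖ)‖ < 1 → CobOn (κ ^ j * κ' ^ (1 - j)) (DD ι) c) →
  ∃ y : ℚ_[2], ∀ σ, c σ = (vl (κ ^ j * κ' ^ (1 - j)) σ - 1) * y

/-- BK-10: the assembly (compare `Pool/Agent/R384/X/Main7.lean`) -/
def S_MAIN : Prop := S_C8 → S_MOD → S_STR → S_FRE → S_ALG → S_REC → Van

/-- BK-11: the vanishing theorem over multiquadratic fields (compare `R384.vanish_mq`,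
`Pool/Agent/R384/X/Mq7.lean`) -/
def S_MQ : Prop := Van → ∀ {i₀ : QB} (hi : i₀ ^ 2 = i₀ - 2) {κ κ' : GK i₀ →* ℤ_[2]ˣ} {D : OO}
  {r I : QB} {n : ℕ} {s : Fin n → QB} {E : Fin n → OO}, (∀ i, s i ^ 2 = em hi (E i)) →
  KD hi κ κ' D r I → K8 κ κ' → D ≠ 0 → (∀ i, E i ≠ 0) →
  (∀ T : Finset (Fin n), ∃ (S : Finset OO) (z : OO), GoodS S ∧ z ≠ 0 ∧
      D * ∏ i ∈ T, E i = -(s7 * ∏ q ∈ S, q) * z ^ 2) →
  ∀ (j : ℤ) {ϖ : OO}, (Even j ∧ ϖ = om) ∨ (Odd j ∧ ϖ = 1 - om) →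
  VanOn hi ϖ (κ ^ j * κ' ^ (1 - j)) (fixs s Finset.univ)

end Pool.Agent.NH57.BK
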