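import Pool.Agent.NH57.BK.Stm

/-!
# BK-4: the local condition at the strict place (helper72)
-/

set_option autoImplicit false
set_option linter.unusedSectionVars false

namespace Pool.Agent.NH57.BK.Str

open Pool.Agent.R384
open Pool.Agent.Y676.IS (Cu)
open Pool.Agent.Y715.Red Pool.Agent.Y715.Nr Pool.Agent.W237.RK
open Pool.Agent.Y715.Gi (QB KK GK)
open Pool.Agent.Y715.Df (Cmp)

open scoped Classical

/-- a square root of a number that is `1` modulo eight is fixed -/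
lemma root_fix {t X : PadicAlgCl 2} (ht : t ^ 2 = X) (hX : ‖X - 1‖ ≤ 1 / 8) (τ : Au 2)
    (h : τ t = -t) : False := by
  have h1 : ‖t + 1‖ = ‖t - 1‖ := by
    have e : t + 1 = -(τ (t - 1)) := by rw [map_sub, map_one, h]; ring
    rw [e, norm_neg, nrm]
  have h2 : ‖t - 1‖ * ‖t + 1‖ ≤ 1 / 8 := by
    rw [← norm_mul]
    have e : (t - 1) * (t + 1) = X - 1 := by rw [← ht]; ring
    rw [e]
    exact hX
  rw [h1] at h2
  have h3 : ‖(2 : PadicAlgCl 2)‖ ≤ ‖t - 1‖ := by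
    have e : (2 : PadicAlgCl 2) = (t + 1) - (t - 1) := by ring
    rw [e]
    exact sub_le h1.le le_rfl
  rw [Pool.Agent.Y715.Gi.norm_two'] at h3
  nlinarith [norm_nonneg (t - 1)]

lemma norm_of_eight {z : ℤ_[2]} (h : (8 : ℤ_[2]) ∣ z) : ‖(z : ℚ_[2])‖ ≤ 1 / 8 := by
  obtain ⟨c, rfl⟩ := h
  rw [PadicInt.padic_norm_e_of_padicInt, norm_mul]
  have h4 : ‖(8 : ℤ_[2])‖ = 1 / 8 := by
    have e : (8 : ℤ_[2]) = ((2 : ℕ) : ℤ_[2]) ^ 3 := by norm_num
    rw [e, norm_pow, PadicInt.norm_p]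
    norm_num
  rw [h4]
  have := PadicInt.norm_le_one c
  linarith

lemma not_four_two (h : (4 : ℤ_[2]) ∣ 2) : False := by
  have h1 := norm_of_four h
  have e : (((2 : ℤ_[2])) : ℚ_[2]) = 2 := rfl
  rw [e, Pool.Agent.R384.norm_two'] at h1
  norm_num at h1

/-- the sign is determined modulo four -/
lemma sign_one {z : ℤ_[2]} (h4 : (4 : ℤ_[2]) ∣ z - 1) (h : Pm8 1 z) : (8 : ℤ_[2]) ∣ z - 1 := by
  rcases h with h | h
  · push_cast at h
    exact h
  · exfalso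
    push_cast at h
    have h1 : (4 : ℤ_[2]) ∣ z + 1 := (Dvd.intro 2 (by norm_num)).trans h
    have h2 := dvd_sub h1 h4
    rw [show z + 1 - (z - 1) = 2 by ring] at h2
    exact not_four_two h2

lemma sign_five {z : ℤ_[2]} (h4 : (4 : ℤ_[2]) ∣ z - 1) (h : Pm8 5 z) : (8 : ℤ_[2]) ∣ z - 5 := by
  rcases h with h | h
  · push_cast at h
    exact h
  · exfalso
    push_cast at h
    have h1 : (4 : ℤ_[2]) ∣ z + 5 := (Dvd.intro 2 (by norm_num)).trans h
    have h2 := dvd_sub (dvd_sub h1 h4) (dvd_refl 4)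
    rw [show z + 5 - (z - 1) - 4 = 2 by ring] at h2
    exact not_four_two h2

variable {i₀ : QB} (hi : i₀ ^ 2 = i₀ - 2)

/-- there is an element of the decomposition group that moves `√x`, if `x = 5` modulo `8` -/
lemma exists_dec {x : OO} {r : QB} (hr : r ^ 2 = em hi x) (ι : QB →ₐ[ℚ] PadicAlgCl 2)
    (h5 : ‖em (iw hi ι) x - 5‖ ≤ 1 / 8) : ∃ σ ∈ (DD ι : Set (GK i₀)), σ r = -r := by
  by_contra hcon
  push Not at hcon
  have hfix : ∀ τ : Au 2, τ (ι r) = ι r := by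
    intro τ
    refine fix_D (fun σ hσ => ?_) τ (two_fix (iw hi ι) τ)
    rcases rt_or hi hr σ with h | h
    · exact h
    · exact absurd h (hcon σ hσ)
  have h1 : (ι r) ^ 2 = em (iw hi ι) x := by rw [← map_pow, hr, ι_em]
  have h2 : ‖ι r‖ = 1 := by
    have h3 := norm_one_of5 h5
    rw [← h1, norm_pow] at h3
    exact (pow_eq_one_iff_of_nonneg (norm_nonneg _) two_ne_zero).1 h3
  have h3 := sq_mod_eight h2 hfix
  rw [h1] at h3
  have h6 : ‖((5 - 1 : ℤ) : PadicAlgCl 2)‖ ≤ 1 / 8 := by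
    have e : ((5 - 1 : ℤ) : PadicAlgCl 2) = (em (iw hi ι) x - 1) - (em (iw hi ι) x - 5) := by
      push_cast
      ring
    rw [e]
    exact sub_le h3 h5
  rw [even_norm (z := 5 - 1) (k := 1) (n := 2) (by norm_num) (by norm_num)] at h6
  norm_num at h6

/-- the other prime is `-5` modulo eight at the strict place -/
lemma other_five {ϖ ϖ' : OO} (hP : Pl ϖ ϖ') {w : PadicAlgCl 2} (hw : w ^ 2 = w - 2)
    (h : ‖em hw ϖ‖ < 1) : ‖em hw (-ϖ') - 5‖ ≤ 1 / 8 := by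
  have hom : em hw om = w := by
    rw [em_apply]
    simp [om]
  have h32 : ‖(w - 6) * (w + 5)‖ = 1 / 32 := by
    have e : (w - 6) * (w + 5) = -(2 ^ 5) := by linear_combination hw
    rw [e, norm_neg, norm_pow, Pool.Agent.Y715.Gi.norm_two']
    norm_num
  rw [norm_mul] at h32
  have h5 : ‖((5 : ℤ) : PadicAlgCl 2)‖ = 1 := odd_norm (by norm_num)
  push_cast at h5
  rcases hP with ⟨rfl, rfl⟩ | ⟨rfl, rfl⟩
  · rw [hom] at h
    have h1 : ‖w + 5‖ = 1 := by
      rw [add_comm, eq_of_lt (by rw [h5]; exact h), h5]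
    rw [h1, mul_one] at h32
    have e : em hw (-(1 - om)) - 5 = w - 6 := by
      rw [map_neg, map_sub, map_one, hom]
      ring
    rw [e, h32]
    norm_num
  · rw [map_sub, map_one, hom] at h
    have h1 : ‖w - 6‖ = 1 := by
      have e : w - 6 = -(5 + (1 - w)) := by ring
      rw [e, norm_neg, eq_of_lt (by rw [h5]; exact h), h5]
    rw [h1, one_mul] at h32
    have e : em hw (-om) - 5 = -(w + 5) := by
      rw [map_neg, hom]
      ring
    rw [e, norm_neg, h32]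
    norm_num

/-- the last step: if `δ x = 1` modulo eight and `x = 5` modulo eight then `δ = 1` modulo four -/
lemma last_step {A X Y : PadicAlgCl 2} (hA : ‖A‖ ≤ 1) (hX : ‖X - 5‖ ≤ 1 / 8) (hY : A * X = Y)
    (h : ‖Y - 1‖ ≤ 1 / 8) : ‖A - 1‖ ≤ 1 / 4 := by
  have e : A - 1 = A * (-(X - 5) - 4) + (Y - 1) := by rw [← hY]; ring
  rw [e]
  refine add_le ?_ (h.trans (by norm_num))
  rw [norm_mul]
  have h1 : ‖-(X - 5) - 4‖ ≤ 1 / 4 :=
    sub_le (by rw [norm_neg]; exact hX.trans (by norm_num)) norm_four'.le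
  calc ‖A‖ * ‖-(X - 5) - 4‖ ≤ 1 * (1 / 4) :=
        mul_le_mul hA h1 (norm_nonneg _) zero_le_one
    _ = 1 / 4 := by norm_num

end Pool.Agent.NH57.BK.Str

namespace Pool.Agent.NH57.BK

open Pool.Agent.R384
open Pool.Agent.Y676.IS (Cu)
open Pool.Agent.Y715.Red Pool.Agent.Y715.Nr Pool.Agent.W237.RK
open Pool.Agent.Y715.Gi (QB KK GK)
open Pool.Agent.Y715.Df (Cmp)
open Str

open scoped Classical

theorem t_STR : S_STR := by
  intro i₀ hi χ m r ϖ ϖ' hP h8 ι hι hm c hc1 hD δ s hδ hs hk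
  have hϖ : Prime ϖ := by
    rcases hP with ⟨rfl, -⟩ | ⟨rfl, -⟩
    · exact prime_om
    · exact prime_om'
  have hδ1 := em_le (iw hi ι) δ
  rcases hm with hm1 | hm5
  swap
  · -- `m` is five modulo eight
    obtain ⟨h1, h2⟩ := loc_strict5 hi h8.cd hc1 hϖ hι hm5 hD hδ hs hk
    refine ⟨h1, ?_⟩
    rcases h2 with h2 | h2
    · exact h2.trans (by norm_num)
    · exact last_step hδ1 hm5 (map_mul _ _ _).symm h2
  -- `m` is one modulo eight
  have h4 : ∀ σ ∈ (DD ι : Set (GK i₀)), (4 : ℤ_[2]) ∣ (χ σ : ℤ_[2]) - 1 := by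
    intro σ hσ
    rcases rt_or hi h8.cd.hr σ with h | h
    · exact h8.cd.one σ h
    · exfalso
      obtain ⟨τ, hτ⟩ := hσ
      refine root_fix (t := ι r) (X := em (iw hi ι) m) ?_ hm1 τ ?_
      · rw [← map_pow, h8.cd.hr, ι_em]
      · rw [hτ]
        exact (congrArg ι h).trans (map_neg ι r)
  obtain ⟨s8, hs8'⟩ : ∃ s8 : QB, s8 ^ 2 = -em hi ϖ' :=
    IsAlgClosed.exists_pow_nat_eq _ (by norm_num)
  have hs8 : s8 ^ 2 = em hi (-ϖ') := by rw [hs8', map_neg]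
  have h5 := other_five hP (iw hi ι) hι
  obtain ⟨σ₀, h0, h0'⟩ := exists_dec hi hs8 ι h5
  have hcast : ∀ (σ : GK i₀) (e : ℤ), (((χ σ : ℤ_[2]) - (e : ℤ_[2]) : ℤ_[2]) : ℚ_[2]) =
      vl χ σ - (e : ℚ_[2]) := by
    intro σ e
    unfold vl
    push_cast
    rfl
  -- the sizes
  have hfix : ∀ σ ∈ (DD ι : Set (GK i₀)), σ s8 = s8 → ‖vl χ σ - 1‖ ≤ 1 / 8 := by
    intro σ hσ h
    have h1 := norm_of_eight (sign_one (h4 σ hσ) (h8.fix s8 hs8' σ h))
    have h2 := hcast σ 1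
    push_cast at h2 h1
    rwa [h2] at h1
  have hmov : ∀ σ ∈ (DD ι : Set (GK i₀)), σ s8 = -s8 → ‖vl χ σ - 1‖ = 1 / 4 := by
    intro σ hσ h
    have h1 := norm_of_eight (sign_five (h4 σ hσ) (h8.mov s8 hs8' σ h))
    have h2 := hcast σ 5
    push_cast at h2 h1
    rw [h2] at h1
    have h3 := norm_of_four (h4 σ hσ)
    have h3' := hcast σ 1
    push_cast at h3' h3
    rw [h3'] at h3
    refine le_antisymm h3 ?_
    by_contra hcon
    push Not at hcon
    have h6 : ‖(2 : ℚ_[2]) ^ 2‖ < 1 / 4 := by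
      have e2 : (2 : ℚ_[2]) ^ 2 = (vl χ σ - 1) + -(vl χ σ - 5) := by ring
      rw [e2]
      exact add_lt' hcon (by rw [norm_neg]; linarith)
    rw [norm_pow, Pool.Agent.R384.norm_two'] at h6
    norm_num at h6
  have hle : ∀ σ ∈ (DD ι : Set (GK i₀)), ‖vl χ σ - 1‖ ≤ 1 / 4 := by
    intro σ hσ
    rcases rt_or hi hs8 σ with h | h
    · exact (hfix σ hσ h).trans (by norm_num)
    · exact (hmov σ hσ h).le
  obtain ⟨y, hy⟩ := hD
  have hy4 : ‖y‖ ≤ 4 := by
    have h1 := hc1 σ₀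
    rw [hy σ₀ h0, norm_mul, hmov σ₀ h0 h0'] at h1
    linarith
  have hsq : (ι s) ^ 2 = em (iw hi ι) δ := by rw [← map_pow, hs, ι_em]
  have key : ∀ {x : OO} {y : PadicAlgCl 2}, y ^ 2 = em (iw hi ι) x → ¬ ϖ ∣ x →
      (∀ τ : Au 2, τ y = y) → ‖em (iw hi ι) x - 1‖ ≤ 1 / 8 := by
    intro x y hy hx hfix
    have h3 := eq_one_of_not_lt (iw hi ι) ((dvd_iff (iw hi ι) hϖ hι x).not.1 hx)
    rw [← hy, norm_pow] at h3
    rw [← hy]
    exact sq_mod_eight ((pow_eq_one_iff_of_nonneg (norm_nonneg _) two_ne_zero).1 h3) hfix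
  rcases hy4.lt_or_eq with hlt | heq
  · -- the cocycle is trivial modulo two
    have hy2 : ‖y‖ ≤ 2 := by
      have h1 : ‖y * 2 ^ 2‖ < 1 := by
        rw [norm_mul, norm_pow, Pool.Agent.R384.norm_two']
        linarith
      have h2 := norm_lt_one h1
      rw [norm_mul, norm_pow, Pool.Agent.R384.norm_two'] at h2
      linarith
    have hfx : ∀ σ ∈ (DD ι : Set (GK i₀)), σ s = s := by
      intro σ hσ
      rw [hk, md_zero, hy σ hσ, norm_mul]
      have h1 := hle σ hσ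
      nlinarith [norm_nonneg y, norm_nonneg (vl χ σ - 1)]
    have h3 := not_dvd_of_fix (iw hi ι) hϖ hι hδ hsq fun τ _ hτ => fix_D hfx τ hτ
    exact ⟨h3, (key hsq h3 fun τ => fix_D hfx τ (two_fix (iw hi ι) τ)).trans (by norm_num)⟩
  · -- the cocycle is the class of `-ϖ'` modulo two
    have hiff : ∀ σ ∈ (DD ι : Set (GK i₀)), (σ s = s ↔ σ s8 = s8) := by
      intro σ hσ
      rw [hk, md_zero, hy σ hσ, norm_mul, heq]
      constructor
      · intro h
        rcases rt_or hi hs8 σ with h1 | h1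
        · exact h1
        · rw [hmov σ hσ h1] at h
          norm_num at h
      · intro h
        have := hfix σ hσ h
        linarith
    have hfx : ∀ σ ∈ (DD ι : Set (GK i₀)), σ (s * s8) = s * s8 := by
      intro σ hσ
      rw [map_mul]
      rcases rt_or hi hs8 σ with h1 | h1
      · rw [h1, (hiff σ hσ).2 h1]
      · rcases rt_or hi hs σ with h2 | h2
        · rw [h2, (hiff σ hσ).1 h2]
        · rw [h1, h2]
          ring
    have hϖ' : ¬ ϖ ∣ -ϖ' := by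
      rw [dvd_iff (iw hi ι) hϖ hι, norm_one_of5 h5]
      exact lt_irrefl _
    have hsr : (ι (s * s8)) ^ 2 = em (iw hi ι) (δ * -ϖ') := by
      rw [← map_pow, mul_pow, hs, hs8, ← map_mul, ι_em]
    have h3 : ¬ ϖ ∣ δ := by
      rintro ⟨t, ht⟩
      have h4 : ¬ ϖ ∣ t := by
        rintro ⟨v, rfl⟩
        exact hϖ.not_isUnit (hδ ϖ ⟨v, by rw [ht]; ring⟩)
      refine no_simple (iw hi ι) hϖ hι (t := t * -ϖ') (s := ι (s * s8))
        (fun h => (hϖ.dvd_or_dvd h).elim h4 hϖ') ?_ fun τ _ hτ => fix_D hfx τ hτ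
      rw [hsr, ht]
      congr 1
      ring
    have h6 := key hsr (fun h => (hϖ.dvd_or_dvd h).elim h3 hϖ')
      fun τ => fix_D hfx τ (two_fix (iw hi ι) τ)
    exact ⟨h3, last_step hδ1 h5 (map_mul _ _ _).symm h6⟩

end Pool.Agent.NH57.BK
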