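import Pool.Agent.NH57.BK.Stm
import Pool.Agent.R426.QK.Sym

/-!
# The ring `ℤ[ω]` of `R384` and the ring of `R426`: reciprocity, good sets
-/

set_option autoImplicit false
set_option linter.unusedVariables false
set_option linter.unusedSectionVars false

namespace Pool.Agent.NH57.BK

open Pool.Agent.R384
open Pool.Agent.Y698 (RR aR fR cX cY cj nR)
open Pool.Agent.Y698.SG (sy)
open Pool.Agent.W192.HK (sp)
open Pool.Agent.R426

open scoped Classical

lemma aR_sq' : (aR : RR) ^ 2 = aR - 2 := by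
  have h := QK.two_eq
  have h1 : cj aR = 1 - aR := Pool.Agent.Y698.ev_aR _ _
  rw [h1] at h
  linear_combination h

/-- the isomorphism, as a homomorphism -/
noncomputable def toR : OO →+* RR := em aR_sq'

lemma toR_apply (z : OO) : toR z = QK.mk (z.re, z.im) := em_apply _ _

lemma toR_bij : Function.Bijective toR := by
  constructor
  · intro x y h
    rw [toR_apply, toR_apply] at h
    have h1 := QK.mk_inj h
    rw [Prod.mk.injEq] at h1
    exact QuadraticAlgebra.ext h1.1 h1.2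
  · intro x
    exact ⟨⟨cX x, cY x⟩, by rw [toR_apply]; exact QK.mk_co x⟩

/-- the isomorphism -/
noncomputable def eR : OO ≃+* RR := RingEquiv.ofBijective toR toR_bij

lemma eR_apply (z : OO) : eR z = QK.mk (z.re, z.im) := toR_apply z

lemma eR_xy (z : OO) : cX (eR z) = z.re ∧ cY (eR z) = z.im := by
  rw [eR_apply]
  exact QK.cXY_mk _

lemma eR_om : eR om = aR := by
  rw [eR_apply]
  show ((0 : ℤ) : RR) + ((1 : ℤ) : RR) * aR = aR
  push_cast
  ring

lemma eR_om' : eR (1 - om) = cj aR := by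
  rw [map_sub, map_one, eR_om]
  exact (Pool.Agent.Y698.ev_aR _ _).symm

lemma eR_s7 : eR s7 = fR := by
  rw [eR_apply]
  show ((-1 : ℤ) : RR) + ((2 : ℤ) : RR) * aR = 2 * aR - 1
  push_cast
  ring

lemma eR_nn (z : OO) : (QK.nrm (eR z) : ℤ) = nn z := by
  rw [QK.nrm_eq', (eR_xy z).1, (eR_xy z).2]
  rfl

lemma eR_dvd {x y : OO} : eR x ∣ eR y ↔ x ∣ y := map_dvd_iff eR

lemma eR_prime {x : OO} : Prime (eR x) ↔ Prime x := MulEquiv.prime_iff eR.toMulEquiv

lemma r4_eR (z : OO) : QD.r4 (eR z) = em h2 z := by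
  rw [QD.r4_eq, (eR_xy z).1, (eR_xy z).2, em_apply]
  push_cast
  ring

lemma pq_eR {q : OO} : QK.Pq (eR q) ↔ Pp q := by
  constructor
  · rintro ⟨h1, h2, h3, h4⟩
    refine ⟨eR_prime.1 h1, by rw [← r4_eR, h2], fun h => h3 ?_, fun h => h4 ?_⟩
    · rw [← eR_om', eR_dvd]; exact h
    · rw [← eR_s7, eR_dvd]; exact h
  · rintro ⟨h1, h2, h3, h4⟩
    refine ⟨eR_prime.2 h1, by rw [r4_eR, h2], fun h => h3 ?_, fun h => h4 ?_⟩
    · rw [← eR_om', eR_dvd] at h; exact h
    · rw [← eR_s7, eR_dvd] at h; exact h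

/-- the symbols -/
lemma cs_eR {q x : OO} (h : ¬ q ∣ x) : QK.cs (eR q) (eR x) = qs q x := by
  have h1 : ¬ eR q ∣ eR x := fun h' => h (eR_dvd.1 h')
  have h2 : sy (eR q) (eR x) = 1 ↔ Sqm q x := by
    unfold sy
    rw [if_neg (fun h' => h1 (QK.mem_sp.1 h'))]
    have h3 : IsSquare (Ideal.Quotient.mk (sp (eR q)) (eR x)) ↔ Sqm q x := by
      constructor
      · rintro ⟨r, hr⟩
        obtain ⟨y, rfl⟩ := Ideal.Quotient.mk_surjective r
        rw [← map_mul, Ideal.Quotient.eq, QK.mem_sp] at hr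
        refine ⟨eR.symm y, ?_⟩
        rw [← eR_dvd, map_sub, map_pow, eR.apply_symm_apply, pow_two]
        exact hr
      · rintro ⟨y, hy⟩
        refine ⟨Ideal.Quotient.mk _ (eR y), ?_⟩
        rw [← map_mul, Ideal.Quotient.eq, QK.mem_sp, ← pow_two, ← map_pow, ← map_sub, eR_dvd]
        exact hy
    rw [← h3]
    split_ifs with h4
    · simp [h4]
    · simp only [h4, iff_false]
      norm_num
  unfold QK.cs Pool.Agent.Y698.SG.lg qs
  by_cases h3 : Sqm q x
  · rw [if_pos (h2.2 h3), if_pos h3]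
  · rw [if_neg (fun h4 => h3 (h2.1 h4)), if_neg h3]

lemma ss_eR {x : OO} (h : ¬ s7 ∣ x) : QK.ss (eR x) = qs s7 x := by
  rw [← cs_eR h, eR_s7]
  unfold QK.ss QK.cs
  rw [QD.sy_fR]

lemma tt_eR (x : OO) : QK.tt (eR x) = tO x := by
  have h := eR_nn x
  unfold QK.tt tO
  congr 1
  rw [← h]
  apply propext
  omega

lemma ndvd {π ρ : OO} (h1 : Pp π) (h2 : Pp ρ) (h : π ≠ ρ) : ¬ π ∣ ρ := by
  intro h3
  apply h
  apply eR.injective
  exact QK.eq_of_dvd (pq_eR.2 h1) (pq_eR.2 h2) (eR_dvd.2 h3)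

theorem t_REC : S_REC := by
  constructor
  · intro π ρ h1 h2 h
    have h3 := QK.recP (eR π) (eR ρ) (pq_eR.2 h1) (pq_eR.2 h2) (fun h' => h (eR.injective h'))
    rwa [cs_eR (ndvd h1 h2 h), cs_eR (ndvd h2 h1 (Ne.symm h)), tt_eR, tt_eR] at h3
  · intro π h
    have hq := pq_eR.2 h
    have hns : ¬ π ∣ s7 := by
      intro h1
      have h3 := h.prime.associated_of_dvd prime_s7 h1
      exact h.sev h3.symm.dvd
    constructor
    · rw [← cs_eR hns, ← ss_eR h.sev, eR_s7]
      exact hq.pn.seven (fun h' => hq.prm.cop7 (QK.mem_sp.1 h')) (fun h' => hns (by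
        rw [← eR_dvd, eR_s7]
        exact QK.mem_sp.1 h'))
    · rw [← tt_eR, ← QK.tp_tt hq, ← cs_eR (fun h' => h.prime.not_isUnit (isUnit_of_dvd_unit h'
        isUnit_one.neg)), map_neg, map_one]
      rfl

/-- the good elements -/
theorem goodS_of {x : RR} (h : QK.GoodE x) : ∃ S : Finset OO, GoodS S ∧ eR (∏ q ∈ S, q) = x := by
  obtain ⟨⟨hs, h4, h7⟩, hG⟩ := h
  have h4' := h4
  obtain ⟨c, hc⟩ := h4
  have hx : x = 1 + 4 * c := by linear_combination hc
  have hps : QK.PS x := by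
    refine ⟨⟨?_, ?_, h7⟩, hs⟩
    · rw [hx, map_add, map_one, QK.r4_four, add_zero]
    · intro h1
      apply QK.prime_cjaR.not_isUnit
      have h2 : cj aR ∣ 4 * c := by
        rw [QK.four_eq]
        exact Dvd.intro_left (aR * cj aR * aR * c) (by ring)
      have e : (1 : RR) = x - 4 * c := by linear_combination -hx
      exact isUnit_of_dvd_one (by rw [e]; exact dvd_sub h1 h2)
  set S : Finset OO := (QK.PD x).image eR.symm with hS
  have hmem : ∀ q, q ∈ S ↔ eR q ∈ QK.PD x := by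
    intro q
    rw [hS, Finset.mem_image]
    constructor
    · rintro ⟨y, hy, rfl⟩
      rwa [eR.apply_symm_apply]
    · intro h1
      exact ⟨eR q, h1, eR.symm_apply_apply q⟩
  have hprod : eR (∏ q ∈ S, q) = x := by
    rw [map_prod, hS, Finset.prod_image (fun a _ b _ h1 => eR.symm.injective h1)]
    simp only [eR.apply_symm_apply]
    exact hps.prod
  have hPp : ∀ q ∈ S, Pp q := fun q hq =>
    pq_eR.1 ((QK.mem_PD hps.ne).1 ((hmem q).1 hq)).1
  refine ⟨S, ⟨hPp, ?_, ?_⟩, hprod⟩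
  · rw [← eR_dvd, map_sub, map_one, hprod, map_ofNat]
    exact h4'
  · intro v hv π hπ
    have h1 := hG (fun y => v (eR.symm y)) ?_ (eR π) ((hmem π).1 hπ)
    · rwa [eR.symm_apply_apply] at h1
    · intro y hy
      obtain ⟨z, rfl⟩ := eR.surjective y
      have hz : z ∈ S := (hmem z).2 hy
      have h2 := hv z hz
      simp only [eR.symm_apply_apply]
      rw [ss_eR (hPp z hz).sev, ← h2]
      congr 1
      rw [hS, Finset.sum_image (fun a _ b _ h1 => eR.symm.injective h1)]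
      refine Finset.sum_congr rfl fun ρ hρ => ?_
      obtain ⟨t, rfl⟩ := eR.surjective ρ
      rw [eR.symm_apply_apply]
      by_cases htz : t = z
      · rw [htz]
        have : v z + v z = 0 := CharTwo.add_self_eq_zero _
        rw [this, mul_zero, mul_zero]
      · rw [cs_eR (ndvd (hPp t ((hmem t).2 hρ)) (hPp z hz) htz)]

end Pool.Agent.NH57.BK
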