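import Pool.Agent.NH57.BK.Stm

/-!
# The norms of the elements of `ℚ_2(√5)`
-/

set_option autoImplicit false
set_option linter.unusedVariables false

namespace Pool.Agent.NH57.BK

open Pool.Agent.R384
open Pool.Agent.Y715.Red Pool.Agent.Y715.Nr Pool.Agent.W237.RK
open Pool.Agent.Y715.Gi (norm_two')

/-- the norms of the elements of `ℚ_2` -/
lemma norm_fix {y : PadicAlgCl 2} (hy : y ≠ 0) (h : ∀ τ : Au 2, τ y = y) :
    ∃ k : ℤ, ‖y‖ = (2 : ℝ) ^ k := by
  obtain ⟨x, rfl⟩ := fix_mem h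
  have hx : x ≠ 0 := by
    rintro rfl
    exact hy (map_zero _)
  obtain ⟨n, hn⟩ := Padic.padicNormE.image hx
  refine ⟨-n, ?_⟩
  have h1 : ‖algebraMap ℚ_[2] (PadicAlgCl 2) x‖ = ‖x‖ := PadicAlgCl.norm_extends 2 x
  rw [h1, hn]
  norm_num

/-- the difference of the squares of two fixed elements of the same norm, the second multiplied by `e`
with `e = 5` modulo eight -/
lemma norm_diff {A B e : PadicAlgCl 2} (hB : B ≠ 0) (hA : ∀ τ : Au 2, τ A = A)
    (hB' : ∀ τ : Au 2, τ B = B) (hAB : ‖A‖ = ‖B‖) (he : ‖e - 5‖ ≤ 1 / 8) :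
    ‖A ^ 2 - B ^ 2 * e‖ = (‖B‖ / 2) ^ 2 := by
  have hB0 : ‖B‖ ≠ 0 := norm_ne_zero_iff.2 hB
  have h1 : ‖A / B‖ = 1 := by rw [norm_div, hAB, div_self hB0]
  have h2 := sq_mod_eight h1 (fun τ => by rw [map_div₀, hA, hB'])
  have h3 : A ^ 2 - B ^ 2 * e = B ^ 2 * ((((A / B) ^ 2 - 1) - (e - 5)) - 4) := by
    field_simp
    ring
  have h4 : ‖((A / B) ^ 2 - 1) - (e - 5)‖ ≤ 1 / 8 := sub_le h2 he
  have h5 : ‖(((A / B) ^ 2 - 1) - (e - 5)) - 4‖ = 1 / 4 := by
    have h6 : ‖-(4 : PadicAlgCl 2)‖ = 1 / 4 := by rw [norm_neg, norm_four']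
    have h7 : (((A / B) ^ 2 - 1) - (e - 5)) - 4 = -4 + (((A / B) ^ 2 - 1) - (e - 5)) := by ring
    rw [h7, eq_of_lt, h6]
    rw [h6]
    linarith
  rw [h3, norm_mul, norm_pow, h5]
  ring

/-- **BK-6** -/
theorem t_VAL : S_VAL := by
  intro u y hu h5 hy hfix
  by_cases hall : ∀ τ : Au 2, τ y = y
  · exact norm_fix hy hall
  · push Not at hall
    obtain ⟨t, hty⟩ := hall
    have hor : ∀ τ : Au 2, τ u = u ∨ τ u = -u := by
      intro τ
      have h1 : (τ u) ^ 2 = u ^ 2 := by rw [← map_pow, hu]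
      exact sq_eq_sq_iff_eq_or_eq_neg.1 h1
    have htI : t u = -u := by
      rcases hor t with h1 | h1
      · exact absurd (hfix t h1) hty
      · exact h1
    have htI' : t⁻¹ u = -u := by
      have := congrArg (t⁻¹ : Au 2) htI
      rw [← AlgEquiv.mul_apply, inv_mul_cancel, AlgEquiv.one_apply, map_neg] at this
      linear_combination this
    have key : ∀ τ : Au 2, τ u = -u → τ y = t y := by
      intro τ hτI
      have h1 : (t⁻¹ * τ) y = y := by
        apply hfix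
        rw [AlgEquiv.mul_apply, hτI, map_neg, htI', neg_neg]
      have h2 := congrArg t h1
      rw [← AlgEquiv.mul_apply, ← mul_assoc, mul_inv_cancel, one_mul] at h2
      exact h2
    have hc1 : ∀ τ : Au 2, τ u = u → τ (t y) = t y := by
      intro τ h1
      have h3 := key (τ * t) (by rw [AlgEquiv.mul_apply, htI, map_neg, h1])
      rwa [AlgEquiv.mul_apply] at h3
    have hc2 : ∀ τ : Au 2, τ u = -u → τ (t y) = y := by
      intro τ h1
      have h3 := hfix (τ * t) (by rw [AlgEquiv.mul_apply, htI, map_neg, h1, neg_neg])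
      rwa [AlgEquiv.mul_apply] at h3
    have hu1 : ‖u‖ = 1 := by
      have h3 := norm_one_of5 h5
      rw [norm_pow] at h3
      exact (pow_eq_one_iff_of_nonneg (norm_nonneg _) two_ne_zero).1 h3
    have hu0 : u ≠ 0 := by
      rintro rfl
      rw [norm_zero] at hu1
      exact zero_ne_one hu1
    have h20 : (2 : PadicAlgCl 2) ≠ 0 := two_ne_zero
    obtain ⟨A, hAdef⟩ : ∃ A, A = (y + t y) / 2 := ⟨_, rfl⟩
    obtain ⟨B, hBdef⟩ : ∃ B, B = (y - t y) / (2 * u) := ⟨_, rfl⟩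
    have hA : ∀ τ : Au 2, τ A = A := by
      intro τ
      rw [hAdef, map_div₀, map_add, map_ofNat]
      rcases hor τ with h1 | h1
      · rw [hfix τ h1, hc1 τ h1]
      · rw [key τ h1, hc2 τ h1, add_comm]
    have hB : ∀ τ : Au 2, τ B = B := by
      intro τ
      rw [hBdef, map_div₀, map_sub, map_mul, map_ofNat]
      rcases hor τ with h1 | h1
      · rw [hfix τ h1, hc1 τ h1, h1]
      · rw [key τ h1, hc2 τ h1, h1]
        have e : (2 : PadicAlgCl 2) * -u = -(2 * u) := by ring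
        rw [e, div_neg, ← neg_div, neg_sub]
    have hyy : y * t y = A ^ 2 - B ^ 2 * u ^ 2 := by
      rw [hAdef, hBdef]
      field_simp
      ring
    have hn : ‖y‖ ^ 2 = ‖A ^ 2 - B ^ 2 * u ^ 2‖ := by
      rw [← hyy, norm_mul, nrm, sq]
    have hB0 : B ≠ 0 := by
      intro h0
      rw [hBdef, div_eq_zero_iff] at h0
      rcases h0 with h0 | h0
      · exact hty (sub_eq_zero.1 h0).symm
      · exact mul_ne_zero h20 hu0 h0
    have hBu : ‖B ^ 2 * u ^ 2‖ = ‖B‖ ^ 2 := by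
      rw [norm_mul, norm_pow, norm_pow, hu1, one_pow, mul_one]
    rcases lt_trichotomy ‖A‖ ‖B‖ with hlt | heq | hgt
    · obtain ⟨k, hk⟩ := norm_fix hB0 hB
      refine ⟨k, ?_⟩
      have h6 : ‖A ^ 2 - B ^ 2 * u ^ 2‖ = ‖B‖ ^ 2 := by
        have e : A ^ 2 - B ^ 2 * u ^ 2 = -(B ^ 2 * u ^ 2) + A ^ 2 := by ring
        rw [e, eq_of_lt, norm_neg, hBu]
        rw [norm_neg, hBu, norm_pow]
        exact pow_lt_pow_left₀ hlt (norm_nonneg _) two_ne_zero
      rw [h6] at hn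
      rw [(pow_left_inj₀ (norm_nonneg _) (norm_nonneg _) two_ne_zero).1 hn, hk]
    · obtain ⟨k, hk⟩ := norm_fix hB0 hB
      refine ⟨k - 1, ?_⟩
      have h6 := norm_diff hB0 hA hB heq h5
      rw [h6] at hn
      rw [(pow_left_inj₀ (norm_nonneg _) (by positivity) two_ne_zero).1 hn, hk,
        zpow_sub₀ (by norm_num), zpow_one]
    · have hA0 : A ≠ 0 := by
        rintro rfl
        rw [norm_zero] at hgt
        exact absurd hgt (not_lt.2 (norm_nonneg _))
      obtain ⟨k, hk⟩ := norm_fix hA0 hA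
      refine ⟨k, ?_⟩
      have h6 : ‖A ^ 2 - B ^ 2 * u ^ 2‖ = ‖A‖ ^ 2 := by
        have e : A ^ 2 - B ^ 2 * u ^ 2 = A ^ 2 + -(B ^ 2 * u ^ 2) := by ring
        rw [e, eq_of_lt, norm_pow]
        rw [norm_neg, hBu, norm_pow]
        exact pow_lt_pow_left₀ hgt (norm_nonneg _) two_ne_zero
      rw [h6] at hn
      rw [(pow_left_inj₀ (norm_nonneg _) (norm_nonneg _) two_ne_zero).1 hn, hk]

end Pool.Agent.NH57.BK
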